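import Pool.Agent.Helper842.Exist

set_option autoImplicit false
set_option linter.unusedSectionVars false

open MeasureTheory Set Filter Topology Metric
open scoped NNReal

namespace Pool.Agent.Helper842

universe u

variable {E : Type u} [NormedAddCommGroup E] [NormedSpace ℝ E] [FiniteDimensional ℝ E]
  [MeasurableSpace E] [BorelSpace E] (μ : Measure E) [μ.IsAddHaarMeasure]

/-- `f` has a derivative in `K` at `x`. -/
def Good (K : Set (E →L[ℝ] E)) (f : E → E) (x : E) : Prop := ∃ A ∈ K, HasFDerivAt f A x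

lemma measure_scaled (c : E) {r : ℝ} (hr : 0 < r) (S : Set E) :
    μ {x | r⁻¹ • (x - c) ∈ S} = ENNReal.ofReal (r ^ Module.finrank ℝ E) * μ S := by
  have h1 : {x | r⁻¹ • (x - c) ∈ S} = (fun x => -c + x) ⁻¹' ((fun y => r⁻¹ • y) ⁻¹' S) := by
    ext x
    simp only [mem_ofPred_eq, mem_preimage, neg_add_eq_sub]
  rw [h1, measure_preimage_add, Measure.addHaar_preimage_smul μ (inv_pos.mpr hr).ne']
  congr 2
  rw [← inv_pow, inv_inv, abs_of_pos (by positivity)]

lemma measure_tau_zero (g : Fin 3 → E →L[ℝ] ℝ) (hg0 : ∀ k, g k ≠ 0) :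
    μ {x | tau g x = 0} = 0 := by
  have hsub : {x | tau g x = 0} ⊆ ⋃ k, {x | g k x = -1} := by
    intro x hx
    obtain ⟨k, hk, -⟩ := exists_tau_eq g x
    refine mem_iUnion.mpr ⟨k, ?_⟩
    have : tau g x = 0 := hx
    show g k x = -1
    linarith
  exact measure_mono_null hsub (measure_iUnion_null fun k => null_hyperplane μ (g k) (hg0 k) (-1))

lemma Good.congr {K : Set (E →L[ℝ] E)} {f f₁ : E → E} {x : E} (h : Good K f x)
    (he : f₁ =ᶠ[𝓝 x] f) : Good K f₁ x := by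
  obtain ⟨A, hA, hf⟩ := h
  exact ⟨A, hA, hf.congr_of_eventuallyEq he⟩

lemma Good.scaled {K : Set (E →L[ℝ] E)} {f : E → E} {x : E} (a c : E) {r : ℝ} (hr : 0 < r)
    (h : Good K f (r⁻¹ • (x - c))) : Good K (fun y => a + r • f (r⁻¹ • (y - c))) x := by
  obtain ⟨A, hA, hf⟩ := h
  refine ⟨A, hA, ?_⟩
  have h1 : HasFDerivAt (fun y => r⁻¹ • (y - c)) (r⁻¹ • ContinuousLinearMap.id ℝ E) x :=
    ((hasFDerivAt_id x).sub_const c).const_smul r⁻¹
  have h2 := (hf.comp x h1).const_smul r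
  have h3 := h2.const_add a
  have h4 : r • A.comp (r⁻¹ • ContinuousLinearMap.id ℝ E) = A := by
    ext y
    simp [smul_smul, mul_inv_cancel₀ hr.ne']
  rw [h4] at h3
  exact h3

variable {ι : Type*} {P : ι → E ≃L[ℝ] E} {g : ι → Fin 3 → E →L[ℝ] ℝ}

/-- The bad part of the `i`-th triangle. -/
def Bad (K : Set (E →L[ℝ] E)) (g : ι → Fin 3 → E →L[ℝ] ℝ) (f : ι → E → E) (i : ι) : Set E :=
  {x | 0 ≤ tau (g i) x ∧ ¬ Good K (f i) x}

lemma measure_cell {m : E → E} {N : Type*} (C : Cells P g m N) (n : N) :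
    μ {x | 0 ≤ C.t n x} =
      ENNReal.ofReal (C.r n ^ Module.finrank ℝ E) * μ {x | 0 ≤ tau (g (C.j n)) x} :=
  measure_scaled μ (C.c n) (C.rpos n) {x | 0 ≤ tau (g (C.j n)) x}

lemma measure_bad_cell (K : Set (E →L[ℝ] E)) {m : E → E} {N : Type*} (C : Cells P g m N)
    (hg0 : ∀ i k, g i k ≠ 0) (f : ι → E → E) (F : E → E) (hF : F = C.ins f) (n : N) :
    μ {x | 0 ≤ C.t n x ∧ ¬ Good K F x} ≤
      ENNReal.ofReal (C.r n ^ Module.finrank ℝ E) * μ (Bad K g f (C.j n)) := by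
  have hsub : {x | 0 ≤ C.t n x ∧ ¬ Good K F x} ⊆
      {x | (C.r n)⁻¹ • (x - C.c n) ∈ {y | tau (g (C.j n)) y = 0}} ∪
        {x | (C.r n)⁻¹ • (x - C.c n) ∈ Bad K g f (C.j n)} := by
    rintro x ⟨hx, hbad⟩
    rcases hx.lt_or_eq with h | h
    · right
      refine ⟨h.le, fun hgood => hbad ?_⟩
      have h1 := Good.scaled (m (C.c n)) (C.c n) (C.rpos n) hgood
      refine h1.congr ?_
      have hopen : ∀ᶠ y in 𝓝 x, 0 < C.t n y :=
        (C.continuous_t n).continuousAt.eventually (lt_mem_nhds h)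
      filter_upwards [hopen] with y hy
      rw [hF]
      exact C.ins_cell f n y hy.le
    · left
      exact h.symm
  refine (measure_mono hsub).trans ((measure_union_le _ _).trans ?_)
  rw [measure_scaled μ (C.c n) (C.rpos n), measure_scaled μ (C.c n) (C.rpos n),
    measure_tau_zero μ _ (hg0 _), mul_zero, zero_add]

theorem bad_null [Finite ι] (K : Set (E →L[ℝ] E)) {L : ℝ≥0} (v : ι → E)
    (hg0 : ∀ i k, g i k ≠ 0)
    (hR : ∀ j, ∃ R, ∀ x, 0 ≤ tau (g j) x → ‖x‖ ≤ R)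
    (hK : ∀ i, ∃ A ∈ K, ∀ x, A x = P i x + (g i 0 x) • v i)
    {N : ι → Type u} [hN : ∀ i, Countable (N i)]
    (C : ∀ i, Cells P g (model (P i) (g i) (v i)) (N i))
    (hC : ∀ i n x, 0 ≤ (C i).t n x → ∃ k : Fin 2, x ∈ reg (g i) k.succ)
    (hC0 : ∀ i, μ ({x | 0 ≤ tau (g i) x} \ (reg (g i) 0 ∪ ⋃ n, {x | 0 ≤ (C i).t n x})) = 0)
    (hClt : ∀ i, μ (⋃ n, {x | 0 ≤ (C i).t n x}) < μ {x | 0 ≤ tau (g i) x})
    (A : Adm P g L) (hA : ∀ i x, A.f i x = (C i).ins A.f x) :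
    ∀ i, μ (Bad K g A.f i) = 0 := by
  classical
  by_cases hne : Nonempty ι
  swap
  · intro i; exact absurd ⟨i⟩ hne
  -- first region is good
  have hgoodreg : ∀ i x, x ∈ reg (g i) 0 → Good K (A.f i) x := by
    intro i x hx
    obtain ⟨B, hB, hBx⟩ := hK i
    refine ⟨B, hB, ?_⟩
    have h1 : HasFDerivAt (fun y => B y + v i) B x := B.hasFDerivAt.add_const (v i)
    refine h1.congr_of_eventuallyEq ?_
    filter_upwards [(isOpen_reg (g i) 0).mem_nhds hx] with y hy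
    rw [hA, (C i).ins_out A.f y]
    · unfold model
      rw [hat_reg _ _ hy, hBx]
      module
    · intro n
      by_contra hcon
      obtain ⟨k, hk⟩ := hC i n y (not_lt.mp hcon)
      exact reg_disjoint (g i) (Fin.succ_ne_zero k) hk hy
  have hTfin : ∀ i, μ {x | 0 ≤ tau (g i) x} ≠ ⊤ := by
    intro i
    obtain ⟨R, hR'⟩ := hR i
    exact (measure_tri_lt_top μ (g i) hR').ne
  have hTpos : ∀ i, μ {x | 0 ≤ tau (g i) x} ≠ 0 := fun i => (pos_of_gt (hClt i)).ne'
  have hle : ∀ i, μ (Bad K g A.f i) ≤ ∑' n, ENNReal.ofReal ((C i).r n ^ Module.finrank ℝ E) *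
      μ (Bad K g A.f ((C i).j n)) := by
    intro i
    have hsub : Bad K g A.f i ⊆
        ({x | 0 ≤ tau (g i) x} \ (reg (g i) 0 ∪ ⋃ n, {x | 0 ≤ (C i).t n x})) ∪
          ⋃ n, {x | 0 ≤ (C i).t n x ∧ ¬ Good K (A.f i) x} := by
      rintro x ⟨hx, hbad⟩
      by_cases h : x ∈ ⋃ n, {x | 0 ≤ (C i).t n x}
      · right
        obtain ⟨n, hn⟩ := mem_iUnion.mp h
        exact mem_iUnion.mpr ⟨n, hn, hbad⟩
      · left
        refine ⟨hx, ?_⟩
        rintro (h' | h')
        · exact hbad (hgoodreg i x h')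
        · exact h h'
    refine (measure_mono hsub).trans ((measure_union_le _ _).trans ?_)
    rw [hC0 i, zero_add]
    refine (measure_iUnion_le _).trans ?_
    exact ENNReal.tsum_le_tsum fun n =>
      measure_bad_cell μ K (C i) hg0 A.f (A.f i) (funext (hA i)) n
  obtain ⟨i₀, hi₀⟩ := Finite.exists_max
    (fun i => μ (Bad K g A.f i) / μ {x | 0 ≤ tau (g i) x})
  set β := μ (Bad K g A.f i₀) / μ {x | 0 ≤ tau (g i₀) x} with hβ
  have hbound : ∀ j, μ (Bad K g A.f j) ≤ β * μ {x | 0 ≤ tau (g j) x} := by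
    intro j
    have := hi₀ j
    rwa [ENNReal.div_le_iff (hTpos j) (hTfin j)] at this
  have hβeq : μ (Bad K g A.f i₀) = β * μ {x | 0 ≤ tau (g i₀) x} := by
    rw [hβ, ENNReal.div_mul_cancel (hTpos i₀) (hTfin i₀)]
  have hβtop : β ≠ ⊤ := by
    have h1 : μ (Bad K g A.f i₀) ≤ μ {x | 0 ≤ tau (g i₀) x} :=
      measure_mono fun x hx => hx.1
    exact (ENNReal.div_lt_top (h1.trans_lt (lt_top_iff_ne_top.mpr (hTfin i₀))).ne
      (hTpos i₀)).ne
  have hβ0 : β = 0 := by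
    by_contra hne0
    have h1 : μ (Bad K g A.f i₀) ≤ β * μ (⋃ n, {x | 0 ≤ (C i₀).t n x}) := by
      refine (hle i₀).trans ?_
      rw [measure_iUnion, ← ENNReal.tsum_mul_left]
      · refine ENNReal.tsum_le_tsum fun n => ?_
        rw [measure_cell μ (C i₀) n, ← mul_assoc, mul_comm β, mul_assoc]
        gcongr
        exact hbound _
      · intro n n' hnn
        rw [Function.onFun, Set.disjoint_left]
        intro x hx hx'
        exact hnn ((C i₀).disj n n' x hx hx')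
      · intro n
        exact (isClosed_le continuous_const ((C i₀).continuous_t n)).measurableSet
    have h2 : β * μ (⋃ n, {x | 0 ≤ (C i₀).t n x}) < β * μ {x | 0 ≤ tau (g i₀) x} :=
      ENNReal.mul_lt_mul_right hne0 hβtop (hClt i₀)
    rw [← hβeq] at h2
    exact absurd h1 (not_le.mpr h2)
  intro i
  have := hbound i
  rw [hβ0, zero_mul] at this
  exact le_antisymm this zero_le

end Pool.Agent.Helper842
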