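import Pool.Agent.Helper842.Glue

set_option autoImplicit false

open MeasureTheory Set Filter Topology Metric
open scoped NNReal

namespace Pool.Agent.Helper842

variable {E : Type*} [NormedAddCommGroup E] [NormedSpace ℝ E]

lemma abs_hat_sub_le (g : Fin 3 → E →L[ℝ] ℝ) (x y : E) :
    |hat g x - hat g y| ≤ (∑ k, ‖g k‖) * ‖x - y‖ := by
  have key : ∀ x y : E, hat g x - hat g y ≤ (∑ k, ‖g k‖) * ‖x - y‖ := by
    intro x y
    by_cases h : hat g y < hat g x
    · obtain ⟨k, hk⟩ := hat_sub_le g x y h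
      calc hat g x - hat g y ≤ g k (x - y) := hk
        _ ≤ ‖g k (x - y)‖ := Real.le_norm_self _
        _ ≤ ‖g k‖ * ‖x - y‖ := (g k).le_opNorm _
        _ ≤ _ := by
          gcongr
          exact Finset.single_le_sum (f := fun k => ‖g k‖) (fun _ _ => norm_nonneg _)
            (Finset.mem_univ k)
    · have : 0 ≤ (∑ k, ‖g k‖) * ‖x - y‖ := by positivity
      linarith [not_lt.mp h]
  rw [abs_le]
  constructor
  · have := key y x
    rw [norm_sub_rev] at this
    linarith
  · exact key x y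

/-- The one-hat perturbation of the identity. -/
noncomputable def bump (g : Fin 3 → E →L[ℝ] ℝ) (w : E) (x : E) : E := x + hat g x • w

lemma bump_lip (g : Fin 3 → E →L[ℝ] ℝ) (w : E) : ∃ L : ℝ≥0, LipschitzWith L (bump g w) := by
  refine ⟨⟨1 + (∑ k, ‖g k‖) * ‖w‖, by positivity⟩, LipschitzWith.of_dist_le_mul fun x y => ?_⟩
  rw [dist_eq_norm, dist_eq_norm]
  have : bump g w x - bump g w y = (x - y) + (hat g x - hat g y) • w := by
    unfold bump; module
  rw [this]
  calc ‖(x - y) + (hat g x - hat g y) • w‖ ≤ ‖x - y‖ + ‖(hat g x - hat g y) • w‖ :=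
        norm_add_le _ _
    _ = ‖x - y‖ + |hat g x - hat g y| * ‖w‖ := by rw [norm_smul, Real.norm_eq_abs]
    _ ≤ ‖x - y‖ + ((∑ k, ‖g k‖) * ‖x - y‖) * ‖w‖ := by
        gcongr; exact abs_hat_sub_le g x y
    _ = (1 + (∑ k, ‖g k‖) * ‖w‖) * ‖x - y‖ := by ring

lemma bump_anti (g : Fin 3 → E →L[ℝ] ℝ) (w : E) (hpos : ∀ k, 0 < 1 + g k w) :
    ∃ C : ℝ≥0, ∀ x y, dist x y ≤ C * dist (bump g w x) (bump g w y) := by
  set C₀ : ℝ := ∑ k, ‖g k‖ / (1 + g k w) with hC₀
  have hC₀nn : 0 ≤ C₀ := Finset.sum_nonneg fun k _ => div_nonneg (norm_nonneg _) (hpos k).le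
  have key : ∀ x y : E, hat g x - hat g y ≤ C₀ * ‖bump g w x - bump g w y‖ := by
    intro x y
    by_cases h : hat g y < hat g x
    · obtain ⟨k, hk⟩ := hat_sub_le g x y h
      set e := bump g w x - bump g w y with he
      have he' : x - y = e - (hat g x - hat g y) • w := by
        rw [he]; unfold bump; module
      have h1 : g k (x - y) = g k e - (hat g x - hat g y) * g k w := by
        rw [he', map_sub, map_smul, smul_eq_mul]
      have h2 : (hat g x - hat g y) * (1 + g k w) ≤ ‖g k‖ * ‖e‖ := by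
        have : g k e ≤ ‖g k‖ * ‖e‖ := (Real.le_norm_self _).trans ((g k).le_opNorm _)
        nlinarith
      have h3 : hat g x - hat g y ≤ ‖g k‖ / (1 + g k w) * ‖e‖ := by
        rw [div_mul_eq_mul_div, le_div_iff₀ (hpos k)]
        exact h2
      refine h3.trans ?_
      gcongr
      exact Finset.single_le_sum (f := fun k => ‖g k‖ / (1 + g k w))
        (fun k _ => div_nonneg (norm_nonneg _) (hpos k).le) (Finset.mem_univ k)
    · have : 0 ≤ C₀ * ‖bump g w x - bump g w y‖ := by positivity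
      linarith [not_lt.mp h]
  refine ⟨⟨1 + C₀ * ‖w‖, by positivity⟩, fun x y => ?_⟩
  rw [dist_eq_norm, dist_eq_norm]
  set e := bump g w x - bump g w y with he
  have he' : x - y = e - (hat g x - hat g y) • w := by
    rw [he]; unfold bump; module
  have habs : |hat g x - hat g y| ≤ C₀ * ‖e‖ := by
    rw [abs_le]
    constructor
    · have := key y x
      rw [norm_sub_rev, ← he] at this
      linarith
    · exact key x y
  rw [he']
  calc ‖e - (hat g x - hat g y) • w‖ ≤ ‖e‖ + ‖(hat g x - hat g y) • w‖ := norm_sub_le _ _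
    _ = ‖e‖ + |hat g x - hat g y| * ‖w‖ := by rw [norm_smul, Real.norm_eq_abs]
    _ ≤ ‖e‖ + (C₀ * ‖e‖) * ‖w‖ := by gcongr
    _ = (1 + C₀ * ‖w‖) * ‖e‖ := by ring

lemma continuous_hat (g : Fin 3 → E →L[ℝ] ℝ) : Continuous (hat g) := by
  unfold hat
  exact continuous_const.max (continuous_tau g)

lemma bump_surj (g : Fin 3 → E →L[ℝ] ℝ) (w : E) (hle : ∀ x, tau g x ≤ 1) :
    Function.Surjective (bump g w) := by
  intro z
  have hle' : ∀ x, hat g x ≤ 1 := fun x => max_le zero_le_one (hle x)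
  have hc : ContinuousOn (fun s : ℝ => s - hat g (z - s • w)) (Icc 0 1) := by
    have : Continuous (fun s : ℝ => s - hat g (z - s • w)) :=
      continuous_id.sub ((continuous_hat g).comp (by fun_prop))
    exact this.continuousOn
  have h := intermediate_value_Icc (zero_le_one (α := ℝ)) hc
  have h0 : (0:ℝ) ∈ Icc ((fun s : ℝ => s - hat g (z - s • w)) 0)
      ((fun s : ℝ => s - hat g (z - s • w)) 1) := by
    constructor
    · have := hat_nonneg g (z - (0:ℝ) • w)
      simp only
      linarith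
    · have := hle' (z - (1:ℝ) • w)
      simp only
      linarith
  obtain ⟨s, -, hs⟩ := h h0
  refine ⟨z - s • w, ?_⟩
  simp only at hs
  unfold bump
  have : hat g (z - s • w) = s := by linarith
  rw [this]
  simp

/-- The model map. -/
noncomputable def model (P : E ≃L[ℝ] E) (g : Fin 3 → E →L[ℝ] ℝ) (v : E) (x : E) : E :=
  P x + hat g x • v

lemma model_BL (P : E ≃L[ℝ] E) (g : Fin 3 → E →L[ℝ] ℝ) (v : E)
    (hpos : ∀ k, 0 < 1 + g k (P.symm v)) (hle : ∀ x, tau g x ≤ 1) :
    ∃ (L : ℝ≥0) (m' : E → E), BL L (model P g v) m' := by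
  obtain ⟨L₁, hL₁⟩ := bump_lip g (P.symm v)
  obtain ⟨C, hC⟩ := bump_anti g (P.symm v) hpos
  have hinj : Function.Injective (bump g (P.symm v)) := by
    intro x y hxy
    have := hC x y
    rw [hxy, dist_self, mul_zero] at this
    exact dist_le_zero.mp this
  have hbij : Function.Bijective (bump g (P.symm v)) := ⟨hinj, bump_surj g _ hle⟩
  set e := Equiv.ofBijective _ hbij with he
  have hmodel : ∀ x, model P g v x = P (bump g (P.symm v) x) := by
    intro x
    simp [model, bump]
  obtain ⟨A, hA⟩ : ∃ A : ℝ≥0, LipschitzWith A P := ⟨_, P.lipschitz⟩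
  obtain ⟨A', hA'⟩ : ∃ A : ℝ≥0, LipschitzWith A P.symm := ⟨_, P.symm.lipschitz⟩
  have heL : LipschitzWith C e.symm := by
    refine LipschitzWith.of_dist_le_mul fun x y => ?_
    have := hC (e.symm x) (e.symm y)
    have h1 : ∀ z, bump g (P.symm v) (e.symm z) = z := fun z => e.apply_symm_apply z
    rwa [h1, h1] at this
  refine ⟨max (A * L₁) (C * A'), fun y => e.symm (P.symm y), ?_, ?_, ?_, ?_⟩
  · intro x
    rw [hmodel]
    simp only [ContinuousLinearEquiv.symm_apply_apply]
    exact e.symm_apply_apply x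
  · intro y
    rw [hmodel]
    have : bump g (P.symm v) (e.symm (P.symm y)) = P.symm y := e.apply_symm_apply _
    rw [this]
    simp
  · have h1 : LipschitzWith (A * L₁) (model P g v) := by
      have := hA.comp hL₁
      have h2 : model P g v = P ∘ bump g (P.symm v) := funext hmodel
      rw [h2]; exact this
    exact h1.weaken (le_max_left _ _)
  · exact (heL.comp hA').weaken (le_max_right _ _)

lemma BL.mono {L L' : ℝ≥0} {f f' : E → E} (h : BL L f f') (hL : L ≤ L') : BL L' f f' :=
  ⟨h.left, h.right, h.lip.weaken hL, h.lip'.weaken hL⟩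

lemma linear_BL (P : E ≃L[ℝ] E) : ∃ L : ℝ≥0, BL L P P.symm :=
  ⟨max _ _, P.symm_apply_apply, P.apply_symm_apply, P.lipschitz.weaken (le_max_left _ _),
    P.symm.lipschitz.weaken (le_max_right _ _)⟩

end Pool.Agent.Helper842
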