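import Pool.Agent.Helper842.Model

set_option autoImplicit false
set_option linter.unusedSectionVars false

open MeasureTheory Set Filter Topology Metric
open scoped NNReal

namespace Pool.Agent.Helper842

universe u

variable {E : Type u} [NormedAddCommGroup E] [NormedSpace ℝ E] [FiniteDimensional ℝ E]
  [MeasurableSpace E] [BorelSpace E] (μ : Measure E) [μ.IsAddHaarMeasure]

lemma measure_tri_lt_top (g : Fin 3 → E →L[ℝ] ℝ) {R : ℝ}
    (hR : ∀ x : E, 0 ≤ tau g x → ‖x‖ ≤ R) : μ {x | 0 ≤ tau g x} < ⊤ := by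
  have : ProperSpace E := FiniteDimensional.proper_real E
  refine lt_of_le_of_lt (measure_mono (t := closedBall 0 R) ?_) measure_closedBall_lt_top
  intro x hx
  rw [mem_closedBall_zero_iff]
  exact hR x hx

theorem exists_model {ι : Type*} (P : ι → E ≃L[ℝ] E) (g : ι → Fin 3 → E →L[ℝ] ℝ)
    (v : ι → E) (ch : ι → Fin 2 → ι) (i : ι)
    (hch : ∀ k x, P (ch i k) x = P i x + (g i k.succ x) • v i)
    (hR : ∀ j, ∃ R, ∀ x, 0 ≤ tau (g j) x → ‖x‖ ≤ R)
    (hg0 : ∀ k, g i k ≠ 0) (hinj : ∀ k k', k ≠ k' → g i k ≠ g i k')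
    (hgood : ∃ x, g i 0 x < g i 1 x ∧ g i 0 x < g i 2 x) :
    ∃ (N : Type u) (_ : Countable N) (C : Cells P g (model (P i) (g i) (v i)) N),
      (∀ n x, 0 ≤ C.t n x → ∃ k : Fin 2, x ∈ reg (g i) k.succ) ∧
      μ ({x | 0 ≤ tau (g i) x} \ (reg (g i) 0 ∪ ⋃ n, {x | 0 ≤ C.t n x})) = 0 ∧
      μ (⋃ n, {x | 0 ≤ C.t n x}) < μ {x | 0 ≤ tau (g i) x} := by
  have hpack : ∀ k : Fin 2, ∃ u : Set (E × ℝ), u.Countable ∧
      (∀ a ∈ u, 0 < a.2 ∧ a.2 ≤ 1 / 2 ∧ tri (g (ch i k)) a ⊆ reg (g i) k.succ) ∧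
      u.PairwiseDisjoint (tri (g (ch i k))) ∧
      μ (reg (g i) k.succ \ ⋃ a ∈ u, tri (g (ch i k)) a) = 0 := by
    intro k
    obtain ⟨R, hR'⟩ := hR (ch i k)
    exact packing μ (g (ch i k)) hR' (isOpen_reg (g i) k.succ)
  choose u huc hu hud hu0 using hpack
  have : ∀ k, Countable (u k) := fun k => (huc k).to_subtype
  let N : Type u := Σ k : Fin 2, u k
  let C : Cells P g (model (P i) (g i) (v i)) N :=
    { c := fun n => n.2.1.1
      r := fun n => n.2.1.2
      j := fun n => ch i n.1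
      rpos := fun n => (hu n.1 n.2.1 n.2.2).1
      rle := fun n => (hu n.1 n.2.1 n.2.2).2.1
      disj := by
        rintro ⟨k, a⟩ ⟨k', a'⟩ x hx hx'
        have h1 : x ∈ reg (g i) k.succ := (hu k a.1 a.2).2.2 hx
        have h2 : x ∈ reg (g i) k'.succ := (hu k' a'.1 a'.2).2.2 hx'
        by_cases hk : k = k'
        · subst hk
          by_cases ha : a.1 = a'.1
          · have : a = a' := Subtype.ext ha
            rw [this]
          · exfalso
            have h3 := hud k a.2 a'.2 ha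
            exact Set.disjoint_left.mp h3 hx hx'
        · exfalso
          have hne : k.succ ≠ k'.succ := fun h => hk (Fin.succ_injective _ h)
          exact reg_disjoint (g i) hne h1 h2
      aff := by
        rintro ⟨k, a⟩ x hx
        have h1 : x ∈ reg (g i) k.succ := (hu k a.1 a.2).2.2 hx
        have hc : a.1.1 ∈ tri (g (ch i k)) a.1 := by
          unfold tri
          simp only [mem_ofPred_eq, sub_self, smul_zero, tau_zero]
          exact zero_le_one
        have h2 : a.1.1 ∈ reg (g i) k.succ := (hu k a.1 a.2).2.2 hc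
        simp only
        unfold model
        rw [hat_reg _ _ h1, hat_reg _ _ h2, hch k, map_sub, map_sub]
        module }
  have hCt : ∀ n x, 0 ≤ C.t n x ↔ x ∈ tri (g (ch i n.1)) n.2.1 := fun n x => Iff.rfl
  have hCin : ∀ n x, 0 ≤ C.t n x → ∃ k : Fin 2, x ∈ reg (g i) k.succ := by
    rintro ⟨k, a⟩ x hx
    exact ⟨k, (hu k a.1 a.2).2.2 hx⟩
  refine ⟨N, inferInstance, C, hCin, ?_, ?_⟩
  · have hsub : ({x | 0 ≤ tau (g i) x} \ (reg (g i) 0 ∪ ⋃ n, {x | 0 ≤ C.t n x})) ⊆
        ({x | 0 ≤ tau (g i) x} \ ⋃ k, reg (g i) k) ∪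
          ⋃ k : Fin 2, (reg (g i) k.succ \ ⋃ a ∈ u k, tri (g (ch i k)) a) := by
      rintro x ⟨hx, hxn⟩
      by_cases h : x ∈ ⋃ k, reg (g i) k
      · right
        obtain ⟨k, hk⟩ := mem_iUnion.mp h
        have hk0 : k ≠ 0 := by
          rintro rfl
          exact hxn (Or.inl hk)
        obtain ⟨k', rfl⟩ := Fin.exists_succ_eq.mpr hk0
        refine mem_iUnion.mpr ⟨k', hk, ?_⟩
        intro hcon
        obtain ⟨a, ha, hxa⟩ := mem_iUnion₂.mp hcon
        exact hxn (Or.inr (mem_iUnion.mpr ⟨⟨k', ⟨a, ha⟩⟩, hxa⟩))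
      · left; exact ⟨hx, h⟩
    refine measure_mono_null hsub (measure_union_null (reg_cover μ (g i) hg0 hinj) ?_)
    exact measure_iUnion_null fun k => hu0 k
  · obtain ⟨R, hR'⟩ := hR i
    have hfin := measure_tri_lt_top μ (g i) hR'
    have hsub1 : (⋃ n, {x | 0 ≤ C.t n x}) ⊆ {x | 0 ≤ tau (g i) x} \ reg (g i) 0 := by
      intro x hx
      obtain ⟨n, hn⟩ := mem_iUnion.mp hx
      obtain ⟨k, hk⟩ := hCin n x hn
      refine ⟨?_, ?_⟩
      · show 0 ≤ tau (g i) x
        rw [tau_reg _ _ hk]; exact hk.1.le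
      · exact reg_disjoint (g i) (Fin.succ_ne_zero k) hk
    have hsub0 : reg (g i) 0 ⊆ {x | 0 ≤ tau (g i) x} := by
      intro x hx
      show 0 ≤ tau (g i) x
      rw [tau_reg _ _ hx]; exact hx.1.le
    have hne : (reg (g i) 0).Nonempty := by
      obtain ⟨x, hx1, hx2⟩ := hgood
      set s : ℝ := 1 / (1 + |g i 0 x|) with hs
      have hs0 : 0 < s := by positivity
      refine ⟨s • x, ?_, ?_⟩
      · rw [map_smul, smul_eq_mul]
        have h1 : -|g i 0 x| ≤ g i 0 x := neg_abs_le _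
        have h2 : s * |g i 0 x| < 1 := by
          rw [hs, div_mul_eq_mul_div, one_mul, div_lt_one (by positivity)]
          linarith
        nlinarith
      · intro k' hk'
        rw [map_smul, map_smul, smul_eq_mul, smul_eq_mul]
        have : g i 0 x < g i k' x := by
          fin_cases k'
          · exact absurd rfl hk'
          · exact hx1
          · exact hx2
        exact mul_lt_mul_of_pos_left this hs0
    have hpos : 0 < μ (reg (g i) 0) := (isOpen_reg (g i) 0).measure_pos μ hne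
    have hsplit : μ {x | 0 ≤ tau (g i) x} =
        μ ({x | 0 ≤ tau (g i) x} \ reg (g i) 0) + μ (reg (g i) 0) := by
      have h1 := measure_sdiff_add_inter (μ := μ) {x | 0 ≤ tau (g i) x}
        (isOpen_reg (g i) 0).measurableSet
      rw [inter_eq_self_of_subset_right hsub0] at h1
      exact h1.symm
    have hfin' : μ ({x | 0 ≤ tau (g i) x} \ reg (g i) 0) ≠ ⊤ :=
      ((measure_mono sdiff_subset).trans_lt hfin).ne
    calc μ (⋃ n, {x | 0 ≤ C.t n x}) ≤ μ ({x | 0 ≤ tau (g i) x} \ reg (g i) 0) :=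
          measure_mono hsub1
      _ < μ ({x | 0 ≤ tau (g i) x} \ reg (g i) 0) + μ (reg (g i) 0) :=
          ENNReal.lt_add_right hfin' hpos.ne'
      _ = _ := hsplit.symm

/-- A packing of the whole space by cells of one type, on which a linear map is affine. -/
theorem exists_space_cells {ι : Type*} (P : ι → E ≃L[ℝ] E) (g : ι → Fin 3 → E →L[ℝ] ℝ)
    (i : ι) (hR : ∃ R, ∀ x, 0 ≤ tau (g i) x → ‖x‖ ≤ R) :
    ∃ (N : Type u) (_ : Countable N) (C : Cells P g (P i) N),
      (∀ n, C.j n = i) ∧ μ (univ \ ⋃ n, {x | 0 ≤ C.t n x}) = 0 := by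
  obtain ⟨R, hR'⟩ := hR
  obtain ⟨u, huc, hu, hud, hu0⟩ := packing μ (g i) hR' isOpen_univ
  have : Countable u := huc.to_subtype
  let C : Cells P g (P i) u :=
    { c := fun n => n.1.1
      r := fun n => n.1.2
      j := fun _ => i
      rpos := fun n => (hu n.1 n.2).1
      rle := fun n => (hu n.1 n.2).2.1
      disj := by
        intro a a' x hx hx'
        by_contra hne
        have h3 := hud a.2 a'.2 (fun h => hne (Subtype.ext h))
        exact Set.disjoint_left.mp h3 hx hx'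
      aff := by
        intro n x _
        rw [map_sub]
        abel }
  refine ⟨u, inferInstance, C, fun _ => rfl, ?_⟩
  have : (⋃ n, {x | 0 ≤ C.t n x}) = ⋃ a ∈ u, tri (g i) a := by
    ext x
    simp only [mem_iUnion, mem_ofPred_eq]
    constructor
    · rintro ⟨n, hn⟩; exact ⟨n.1, n.2, hn⟩
    · rintro ⟨a, ha, hx⟩; exact ⟨⟨a, ha⟩, hx⟩
  rw [this]
  exact hu0

end Pool.Agent.Helper842
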