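import Mathlib

set_option autoImplicit false

open MeasureTheory Set Filter Topology Metric
open scoped NNReal

namespace Pool.Agent.Helper842

variable {E : Type*} [NormedAddCommGroup E] [NormedSpace ℝ E]

lemma exists_zero_on_segment {t : E → ℝ} (ht : Continuous t) {x y : E}
    (hx : 0 ≤ t x) (hy : t y < 0) : ∃ z ∈ segment ℝ x y, t z = 0 := by
  have hc : IsPreconnected (segment ℝ x y) := (convex_segment x y).isPreconnected
  have h := hc.intermediate_value (right_mem_segment ℝ x y) (left_mem_segment ℝ x y)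
    (f := t) ht.continuousOn
  obtain ⟨z, hz, hz0⟩ := h (show (0:ℝ) ∈ Icc (t y) (t x) from ⟨hy.le, hx⟩)
  exact ⟨z, hz, hz0⟩

lemma lipschitz_glue {Y : Type*} [PseudoMetricSpace Y] {L : ℝ≥0} {m F : E → Y}
    (hm : LipschitzWith L m) {N : Type*} {φ : N → E → Y} (hφ : ∀ n, LipschitzWith L (φ n))
    {t : N → E → ℝ} (ht : ∀ n, Continuous (t n))
    (hdisj : ∀ n n' x, 0 ≤ t n x → 0 ≤ t n' x → n = n')
    (hF : ∀ n x, 0 ≤ t n x → F x = φ n x)
    (hF0 : ∀ x, (∀ n, t n x < 0) → F x = m x)
    (hb : ∀ n x, t n x = 0 → φ n x = m x) : LipschitzWith L F := by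
  -- first: from a point in a cell to a point outside all cells
  have hout : ∀ x y, (∀ n, t n y < 0) → dist (F x) (F y) ≤ L * dist x y := by
    intro x y hy
    by_cases hx : ∀ n, t n x < 0
    · rw [hF0 x hx, hF0 y hy]; exact hm.dist_le_mul x y
    · push Not at hx
      obtain ⟨n, hn⟩ := hx
      obtain ⟨z, hz, hz0⟩ := exists_zero_on_segment (ht n) hn (hy n)
      have hFz : F z = φ n z := hF n z hz0.ge
      calc dist (F x) (F y) ≤ dist (F x) (F z) + dist (F z) (F y) := dist_triangle _ _ _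
        _ = dist (φ n x) (φ n z) + dist (m z) (m y) := by
            rw [hF n x hn, hFz, hb n z hz0, hF0 y hy]
        _ ≤ L * dist x z + L * dist z y :=
            add_le_add ((hφ n).dist_le_mul x z) (hm.dist_le_mul z y)
        _ = L * dist x y := by rw [← dist_add_dist_of_mem_segment hz]; ring
  refine LipschitzWith.of_dist_le_mul fun x y => ?_
  by_cases hy : ∀ n, t n y < 0
  · exact hout x y hy
  by_cases hx : ∀ n, t n x < 0
  · rw [dist_comm (F x), dist_comm x]; exact hout y x hx
  push Not at hx hy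
  obtain ⟨n, hn⟩ := hx
  obtain ⟨n', hn'⟩ := hy
  by_cases hnn : n = n'
  · subst hnn
    rw [hF n x hn, hF n y hn']; exact (hφ n).dist_le_mul x y
  · have hyn : t n y < 0 := by
      by_contra hcon
      exact hnn (hdisj n n' y (not_lt.mp hcon) hn')
    obtain ⟨z, hz, hz0⟩ := exists_zero_on_segment (ht n) hn hyn
    have hzn' : t n' z < 0 := by
      by_contra hcon
      exact hnn (hdisj n n' z hz0.ge (not_lt.mp hcon))
    obtain ⟨w, hw, hw0⟩ := exists_zero_on_segment (ht n') hn' hzn'
    have hFz : F z = φ n z := hF n z hz0.ge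
    have hFw : F w = φ n' w := hF n' w hw0.ge
    calc dist (F x) (F y) ≤ dist (F x) (F z) + dist (F z) (F w) + dist (F w) (F y) :=
          dist_triangle4 _ _ _ _
      _ = dist (φ n x) (φ n z) + dist (m z) (m w) + dist (φ n' w) (φ n' y) := by
          rw [hF n x hn, hFz, hb n z hz0, hFw, hF n' y hn', hb n' w hw0]
      _ ≤ L * dist x z + L * dist z w + L * dist w y :=
          add_le_add (add_le_add ((hφ n).dist_le_mul x z) (hm.dist_le_mul z w))
            ((hφ n').dist_le_mul w y)
      _ = L * (dist x z + (dist y w + dist w z)) := by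
          rw [dist_comm z w, dist_comm w y]; ring
      _ = L * dist x y := by
          rw [dist_add_dist_of_mem_segment hw, dist_comm y z, dist_add_dist_of_mem_segment hz]

/-- A pair of mutually inverse `L`-Lipschitz maps. -/
structure BL (L : ℝ≥0) (f f' : E → E) : Prop where
  left : ∀ x, f' (f x) = x
  right : ∀ y, f (f' y) = y
  lip : LipschitzWith L f
  lip' : LipschitzWith L f'

/-- The three-sided hat before truncation. -/
noncomputable def tau (g : Fin 3 → E →L[ℝ] ℝ) (x : E) : ℝ :=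
  1 + min (g 0 x) (min (g 1 x) (g 2 x))

lemma tau_le (g : Fin 3 → E →L[ℝ] ℝ) (x : E) (k : Fin 3) : tau g x ≤ 1 + g k x := by
  unfold tau
  fin_cases k
  · simp
  · simp
  · simp

lemma exists_tau_eq (g : Fin 3 → E →L[ℝ] ℝ) (x : E) :
    ∃ k, tau g x = 1 + g k x ∧ ∀ k', g k x ≤ g k' x := by
  obtain ⟨k, hk⟩ := Finite.exists_min (fun k => g k x)
  refine ⟨k, le_antisymm (tau_le g x k) ?_, hk⟩
  unfold tau
  have := le_min (hk 0) (le_min (hk 1) (hk 2))
  linarith

lemma continuous_tau (g : Fin 3 → E →L[ℝ] ℝ) : Continuous (tau g) := by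
  unfold tau
  fun_prop

lemma tau_zero (g : Fin 3 → E →L[ℝ] ℝ) : tau g 0 = 1 := by
  simp [tau]

/-- The hat function. -/
noncomputable def hat (g : Fin 3 → E →L[ℝ] ℝ) (x : E) : ℝ := max 0 (tau g x)

lemma hat_nonneg (g : Fin 3 → E →L[ℝ] ℝ) (x : E) : 0 ≤ hat g x := le_max_left _ _

lemma hat_sub_le (g : Fin 3 → E →L[ℝ] ℝ) (x y : E) (h : hat g y < hat g x) :
    ∃ k, hat g x - hat g y ≤ g k (x - y) := by
  obtain ⟨k, hk, -⟩ := exists_tau_eq g y
  refine ⟨k, ?_⟩
  have hx : 0 < hat g x := (hat_nonneg g y).trans_lt h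
  have hx' : hat g x = tau g x := by
    unfold hat at hx ⊢
    rcases le_total (tau g x) 0 with h1 | h1
    · rw [max_eq_left h1] at hx; exact absurd hx (lt_irrefl _)
    · exact max_eq_right h1
  have h1 : tau g x ≤ 1 + g k x := tau_le g x k
  have h2 : tau g y ≤ hat g y := le_max_right _ _
  rw [map_sub]
  linarith

lemma tau_sub_le (g : Fin 3 → E →L[ℝ] ℝ) (x y : E) :
    ∃ k, tau g x - tau g y ≤ g k (x - y) := by
  obtain ⟨k, hk, -⟩ := exists_tau_eq g y
  refine ⟨k, ?_⟩
  have h1 : tau g x ≤ 1 + g k x := tau_le g x k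
  rw [map_sub]
  linarith

end Pool.Agent.Helper842
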