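import Pool.Agent.Helper842.Oper

set_option autoImplicit false

open MeasureTheory Set Filter Topology Metric
open scoped NNReal

namespace Pool.Agent.Helper842

variable {E : Type*} [NormedAddCommGroup E] [NormedSpace ℝ E] [CompleteSpace E] {ι : Type*}
variable {P : ι → E ≃L[ℝ] E} {g : ι → Fin 3 → E →L[ℝ] ℝ} {L : ℝ≥0}

theorem exists_limit {m m' : ι → E → E} {N : ι → Type*} (C : ∀ i, Cells P g (m i) (N i))
    (hm : ∀ i, BL L (m i) (m' i)) (hP : ∀ i, BL L (P i) (P i).symm)
    (hout : ∀ i x, tau (g i) x ≤ 0 → m i x = P i x)
    (hin : ∀ i n x, 0 ≤ (C i).t n x → 0 < tau (g i) x)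
    {D : ℝ} (hD : ∀ i x, dist (m i x) (P i x) ≤ D) :
    ∃ A : Adm P g L, (∀ i x, A.f i x = (C i).ins A.f x) ∧
      ∀ i x, dist (A.f i x) (P i x) ≤ 2 * D := by
  classical
  -- one step
  let next : Adm P g L → Adm P g L := fun A =>
    { f := fun i => (C i).ins A.f
      f' := fun i => (C i).ins' (m' i) A.f'
      bl := fun i => ins_BL (C i) (hm i) A
      out := by
        intro i x hx
        rw [(C i).ins_out A.f x, hout i x hx]
        intro n
        by_contra hcon
        have := hin i n x (not_lt.mp hcon)
        linarith }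
  let base : Adm P g L :=
    { f := fun i => P i
      f' := fun i => (P i).symm
      bl := hP
      out := fun i x _ => rfl }
  let seq : ℕ → Adm P g L := fun n => next^[n] base
  have hseq : ∀ n, seq (n + 1) = next (seq n) := by
    intro n
    simp only [seq, Function.iterate_succ_apply']
  have hseqf : ∀ n i x, (seq (n + 1)).f i x = (C i).ins (seq n).f x := by
    intro n i x; rw [hseq]
  -- step estimate
  have hstep : ∀ n i x, dist ((seq n).f i x) ((seq (n + 1)).f i x) ≤ D * (1 / 2) ^ n := by
    intro n
    induction n with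
    | zero =>
      intro i x
      rw [hseqf, pow_zero, mul_one]
      have h0 : (seq 0).f = fun i => ⇑(P i) := rfl
      have : (C i).ins (seq 0).f x = m i x := by
        by_cases hx : ∀ n, (C i).t n x < 0
        · exact (C i).ins_out _ x hx
        · push Not at hx
          obtain ⟨n, hn⟩ := hx
          rw [(C i).ins_cell _ n x hn, h0]
          simp only
          rw [map_smul, smul_inv_smul₀ ((C i).rpos n).ne']
          exact ((C i).aff n x hn).symm
      rw [this, dist_comm]
      exact hD i x
    | succ n ih =>
      intro i x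
      rw [hseqf n, hseqf (n + 1)]
      by_cases hx : ∀ n, (C i).t n x < 0
      · rw [(C i).ins_out _ x hx, (C i).ins_out _ x hx, dist_self]
        have hD0 : 0 ≤ D := dist_nonneg.trans (hD i x)
        positivity
      · push Not at hx
        obtain ⟨k, hk⟩ := hx
        rw [(C i).ins_cell _ k x hk, (C i).ins_cell _ k x hk, dist_add_left, dist_smul₀,
          Real.norm_eq_abs, abs_of_pos ((C i).rpos k)]
        have h1 := ih ((C i).j k) (((C i).r k)⁻¹ • (x - (C i).c k))
        have h2 := (C i).rle k
        have h3 := (C i).rpos k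
        calc (C i).r k * dist _ _ ≤ (1 / 2) * (D * (1 / 2) ^ n) := by gcongr
          _ = D * (1 / 2) ^ (n + 1) := by ring
  have hcau : ∀ i x, CauchySeq fun n => (seq n).f i x := fun i x =>
    cauchySeq_of_le_geometric (1 / 2) D (by norm_num) fun n => hstep n i x
  have hstep' : ∀ n i y, dist ((seq n).f' i y) ((seq (n + 1)).f' i y) ≤
      (L * D) * (1 / 2) ^ n := by
    intro n i y
    set a := (seq n).f' i y with ha
    set b := (seq (n + 1)).f' i y with hb
    have h1 : dist a b ≤ L * dist ((seq n).f i a) ((seq n).f i b) := by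
      have := ((seq n).bl i).lip'.dist_le_mul ((seq n).f i a) ((seq n).f i b)
      rwa [((seq n).bl i).left, ((seq n).bl i).left] at this
    have h2 : (seq n).f i a = y := ((seq n).bl i).right y
    have h3 : (seq (n + 1)).f i b = y := ((seq (n + 1)).bl i).right y
    have h4 := hstep n i b
    rw [h3] at h4
    rw [h2, dist_comm y] at h1
    calc dist a b ≤ L * dist ((seq n).f i b) y := h1
      _ ≤ L * (D * (1 / 2) ^ n) := by gcongr
      _ = (L * D) * (1 / 2) ^ n := by ring
  have hcau' : ∀ i y, CauchySeq fun n => (seq n).f' i y := fun i y =>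
    cauchySeq_of_le_geometric (1 / 2) (L * D) (by norm_num) fun n => hstep' n i y
  choose F hF using fun i x => cauchySeq_tendsto_of_complete (hcau i x)
  choose F' hF' using fun i y => cauchySeq_tendsto_of_complete (hcau' i y)
  have hlip : ∀ i, LipschitzWith L (F i) := by
    intro i
    refine LipschitzWith.of_dist_le_mul fun x y => ?_
    refine le_of_tendsto' ((hF i x).dist (hF i y)) fun n => ?_
    exact ((seq n).bl i).lip.dist_le_mul x y
  have hlip' : ∀ i, LipschitzWith L (F' i) := by
    intro i
    refine LipschitzWith.of_dist_le_mul fun x y => ?_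
    refine le_of_tendsto' ((hF' i x).dist (hF' i y)) fun n => ?_
    exact ((seq n).bl i).lip'.dist_le_mul x y
  -- composition identities
  have hright : ∀ i y, F i (F' i y) = y := by
    intro i y
    have h1 : Tendsto (fun n => (seq n).f i ((seq n).f' i y)) atTop (𝓝 (F i (F' i y))) := by
      rw [tendsto_iff_dist_tendsto_zero]
      have h2 : Tendsto (fun n => L * dist ((seq n).f' i y) (F' i y) +
          dist ((seq n).f i (F' i y)) (F i (F' i y))) atTop (𝓝 (L * 0 + 0)) := by
        refine Tendsto.add (Tendsto.const_mul _ ?_) ?_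
        · exact tendsto_iff_dist_tendsto_zero.mp (hF' i y)
        · exact tendsto_iff_dist_tendsto_zero.mp (hF i (F' i y))
      rw [mul_zero, add_zero] at h2
      refine squeeze_zero (fun _ => dist_nonneg) (fun n => ?_) h2
      calc dist ((seq n).f i ((seq n).f' i y)) (F i (F' i y)) ≤
          dist ((seq n).f i ((seq n).f' i y)) ((seq n).f i (F' i y)) +
            dist ((seq n).f i (F' i y)) (F i (F' i y)) := dist_triangle _ _ _
        _ ≤ _ := by
          gcongr
          exact ((seq n).bl i).lip.dist_le_mul _ _
    have h3 : (fun n => (seq n).f i ((seq n).f' i y)) = fun _ => y :=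
      funext fun n => ((seq n).bl i).right y
    rw [h3] at h1
    exact (tendsto_nhds_unique h1 tendsto_const_nhds)
  have hleft : ∀ i x, F' i (F i x) = x := by
    intro i x
    have h1 : Tendsto (fun n => (seq n).f' i ((seq n).f i x)) atTop (𝓝 (F' i (F i x))) := by
      rw [tendsto_iff_dist_tendsto_zero]
      have h2 : Tendsto (fun n => L * dist ((seq n).f i x) (F i x) +
          dist ((seq n).f' i (F i x)) (F' i (F i x))) atTop (𝓝 (L * 0 + 0)) := by
        refine Tendsto.add (Tendsto.const_mul _ ?_) ?_
        · exact tendsto_iff_dist_tendsto_zero.mp (hF i x)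
        · exact tendsto_iff_dist_tendsto_zero.mp (hF' i (F i x))
      rw [mul_zero, add_zero] at h2
      refine squeeze_zero (fun _ => dist_nonneg) (fun n => ?_) h2
      calc dist ((seq n).f' i ((seq n).f i x)) (F' i (F i x)) ≤
          dist ((seq n).f' i ((seq n).f i x)) ((seq n).f' i (F i x)) +
            dist ((seq n).f' i (F i x)) (F' i (F i x)) := dist_triangle _ _ _
        _ ≤ _ := by
          gcongr
          exact ((seq n).bl i).lip'.dist_le_mul _ _
    have h3 : (fun n => (seq n).f' i ((seq n).f i x)) = fun _ => x :=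
      funext fun n => ((seq n).bl i).left x
    rw [h3] at h1
    exact (tendsto_nhds_unique h1 tendsto_const_nhds)
  have houtF : ∀ i x, tau (g i) x ≤ 0 → F i x = P i x := by
    intro i x hx
    have h1 := hF i x
    have h3 : (fun n => (seq n).f i x) = fun _ => P i x :=
      funext fun n => (seq n).out i x hx
    rw [h3] at h1
    exact (tendsto_nhds_unique h1 tendsto_const_nhds)
  refine ⟨⟨F, F', fun i => ⟨hleft i, hright i, hlip i, hlip' i⟩, houtF⟩, ?_, ?_⟩
  · intro i x
    simp only
    have h1 : Tendsto (fun n => (seq (n + 1)).f i x) atTop (𝓝 (F i x)) :=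
      (hF i x).comp (tendsto_add_atTop_nat 1)
    by_cases hx : ∀ n, (C i).t n x < 0
    · rw [(C i).ins_out _ x hx]
      have h3 : (fun n => (seq (n + 1)).f i x) = fun _ => m i x := by
        funext n
        rw [hseqf, (C i).ins_out _ x hx]
      rw [h3] at h1
      exact (tendsto_nhds_unique h1 tendsto_const_nhds)
    · push Not at hx
      obtain ⟨k, hk⟩ := hx
      rw [(C i).ins_cell _ k x hk]
      have h3 : (fun n => (seq (n + 1)).f i x) = fun n => m i ((C i).c k) + (C i).r k •
          (seq n).f ((C i).j k) (((C i).r k)⁻¹ • (x - (C i).c k)) := by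
        funext n
        rw [hseqf, (C i).ins_cell _ k x hk]
      rw [h3] at h1
      refine tendsto_nhds_unique h1 ?_
      exact Tendsto.const_add _ (Tendsto.const_smul (hF _ _) _)
  · intro i x
    simp only
    have := dist_le_of_le_geometric_of_tendsto (1 / 2) D (by norm_num)
      (fun n => hstep n i x) (hF i x) 0
    have h0 : (seq 0).f i x = P i x := rfl
    rw [h0, dist_comm] at this
    norm_num at this
    linarith

end Pool.Agent.Helper842
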