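import Pool.Agent.Helper842.Bad

set_option autoImplicit false
set_option linter.unusedSectionVars false

open MeasureTheory Set Filter Topology Metric
open scoped NNReal

namespace Pool.Agent.Helper842

universe u

variable {E : Type u} [NormedAddCommGroup E] [NormedSpace ℝ E] [FiniteDimensional ℝ E]
  [MeasurableSpace E] [BorelSpace E] (μ : Measure E) [μ.IsAddHaarMeasure]

lemma tau_le_one (g : Fin 3 → E →L[ℝ] ℝ) {R : ℝ}
    (hR : ∀ x : E, 0 ≤ tau g x → ‖x‖ ≤ R) (x : E) : tau g x ≤ 1 := by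
  by_contra hcon
  push Not at hcon
  have hk : ∀ k, 0 < g k x := by
    intro k
    have := tau_le g x k
    linarith
  have hx0 : x ≠ 0 := by
    rintro rfl
    have := hk 0
    simp at this
  have hxn : 0 < ‖x‖ := norm_pos_iff.mpr hx0
  set s : ℝ := (|R| + 1) / ‖x‖ with hs
  have hs0 : 0 < s := by positivity
  have h1 : 0 ≤ tau g (s • x) := by
    obtain ⟨k, hk', -⟩ := exists_tau_eq g (s • x)
    rw [hk', map_smul, smul_eq_mul]
    have := mul_pos hs0 (hk k)
    linarith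
  have h2 := hR _ h1
  rw [norm_smul, Real.norm_eq_abs, abs_of_pos hs0, hs, div_mul_cancel₀ _ hxn.ne'] at h2
  linarith [le_abs_self R]

/-- The abstract existence theorem. -/
theorem exists_map {ι : Type} [Fintype ι] (K : Set (E →L[ℝ] E))
    (P : ι → E ≃L[ℝ] E) (g : ι → Fin 3 → E →L[ℝ] ℝ) (v : ι → E) (ch : ι → Fin 2 → ι)
    (hch : ∀ i k x, P (ch i k) x = P i x + (g i k.succ x) • v i)
    (hK : ∀ i, ∃ A ∈ K, ∀ x, A x = P i x + (g i 0 x) • v i)
    (hpos : ∀ i k, 0 < 1 + g i k ((P i).symm (v i)))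
    (hR : ∀ j, ∃ R, ∀ x, 0 ≤ tau (g j) x → ‖x‖ ≤ R)
    (hg0 : ∀ i k, g i k ≠ 0) (hinj : ∀ i k k', k ≠ k' → g i k ≠ g i k')
    (hgood : ∀ i, ∃ x, g i 0 x < g i 1 x ∧ g i 0 x < g i 2 x) (i₀ : ι) :
    ∃ (L : ℝ≥0) (f : E ≃ₜ E), LipschitzWith L f ∧ LipschitzWith L f.symm ∧
      (∀ᵐ x ∂μ, Good K f x) ∧ ∃ D : ℝ, ∀ x, dist (f x) (P i₀ x) ≤ D := by
  classical
  have : CompleteSpace E := FiniteDimensional.complete ℝ E
  have hle : ∀ i x, tau (g i) x ≤ 1 := by
    intro i x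
    obtain ⟨R, hR'⟩ := hR i
    exact tau_le_one (g i) hR' x
  choose L₁ m' hL₁ using fun i => model_BL (P i) (g i) (v i) (hpos i) (hle i)
  choose L₂ hL₂ using fun i => linear_BL (P i)
  set L : ℝ≥0 := Finset.univ.sup fun i => max (L₁ i) (L₂ i) with hL
  have hLi : ∀ i, max (L₁ i) (L₂ i) ≤ L := fun i =>
    Finset.le_sup (f := fun i => max (L₁ i) (L₂ i)) (Finset.mem_univ i)
  have hm : ∀ i, BL L (model (P i) (g i) (v i)) (m' i) := fun i =>
    (hL₁ i).mono ((le_max_left _ _).trans (hLi i))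
  have hP : ∀ i, BL L (P i) (P i).symm := fun i =>
    (hL₂ i).mono ((le_max_right _ _).trans (hLi i))
  choose N hN C hC hC0 hClt using fun i =>
    exists_model μ P g v ch i (hch i) hR (hg0 i) (hinj i) (hgood i)
  set D : ℝ := ∑ i, ‖v i‖ with hD
  have hDi : ∀ i x, dist (model (P i) (g i) (v i) x) (P i x) ≤ D := by
    intro i x
    unfold model
    rw [dist_eq_norm, add_sub_cancel_left, norm_smul, Real.norm_eq_abs,
      abs_of_nonneg (hat_nonneg _ _)]
    have h1 : hat (g i) x ≤ 1 := max_le zero_le_one (hle i x)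
    have h2 : ‖v i‖ ≤ D :=
      Finset.single_le_sum (f := fun i => ‖v i‖) (fun _ _ => norm_nonneg _) (Finset.mem_univ i)
    calc hat (g i) x * ‖v i‖ ≤ 1 * ‖v i‖ := by gcongr
      _ ≤ D := by rw [one_mul]; exact h2
  have hout : ∀ i x, tau (g i) x ≤ 0 → model (P i) (g i) (v i) x = P i x := by
    intro i x hx
    unfold model hat
    rw [max_eq_left hx, zero_smul, add_zero]
  have hin : ∀ i n x, 0 ≤ (C i).t n x → 0 < tau (g i) x := by
    intro i n x hx
    obtain ⟨k, hk⟩ := hC i n x hx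
    rw [tau_reg _ _ hk]; exact hk.1
  obtain ⟨A, hA, hAD⟩ := exists_limit C hm hP hout hin hDi
  have hbad := bad_null μ K v hg0 hR hK C hC hC0 hClt A hA
  obtain ⟨N₀, hN₀, C₀, hj, hcov⟩ := exists_space_cells μ P g i₀ (hR i₀)
  have hBL := ins_BL C₀ (hP i₀) A
  let f : E ≃ₜ E :=
    { toFun := C₀.ins A.f
      invFun := C₀.ins' (P i₀).symm A.f'
      left_inv := hBL.left
      right_inv := hBL.right
      continuous_toFun := hBL.lip.continuous
      continuous_invFun := hBL.lip'.continuous }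
  refine ⟨L, f, hBL.lip, hBL.lip', ?_, D, ?_⟩
  · rw [ae_iff]
    have hsub : {x | ¬ Good K f x} ⊆ (univ \ ⋃ n, {x | 0 ≤ C₀.t n x}) ∪
        ⋃ n, {x | 0 ≤ C₀.t n x ∧ ¬ Good K f x} := by
      intro x hx
      by_cases h : x ∈ ⋃ n, {x | 0 ≤ C₀.t n x}
      · right
        obtain ⟨n, hn⟩ := mem_iUnion.mp h
        exact mem_iUnion.mpr ⟨n, hn, hx⟩
      · left; exact ⟨mem_univ x, h⟩
    refine measure_mono_null hsub (measure_union_null hcov (measure_iUnion_null fun n => ?_))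
    have h1 := measure_bad_cell μ K C₀ hg0 A.f f rfl n
    rw [hbad, mul_zero] at h1
    exact le_antisymm h1 zero_le
  · intro x
    have hD0 : 0 ≤ D := Finset.sum_nonneg fun _ _ => norm_nonneg _
    show dist (C₀.ins A.f x) (P i₀ x) ≤ D
    by_cases hx : ∀ n, C₀.t n x < 0
    · rw [C₀.ins_out _ x hx, dist_self]; exact hD0
    · push Not at hx
      obtain ⟨n, hn⟩ := hx
      rw [C₀.ins_cell _ n x hn]
      have h1 : P i₀ x = P i₀ (C₀.c n) + C₀.r n • P (C₀.j n) ((C₀.r n)⁻¹ • (x - C₀.c n)) := by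
        rw [map_smul, smul_inv_smul₀ (C₀.rpos n).ne', hj n, map_sub]
        abel
      rw [h1, dist_add_left, dist_smul₀, Real.norm_eq_abs, abs_of_pos (C₀.rpos n)]
      have h2 := hAD (C₀.j n) ((C₀.r n)⁻¹ • (x - C₀.c n))
      have h3 := C₀.rle n
      calc C₀.r n * dist _ _ ≤ (1 / 2) * (2 * D) := by gcongr
        _ = D := by ring

end Pool.Agent.Helper842
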