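import Pool.Agent.Helper842.Limit

set_option autoImplicit false
set_option linter.unusedSectionVars false

open MeasureTheory Set Filter Topology Metric
open scoped NNReal

namespace Pool.Agent.Helper842

universe u

variable {E : Type u} [NormedAddCommGroup E] [NormedSpace ℝ E] [FiniteDimensional ℝ E]
  [MeasurableSpace E] [BorelSpace E] (μ : Measure E) [μ.IsAddHaarMeasure]

lemma null_hyperplane (a : E →L[ℝ] ℝ) (ha : a ≠ 0) (b : ℝ) : μ {x | a x = b} = 0 := by
  by_cases h : ∃ x₀, a x₀ = b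
  · obtain ⟨x₀, hx₀⟩ := h
    have h1 : {x | a x = b} = (fun x => -x₀ + x) ⁻¹' (LinearMap.ker a.toLinearMap : Set E) := by
      ext x
      simp only [mem_ofPred_eq, mem_preimage, SetLike.mem_coe, LinearMap.mem_ker,
        ContinuousLinearMap.coe_coe, map_add, map_neg, hx₀]
      constructor
      · intro h; linarith
      · intro h; linarith
    rw [h1, measure_preimage_add]
    apply Measure.addHaar_submodule
    intro htop
    apply ha
    ext x
    have : x ∈ LinearMap.ker a.toLinearMap := by rw [htop]; trivial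
    simpa using this
  · have : {x | a x = b} = ∅ := by
      ext x
      simp only [mem_ofPred_eq, mem_empty_iff_false, iff_false]
      exact fun hx => h ⟨x, hx⟩
    rw [this, measure_empty]

/-- The scaled and translated triangle. -/
def tri (g : Fin 3 → E →L[ℝ] ℝ) (a : E × ℝ) : Set E := {x | 0 ≤ tau g (a.2⁻¹ • (x - a.1))}

lemma exists_ball_tau (g : Fin 3 → E →L[ℝ] ℝ) :
    ∃ ε > 0, ∀ x : E, ‖x‖ ≤ ε → 0 < tau g x := by
  have h : ∀ᶠ x in 𝓝 (0 : E), 0 < tau g x := by
    have := (continuous_tau g).continuousAt (x := (0 : E))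
    apply this.eventually (lt_mem_nhds _)
    rw [tau_zero]; exact one_pos
  obtain ⟨ε, hε, hball⟩ := Metric.eventually_nhds_iff_ball.mp h
  refine ⟨ε / 2, by positivity, fun x hx => hball x ?_⟩
  rw [mem_ball_zero_iff]
  linarith

lemma closedBall_subset_tri (g : Fin 3 → E →L[ℝ] ℝ) {ε : ℝ}
    (hε : ∀ x : E, ‖x‖ ≤ ε → 0 < tau g x) (a : E × ℝ) (ha : 0 < a.2) :
    closedBall a.1 (a.2 * ε) ⊆ tri g a := by
  intro x hx
  rw [mem_closedBall, dist_eq_norm] at hx
  refine (hε _ ?_).le
  rw [norm_smul, norm_inv, Real.norm_eq_abs, abs_of_pos ha, inv_mul_le_iff₀ ha]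
  exact hx

lemma tri_subset_closedBall (g : Fin 3 → E →L[ℝ] ℝ) {R : ℝ}
    (hR : ∀ x : E, 0 ≤ tau g x → ‖x‖ ≤ R) (a : E × ℝ) (ha : 0 < a.2) :
    tri g a ⊆ closedBall a.1 (a.2 * R) := by
  intro x hx
  have := hR _ hx
  rw [norm_smul, norm_inv, Real.norm_eq_abs, abs_of_pos ha, inv_mul_le_iff₀ ha] at this
  rw [mem_closedBall, dist_eq_norm]
  exact this

lemma isClosed_tri (g : Fin 3 → E →L[ℝ] ℝ) (a : E × ℝ) : IsClosed (tri g a) := by
  unfold tri
  exact isClosed_le continuous_const ((continuous_tau g).comp (by fun_prop))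

lemma packing (g : Fin 3 → E →L[ℝ] ℝ) {R : ℝ}
    (hR : ∀ x : E, 0 ≤ tau g x → ‖x‖ ≤ R) {O : Set E} (hO : IsOpen O) :
    ∃ u : Set (E × ℝ), u.Countable ∧ (∀ a ∈ u, 0 < a.2 ∧ a.2 ≤ 1 / 2 ∧ tri g a ⊆ O) ∧
      u.PairwiseDisjoint (tri g) ∧ μ (O \ ⋃ a ∈ u, tri g a) = 0 := by
  obtain ⟨ε, hε, hball⟩ := exists_ball_tau g
  set R' : ℝ := max R 1 with hR'
  have hR'pos : 0 < R' := lt_of_lt_of_le one_pos (le_max_right _ _)
  have hRR' : ∀ x : E, 0 ≤ tau g x → ‖x‖ ≤ R' := fun x hx => (hR x hx).trans (le_max_left _ _)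
  set d := Module.finrank ℝ E with hd
  set t : Set (E × ℝ) := {a | 0 < a.2 ∧ a.2 ≤ 1 / 2 ∧ tri g a ⊆ O} with ht
  obtain ⟨u, hut, huc, hud, hu0⟩ := Vitali.exists_disjoint_covering_ae μ O t
    (Real.toNNReal ((3 * R' / ε) ^ d)) (fun a => a.2 * R') (fun a => a.1) (tri g)
    (fun a ha => tri_subset_closedBall g hRR' a ha.1) (by
      intro a ha
      have ha0 : 0 < a.2 := ha.1
      have h1 : μ (closedBall a.1 (a.2 * ε)) ≤ μ (tri g a) :=
        measure_mono (closedBall_subset_tri g hball a ha0)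
      refine le_trans ?_ (mul_le_mul_right h1 _)
      rw [Measure.addHaar_closedBall μ _ (by positivity),
        Measure.addHaar_closedBall μ _ (by positivity)]
      have h2 : (↑(Real.toNNReal ((3 * R' / ε) ^ d)) : ENNReal) =
          ENNReal.ofReal ((3 * R' / ε) ^ d) := rfl
      rw [h2, ← mul_assoc (ENNReal.ofReal ((3 * R' / ε) ^ d)),
        ← ENNReal.ofReal_mul (by positivity), ← mul_pow]
      apply le_of_eq
      congr 3
      field_simp) (by
      intro a ha
      refine ⟨a.1, interior_mono (closedBall_subset_tri g hball a ha.1) ?_⟩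
      have : 0 < a.2 * ε := mul_pos ha.1 hε
      exact ball_subset_interior_closedBall (mem_ball_self this))
    (fun a _ => isClosed_tri g a) (by
      intro x hx δ hδ
      obtain ⟨ρ, hρ, hρO⟩ := Metric.isOpen_iff.mp hO x hx
      set s : ℝ := min (1 / 2) (min (δ / R') (ρ / (2 * R'))) with hs
      have hs0 : 0 < s := lt_min (by norm_num) (lt_min (by positivity) (by positivity))
      have hs1 : s * R' ≤ δ := by
        have : s ≤ δ / R' := (min_le_right _ _).trans (min_le_left _ _)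
        rwa [le_div_iff₀ hR'pos] at this
      have hs2 : s * R' < ρ := by
        have : s ≤ ρ / (2 * R') := (min_le_right _ _).trans (min_le_right _ _)
        rw [le_div_iff₀ (by positivity)] at this
        linarith
      refine ⟨(x, s), ⟨hs0, min_le_left _ _, ?_⟩, hs1, rfl⟩
      refine (tri_subset_closedBall g hRR' (x, s) hs0).trans (Subset.trans ?_ hρO)
      intro y hy
      rw [mem_ball]
      exact (mem_closedBall.mp hy).trans_lt hs2)
  exact ⟨u, huc, fun a ha => hut ha, hud, hu0⟩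

/-- The region where the `k`-th functional is the strict minimum. -/
def reg (g : Fin 3 → E →L[ℝ] ℝ) (k : Fin 3) : Set E :=
  {x | 0 < 1 + g k x ∧ ∀ k', k' ≠ k → g k x < g k' x}

lemma isOpen_reg (g : Fin 3 → E →L[ℝ] ℝ) (k : Fin 3) : IsOpen (reg g k) := by
  unfold reg
  rw [ofPred_and]
  refine IsOpen.inter (isOpen_lt continuous_const (by fun_prop)) ?_
  simp only [ofPred_forall]
  refine isOpen_iInter_of_finite fun k' => ?_
  by_cases h : k' = k
  · simp [h]
  · simp only [ne_eq, h, not_false_eq_true, iInter_true]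
    exact isOpen_lt (by fun_prop) (by fun_prop)

lemma tau_reg (g : Fin 3 → E →L[ℝ] ℝ) (k : Fin 3) {x : E} (hx : x ∈ reg g k) :
    tau g x = 1 + g k x := by
  obtain ⟨k', hk', hmin⟩ := exists_tau_eq g x
  by_cases h : k' = k
  · rw [hk', h]
  · have h1 := hx.2 k' h
    have h2 := hmin k
    linarith

lemma hat_reg (g : Fin 3 → E →L[ℝ] ℝ) (k : Fin 3) {x : E} (hx : x ∈ reg g k) :
    hat g x = 1 + g k x := by
  unfold hat
  rw [tau_reg g k hx]
  exact max_eq_right hx.1.le

lemma reg_disjoint (g : Fin 3 → E →L[ℝ] ℝ) {k k' : Fin 3} (h : k ≠ k') {x : E}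
    (hx : x ∈ reg g k) : x ∉ reg g k' := by
  intro hx'
  have h1 := hx.2 k' h.symm
  have h2 := hx'.2 k h
  linarith

lemma reg_cover (g : Fin 3 → E →L[ℝ] ℝ) (hg0 : ∀ k, g k ≠ 0)
    (hinj : ∀ k k', k ≠ k' → g k ≠ g k') :
    μ ({x | 0 ≤ tau g x} \ ⋃ k, reg g k) = 0 := by
  have hsub : ({x | 0 ≤ tau g x} \ ⋃ k, reg g k) ⊆
      (⋃ k, {x | g k x = -1}) ∪ ⋃ k, ⋃ k', ⋃ (_ : k ≠ k'), {x | (g k - g k') x = 0} := by
    rintro x ⟨hx, hxn⟩
    obtain ⟨k, hk, hmin⟩ := exists_tau_eq g x
    by_cases h1 : g k x = -1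
    · left; exact mem_iUnion.mpr ⟨k, h1⟩
    by_cases h2 : ∃ k', k ≠ k' ∧ (g k - g k') x = 0
    · right
      obtain ⟨k', hne, hk'⟩ := h2
      simp only [mem_iUnion]
      exact ⟨k, k', hne, hk'⟩
    · exfalso
      apply hxn
      refine mem_iUnion.mpr ⟨k, ?_, ?_⟩
      · have h3 : 0 ≤ 1 + g k x := by rw [← hk]; exact hx
        rcases h3.lt_or_eq with h4 | h4
        · exact h4
        · exfalso; apply h1; linarith
      · intro k' hk'
        rcases (hmin k').lt_or_eq with h4 | h4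
        · exact h4
        · exfalso
          apply h2
          refine ⟨k', hk'.symm, ?_⟩
          simp [h4]
  refine measure_mono_null hsub ?_
  refine measure_union_null ?_ ?_
  · exact measure_iUnion_null fun k => null_hyperplane μ (g k) (hg0 k) (-1)
  · refine measure_iUnion_null fun k => measure_iUnion_null fun k' =>
      measure_iUnion_null fun h => ?_
    exact null_hyperplane μ (g k - g k') (sub_ne_zero.mpr (hinj k k' h)) 0

end Pool.Agent.Helper842
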