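import Pool.Agent.Helper842.Base

set_option autoImplicit false

open MeasureTheory Set Filter Topology Metric
open scoped NNReal

namespace Pool.Agent.Helper842

variable {E : Type*} [NormedAddCommGroup E] [NormedSpace ℝ E] {ι : Type*}

/-- An admissible family of maps. -/
structure Adm (P : ι → E ≃L[ℝ] E) (g : ι → Fin 3 → E →L[ℝ] ℝ) (L : ℝ≥0) where
  f : ι → E → E
  f' : ι → E → E
  bl : ∀ i, BL L (f i) (f' i)
  out : ∀ i x, tau (g i) x ≤ 0 → f i x = P i x

/-- A base map with a family of disjoint scaled cells on which it is affine. -/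
structure Cells (P : ι → E ≃L[ℝ] E) (g : ι → Fin 3 → E →L[ℝ] ℝ) (m : E → E)
    (N : Type*) where
  c : N → E
  r : N → ℝ
  j : N → ι
  rpos : ∀ n, 0 < r n
  rle : ∀ n, r n ≤ 1 / 2
  disj : ∀ n n' x, 0 ≤ tau (g (j n)) ((r n)⁻¹ • (x - c n)) →
    0 ≤ tau (g (j n')) ((r n')⁻¹ • (x - c n')) → n = n'
  aff : ∀ n x, 0 ≤ tau (g (j n)) ((r n)⁻¹ • (x - c n)) → m x = m (c n) + P (j n) (x - c n)

namespace Cells

variable {P : ι → E ≃L[ℝ] E} {g : ι → Fin 3 → E →L[ℝ] ℝ} {m : E → E} {N : Type*}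

/-- The defining function of the `n`-th cell. -/
noncomputable def t (C : Cells P g m N) (n : N) (x : E) : ℝ :=
  tau (g (C.j n)) ((C.r n)⁻¹ • (x - C.c n))

lemma continuous_t (C : Cells P g m N) (n : N) : Continuous (C.t n) := by
  unfold t
  exact (continuous_tau _).comp (by fun_prop)

open Classical in
/-- Insert scaled copies of `f` in the cells. -/
noncomputable def ins (C : Cells P g m N) (f : ι → E → E) (x : E) : E :=
  if h : ∃ n, 0 ≤ C.t n x then
    m (C.c h.choose) + C.r h.choose •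
      f (C.j h.choose) ((C.r h.choose)⁻¹ • (x - C.c h.choose))
  else m x

open Classical in
/-- Insert scaled copies of the inverses. -/
noncomputable def ins' (C : Cells P g m N) (m' : E → E) (f' : ι → E → E) (y : E) : E :=
  if h : ∃ n, 0 ≤ C.t n (m' y) then
    C.c h.choose + C.r h.choose •
      f' (C.j h.choose) ((C.r h.choose)⁻¹ • (y - m (C.c h.choose)))
  else m' y

lemma ins_cell (C : Cells P g m N) (f : ι → E → E) (n : N) (x : E) (h : 0 ≤ C.t n x) :
    C.ins f x = m (C.c n) + C.r n • f (C.j n) ((C.r n)⁻¹ • (x - C.c n)) := by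
  have hex : ∃ n, 0 ≤ C.t n x := ⟨n, h⟩
  have : hex.choose = n := C.disj _ _ x hex.choose_spec h
  unfold ins
  rw [dif_pos hex, this]

lemma ins_out (C : Cells P g m N) (f : ι → E → E) (x : E) (h : ∀ n, C.t n x < 0) :
    C.ins f x = m x := by
  unfold ins
  rw [dif_neg]
  push Not
  exact h

lemma ins'_cell (C : Cells P g m N) (m' : E → E) (f' : ι → E → E) (n : N) (y : E)
    (h : 0 ≤ C.t n (m' y)) :
    C.ins' m' f' y = C.c n + C.r n • f' (C.j n) ((C.r n)⁻¹ • (y - m (C.c n))) := by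
  have hex : ∃ n, 0 ≤ C.t n (m' y) := ⟨n, h⟩
  have : hex.choose = n := C.disj _ _ (m' y) hex.choose_spec h
  unfold ins'
  rw [dif_pos hex, this]

lemma ins'_out (C : Cells P g m N) (m' : E → E) (f' : ι → E → E) (y : E)
    (h : ∀ n, C.t n (m' y) < 0) : C.ins' m' f' y = m' y := by
  unfold ins'
  rw [dif_neg]
  push Not
  exact h

end Cells

variable {P : ι → E ≃L[ℝ] E} {g : ι → Fin 3 → E →L[ℝ] ℝ} {L : ℝ≥0}

/-- `f i` maps the triangle onto its image under `P i`. -/
lemma Adm.maps (A : Adm P g L) (i : ι) (x : E) (hx : 0 ≤ tau (g i) x) :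
    0 ≤ tau (g i) ((P i).symm (A.f i x)) := by
  by_contra hcon
  push Not at hcon
  have h1 := A.out i _ hcon.le
  rw [ContinuousLinearEquiv.apply_symm_apply] at h1
  have h2 := congrArg (A.f' i) h1
  rw [(A.bl i).left, (A.bl i).left] at h2
  rw [h2] at hcon
  linarith

lemma Adm.maps' (A : Adm P g L) (i : ι) (x : E) (hx : 0 ≤ tau (g i) x) :
    0 ≤ tau (g i) (A.f' i (P i x)) := by
  by_contra hcon
  push Not at hcon
  have h1 := A.out i _ hcon.le
  rw [(A.bl i).right] at h1
  have h2 := (P i).injective h1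
  rw [← h2] at hcon
  linarith

lemma Adm.out' (A : Adm P g L) (i : ι) (x : E) (hx : tau (g i) x ≤ 0) :
    A.f' i (P i x) = x := by
  rw [← A.out i x hx, (A.bl i).left]

section

variable {m m' : E → E} {N : Type*} (C : Cells P g m N) (hm : BL L m m') (A : Adm P g L)

include hm

lemma m'_val (n : N) (x : E) (h : 0 ≤ tau (g (C.j n)) x) :
    m' (m (C.c n) + C.r n • P (C.j n) x) = C.c n + C.r n • x := by
  have hr := (C.rpos n).ne'
  have h1 : 0 ≤ tau (g (C.j n)) ((C.r n)⁻¹ • ((C.c n + C.r n • x) - C.c n)) := by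
    rw [add_sub_cancel_left, inv_smul_smul₀ hr]; exact h
  have h2 := C.aff n (C.c n + C.r n • x) h1
  rw [add_sub_cancel_left, map_smul] at h2
  rw [← h2, hm.left]

omit hm in
lemma t_val (n : N) (x : E) (h : 0 ≤ tau (g (C.j n)) x) :
    0 ≤ C.t n (C.c n + C.r n • x) := by
  unfold Cells.t
  rw [add_sub_cancel_left, inv_smul_smul₀ (C.rpos n).ne']; exact h

lemma ins_mem (n : N) (x : E) (h : 0 ≤ C.t n x) : 0 ≤ C.t n (m' (C.ins A.f x)) := by
  rw [C.ins_cell A.f n x h]
  have h1 := A.maps (C.j n) _ h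
  have h2 := m'_val C hm n _ h1
  rw [ContinuousLinearEquiv.apply_symm_apply] at h2
  rw [h2]
  exact t_val C n _ h1

lemma ins_left (x : E) : C.ins' m' A.f' (C.ins A.f x) = x := by
  by_cases hx : ∀ n, C.t n x < 0
  · rw [C.ins_out _ x hx, C.ins'_out, hm.left]
    intro n; rw [hm.left]; exact hx n
  · push Not at hx
    obtain ⟨n, hn⟩ := hx
    rw [C.ins'_cell m' A.f' n _ (ins_mem C hm A n x hn), C.ins_cell A.f n x hn,
      add_sub_cancel_left, inv_smul_smul₀ (C.rpos n).ne', (A.bl _).left,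
      smul_inv_smul₀ (C.rpos n).ne']
    abel

/-- In the target: a point of the image cell is the image of its model preimage. -/
lemma target_val (n : N) (y : E) (h : 0 ≤ C.t n (m' y)) :
    (C.r n)⁻¹ • (y - m (C.c n)) = P (C.j n) ((C.r n)⁻¹ • (m' y - C.c n)) := by
  have h1 := C.aff n (m' y) h
  rw [hm.right] at h1
  rw [map_smul]
  congr 1
  rw [sub_eq_iff_eq_add']
  exact h1

lemma ins'_mem (n : N) (y : E) (h : 0 ≤ C.t n (m' y)) : 0 ≤ C.t n (C.ins' m' A.f' y) := by
  rw [C.ins'_cell m' A.f' n y h, target_val C hm n y h]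
  exact t_val C n _ (A.maps' (C.j n) _ h)

lemma ins_right (y : E) : C.ins A.f (C.ins' m' A.f' y) = y := by
  by_cases hy : ∀ n, C.t n (m' y) < 0
  · rw [C.ins'_out m' A.f' y hy, C.ins_out _ _ hy, hm.right]
  · push Not at hy
    obtain ⟨n, hn⟩ := hy
    rw [C.ins_cell A.f n _ (ins'_mem C hm A n y hn), C.ins'_cell m' A.f' n y hn,
      add_sub_cancel_left, inv_smul_smul₀ (C.rpos n).ne', (A.bl _).right,
      smul_inv_smul₀ (C.rpos n).ne']
    abel

omit hm in
lemma scaled_lip {f : E → E} (hf : LipschitzWith L f) (a b : E) {r : ℝ} (hr : 0 < r) :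
    LipschitzWith L (fun x => a + r • f (r⁻¹ • (x - b))) := by
  refine LipschitzWith.of_dist_le_mul fun x y => ?_
  rw [dist_add_left, dist_smul₀, Real.norm_eq_abs, abs_of_pos hr]
  have h1 := hf.dist_le_mul (r⁻¹ • (x - b)) (r⁻¹ • (y - b))
  rw [dist_smul₀, dist_sub_right, Real.norm_eq_abs, abs_of_pos (inv_pos.mpr hr)] at h1
  calc r * dist (f (r⁻¹ • (x - b))) (f (r⁻¹ • (y - b))) ≤ r * (L * (r⁻¹ * dist x y)) := by
        gcongr
    _ = L * dist x y := by field_simp

lemma ins_BL : BL L (C.ins A.f) (C.ins' m' A.f') := by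
  refine ⟨ins_left C hm A, ins_right C hm A, ?_, ?_⟩
  · refine lipschitz_glue (m := m) hm.lip
      (φ := fun n x => m (C.c n) + C.r n • A.f (C.j n) ((C.r n)⁻¹ • (x - C.c n)))
      (fun n => scaled_lip (A.bl _).lip _ _ (C.rpos n)) (t := C.t) C.continuous_t
      (fun n n' x h h' => C.disj n n' x h h') (fun n x h => C.ins_cell A.f n x h)
      (fun x h => C.ins_out A.f x h) ?_
    intro n x h
    have h0 : tau (g (C.j n)) ((C.r n)⁻¹ • (x - C.c n)) = 0 := h
    rw [A.out _ _ h0.le, map_smul, smul_inv_smul₀ (C.rpos n).ne']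
    exact (C.aff n x h0.ge).symm
  · refine lipschitz_glue (m := m') hm.lip'
      (φ := fun n y => C.c n + C.r n • A.f' (C.j n) ((C.r n)⁻¹ • (y - m (C.c n))))
      (fun n => scaled_lip (A.bl _).lip' _ _ (C.rpos n)) (t := fun n y => C.t n (m' y))
      (fun n => (C.continuous_t n).comp hm.lip'.continuous)
      (fun n n' x h h' => C.disj n n' _ h h') (fun n y h => C.ins'_cell m' A.f' n y h)
      (fun y h => C.ins'_out m' A.f' y h) ?_
    intro n y h
    have h0 : tau (g (C.j n)) ((C.r n)⁻¹ • (m' y - C.c n)) = 0 := h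
    rw [target_val C hm n y h0.ge, A.out' _ _ h0.le, smul_inv_smul₀ (C.rpos n).ne']
    abel

end

end Pool.Agent.Helper842
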