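import Mathlib

open Set Filter Topology

namespace Pool.Agent.Helper842.Seg

abbrev E3 := EuclideanSpace ℝ (Fin 3)

/-- determinant of three vectors -/
def det3 (u v w : E3) : ℝ :=
  u 0 * (v 1 * w 2 - v 2 * w 1) - u 1 * (v 0 * w 2 - v 2 * w 0) + u 2 * (v 0 * w 1 - v 1 * w 0)

/-- six times the signed volume of a tetrahedron -/
def vol (p : Fin 4 → E3) : ℝ := det3 (p 1 - p 0) (p 2 - p 0) (p 3 - p 0)

/-- barycentric coordinates -/
noncomputable def bc (p : Fin 4 → E3) (i : Fin 4) (x : E3) : ℝ := vol (Function.update p i x) / vol p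

/-- the volume with one vertex replaced, in coordinates -/
theorem vol_upd0 (p : Fin 4 → E3) (x : E3) : vol (Function.update p 0 x) =
    det3 (p 1 - x) (p 2 - x) (p 3 - x) := by
  simp [vol]

theorem vol_upd1 (p : Fin 4 → E3) (x : E3) : vol (Function.update p 1 x) =
    det3 (x - p 0) (p 2 - p 0) (p 3 - p 0) := by
  simp [vol]

theorem vol_upd2 (p : Fin 4 → E3) (x : E3) : vol (Function.update p 2 x) =
    det3 (p 1 - p 0) (x - p 0) (p 3 - p 0) := by
  simp [vol]

theorem vol_upd3 (p : Fin 4 → E3) (x : E3) : vol (Function.update p 3 x) =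
    det3 (p 1 - p 0) (p 2 - p 0) (x - p 0) := by
  simp [vol]

theorem vol_upd (p : Fin 4 → E3) (i : Fin 4) (x : E3) : vol (Function.update p i x) =
    (if i = 0 then det3 (p 1 - x) (p 2 - x) (p 3 - x)
      else if i = 1 then det3 (x - p 0) (p 2 - p 0) (p 3 - p 0)
      else if i = 2 then det3 (p 1 - p 0) (x - p 0) (p 3 - p 0)
      else det3 (p 1 - p 0) (p 2 - p 0) (x - p 0)) := by
  fin_cases i
  · exact vol_upd0 p x
  · exact vol_upd1 p x
  · exact vol_upd2 p x
  · exact vol_upd3 p x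

theorem bc_cont (p : Fin 4 → E3) (i : Fin 4) : Continuous (bc p i) := by
  unfold bc
  apply Continuous.div_const
  simp only [vol_upd]
  split_ifs <;> simp only [det3, PiLp.sub_apply] <;> fun_prop

theorem bc_aff (p : Fin 4 → E3) (i : Fin 4) (x y : E3) (t : ℝ) :
    bc p i ((1 - t) • x + t • y) = (1 - t) * bc p i x + t * bc p i y := by
  unfold bc
  rw [← mul_div_assoc, ← mul_div_assoc, ← add_div]
  congr 1
  simp only [vol_upd]
  split_ifs <;>
    simp only [det3, PiLp.sub_apply, PiLp.add_apply, PiLp.smul_apply, smul_eq_mul] <;> ring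

theorem bc_sum (p : Fin 4 → E3) (hp : vol p ≠ 0) (x : E3) : ∑ i, bc p i x = 1 := by
  unfold bc
  rw [← Finset.sum_div, div_eq_one_iff_eq hp, Fin.sum_univ_four, vol_upd0, vol_upd1, vol_upd2,
    vol_upd3]
  simp only [vol, det3, PiLp.sub_apply]
  ring

theorem bc_comb (p : Fin 4 → E3) (hp : vol p ≠ 0) (x : E3) : ∑ i, bc p i x • p i = x := by
  have key : ∀ k : Fin 3, ∑ i, vol (Function.update p i x) * p i k = vol p * x k := by
    intro k
    rw [Fin.sum_univ_four, vol_upd0, vol_upd1, vol_upd2, vol_upd3]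
    simp only [vol, det3, PiLp.sub_apply]
    fin_cases k
    · simp only [Fin.zero_eta, Fin.isValue]
      ring
    · simp only [Fin.mk_one, Fin.isValue]
      ring
    · simp only [Fin.reduceFinMk, Fin.isValue]
      ring
  ext k
  have h := key k
  have h2 : (∑ i, bc p i x • p i) k = (∑ i, vol (Function.update p i x) * p i k) / vol p := by
    rw [Finset.sum_div]
    rw [Fin.sum_univ_four, Fin.sum_univ_four]
    simp only [PiLp.add_apply, PiLp.smul_apply, smul_eq_mul, bc]
    ring
  rw [h2, h, mul_div_cancel_left₀ _ hp]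

theorem bc_uniq (p : Fin 4 → E3) (hp : vol p ≠ 0) (c : Fin 4 → ℝ) (x : E3) (h1 : ∑ i, c i = 1)
    (h2 : ∑ i, c i • p i = x) (i : Fin 4) : bc p i x = c i := by
  subst h2
  rw [bc, div_eq_iff hp]
  rw [Fin.sum_univ_four] at h1
  have h0 : c 0 = 1 - c 1 - c 2 - c 3 := by linarith
  simp only [vol_upd]
  rw [Fin.sum_univ_four]
  fin_cases i
  · simp only [Fin.zero_eta, Fin.isValue, if_true, vol, det3, PiLp.sub_apply, PiLp.add_apply,
      PiLp.smul_apply, smul_eq_mul, h0]
    ring
  · simp only [Fin.mk_one, Fin.isValue, one_ne_zero, if_false, if_true, vol, det3, PiLp.sub_apply,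
      PiLp.add_apply, PiLp.smul_apply, smul_eq_mul, h0]
    ring
  · simp only [Fin.reduceFinMk, Fin.isValue, Fin.reduceEq, if_false, if_true, vol, det3,
      PiLp.sub_apply, PiLp.add_apply, PiLp.smul_apply, smul_eq_mul, h0]
    ring
  · simp only [Fin.reduceFinMk, Fin.isValue, Fin.reduceEq, if_false, if_true, vol, det3,
      PiLp.sub_apply, PiLp.add_apply, PiLp.smul_apply, smul_eq_mul, h0]
    ring

theorem bc_self (p : Fin 4 → E3) (hp : vol p ≠ 0) (i j : Fin 4) :
    bc p i (p j) = if i = j then 1 else 0 := by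
  apply bc_uniq p hp (fun i => if i = j then 1 else 0) (p j)
  · simp
  · simp

theorem vol_smul (s : ℝ) (p : Fin 4 → E3) : vol (fun i => s • p i) = s ^ 3 * vol p := by
  simp only [vol, det3, PiLp.sub_apply, PiLp.smul_apply, smul_eq_mul]
  ring

theorem bc_smul (s : ℝ) (hs : s ≠ 0) (p : Fin 4 → E3) (i : Fin 4) (x : E3) :
    bc (fun i => s • p i) i (s • x) = bc p i x := by
  unfold bc
  have h : Function.update (fun i => s • p i) i (s • x) =
      fun j => s • (Function.update p i x) j := by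
    funext j
    by_cases hj : j = i
    · subst hj
      simp
    · simp [Function.update_of_ne hj]
  rw [h, vol_smul, vol_smul, mul_div_mul_left _ _ (pow_ne_zero 3 hs)]

theorem bc_affcomb (p q : Fin 4 → E3) (hp : vol p ≠ 0) (c : Fin 4 → ℝ) (hc : ∑ k, c k = 1)
    (j : Fin 4) : bc p j (∑ k, c k • q k) = ∑ k, c k * bc p j (q k) := by
  apply bc_uniq p hp (fun j => ∑ k, c k * bc p j (q k))
  · rw [Finset.sum_comm]
    have : ∀ k, ∑ j, c k * bc p j (q k) = c k := by
      intro k
      rw [← Finset.mul_sum, bc_sum p hp, mul_one]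
    simp_rw [this]
    exact hc
  · have h1 : ∀ j, (∑ k, c k * bc p j (q k)) • p j = ∑ k, c k • (bc p j (q k) • p j) := by
      intro j
      rw [Finset.sum_smul]
      refine Finset.sum_congr rfl fun k _ => ?_
      rw [mul_smul]
    simp_rw [h1]
    rw [Finset.sum_comm]
    refine Finset.sum_congr rfl fun k _ => ?_
    rw [← Finset.smul_sum, bc_comb p hp]

/-- two tetrahedra sharing the facet opposite to `i`, with the new apex on the other side -/
theorem bc_partner (p p' : Fin 4 → E3) (hp : vol p ≠ 0) (hp' : vol p' ≠ 0) (i : Fin 4)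
    (σ : Equiv.Perm (Fin 4)) (hσ : ∀ j, j ≠ i → p' (σ j) = p j)
    (hneg : bc p i (p' (σ i)) < 0) :
    (∃ c : ℝ, 0 < c ∧ ∀ x, bc p' (σ i) x = - c * bc p i x) ∧
    (∀ j, j ≠ i → ∃ d : ℝ, ∀ x, bc p' (σ j) x = bc p j x + d * bc p i x) := by
  have key : ∀ (j : Fin 4) (x : E3), bc p j x =
      ∑ m, bc p' (σ m) x * bc p j (p' (σ m)) := by
    intro j x
    conv_lhs => rw [← bc_comb p' hp' x]
    rw [bc_affcomb p p' hp (fun k => bc p' k x) (bc_sum p' hp' x) j]
    exact (Equiv.sum_comp σ (fun k => bc p' k x * bc p j (p' k))).symm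
  set b := bc p i (p' (σ i)) with hb
  have hb0 : b ≠ 0 := hneg.ne
  have hi : ∀ x, bc p i x = bc p' (σ i) x * b := by
    intro x
    rw [key i x, Finset.sum_eq_single i]
    · intro m _ hm
      rw [hσ m hm, bc_self p hp, if_neg (Ne.symm hm), mul_zero]
    · intro h
      exact absurd (Finset.mem_univ _) h
  have hi' : ∀ x, bc p' (σ i) x = bc p i x / b := by
    intro x
    rw [hi x, mul_div_cancel_right₀ _ hb0]
  refine ⟨⟨-1 / b, div_pos_of_neg_of_neg (by norm_num) hneg, fun x => ?_⟩, fun j hj => ?_⟩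
  · rw [hi' x]
    ring
  · refine ⟨-bc p j (p' (σ i)) / b, fun x => ?_⟩
    have h1 : bc p j x = bc p' (σ j) x + bc p' (σ i) x * bc p j (p' (σ i)) := by
      rw [key j x, ← Finset.sum_subset (Finset.subset_univ {j, i}), Finset.sum_pair hj]
      · rw [hσ j hj, bc_self p hp, if_pos rfl, mul_one]
      · intro m _ hm
        rw [Finset.mem_insert, Finset.mem_singleton, not_or] at hm
        rw [hσ m hm.2, bc_self p hp, if_neg (Ne.symm hm.1), mul_zero]
    rw [hi' x] at h1
    rw [h1]
    ring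

end Pool.Agent.Helper842.Seg
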