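import Mathlib

open Set Filter Topology

namespace Pool.Agent.Helper842.Seg

/-- the segment leaves or enters the cell through the face `i` -/
def Cr {ι : Type*} (J : Finset ι) (a b : ι → ℝ) (i : ι) : Prop :=
  ∃ t ∈ Icc (0:ℝ) 1, (1 - t) * a i + t * b i = 0 ∧
    ∀ j ∈ J, j ≠ i → 0 < (1 - t) * a j + t * b j

open Classical in
theorem seg_aux {ι : Type*} [DecidableEq ι] (J : Finset ι) : ∀ (a b : ι → ℝ)
    (_ : ∀ i ∈ J, a i ≠ 0) (_ : ∀ i ∈ J, b i ≠ 0)
    (_ : ∀ i ∈ J, ∀ j ∈ J, i ≠ j → ∀ t ∈ Icc (0:ℝ) 1,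
      (1 - t) * a i + t * b i = 0 → (1 - t) * a j + t * b j ≠ 0),
    (if ∀ i ∈ J, 0 < a i then (1:ℤ) else 0)
      - (if ∀ i ∈ J, 0 < b i then (1:ℤ) else 0)
      = ∑ i ∈ J, if Cr J a b i then (if 0 < a i then (1:ℤ) else -1) else 0 := by
  induction J using Finset.induction_on with
  | empty => intro a b _ _ _; simp
  | insert k J hk ih =>
    intro a b ha hb hg
    have ha' : ∀ i ∈ J, a i ≠ 0 := fun i hi => ha i (Finset.mem_insert_of_mem hi)
    have hb' : ∀ i ∈ J, b i ≠ 0 := fun i hi => hb i (Finset.mem_insert_of_mem hi)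
    have hak := ha k (Finset.mem_insert_self _ _)
    have hbk := hb k (Finset.mem_insert_self _ _)
    have hg' : ∀ i ∈ J, ∀ j ∈ J, i ≠ j → ∀ t ∈ Icc (0:ℝ) 1,
        (1 - t) * a i + t * b i = 0 → (1 - t) * a j + t * b j ≠ 0 := fun i hi j hj =>
      hg i (Finset.mem_insert_of_mem hi) j (Finset.mem_insert_of_mem hj)
    have hki : ∀ i ∈ J, k ≠ i := by
      rintro i hi rfl
      exact hk hi
    rw [Finset.sum_insert hk]
    rcases lt_or_gt_of_ne hak with hak | hak <;> rcases lt_or_gt_of_ne hbk with hbk | hbk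
    · -- both negative
      have hneg : ∀ t ∈ Icc (0:ℝ) 1, (1 - t) * a k + t * b k < 0 := by
        rintro t ⟨h0, h1⟩
        rcases eq_or_lt_of_le h0 with rfl | h0
        · linarith
        · nlinarith [mul_nonneg (sub_nonneg.2 h1) (neg_nonneg.2 hak.le),
            mul_pos h0 (neg_pos.2 hbk)]
      rw [if_neg (fun h => by
          have := h k (Finset.mem_insert_self _ _)
          linarith),
        if_neg (fun h => by
          have := h k (Finset.mem_insert_self _ _)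
          linarith),
        if_neg (fun ⟨t, ht, h0, _⟩ => by
          have := hneg t ht
          linarith), Finset.sum_eq_zero]
      · simp
      · intro i hi
        rw [if_neg]
        rintro ⟨t, ht, _, h1⟩
        have h2 := h1 k (Finset.mem_insert_self _ _) (hki i hi)
        have := hneg t ht
        linarith
    · -- entering face
      set τ : ℝ := a k / (a k - b k) with hτ
      have hab : a k - b k < 0 := by linarith
      have hτk : (1 - τ) * a k + τ * b k = 0 := by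
        have h1 : τ * (a k - b k) = a k := by
          rw [hτ]
          exact div_mul_cancel₀ _ hab.ne
        linarith
      have hτ0 : 0 < τ := div_pos_of_neg_of_neg hak hab
      have hτ1 : τ < 1 := by
        rw [hτ, div_lt_one_of_neg hab]
        linarith
      have hτI : τ ∈ Icc (0:ℝ) 1 := ⟨hτ0.le, hτ1.le⟩
      have hLk : ∀ t : ℝ, (1 - t) * a k + t * b k = (t - τ) * (b k - a k) := by
        intro t
        linear_combination hτk
      set a' : ι → ℝ := fun j => (1 - τ) * a j + τ * b j with ha'def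
      have hpar : ∀ (s : ℝ) (j : ι), (1 - s) * a' j + s * b j =
          (1 - (τ + s * (1 - τ))) * a j + (τ + s * (1 - τ)) * b j := by
        intro s j
        simp only [ha'def]
        ring
      have hparI : ∀ s ∈ Icc (0:ℝ) 1, τ + s * (1 - τ) ∈ Icc (0:ℝ) 1 := by
        rintro s ⟨h0, h1⟩
        constructor
        · nlinarith
        · nlinarith
      have hkey := ih a' b (fun i hi => hg k (Finset.mem_insert_self _ _) i
        (Finset.mem_insert_of_mem hi) (hki i hi) τ hτI hτk) hb' (by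
          intro i hi j hj hij s hs h0
          rw [hpar] at h0 ⊢
          exact hg' i hi j hj hij _ (hparI s hs) h0)
      have hcr : ∀ i ∈ J, (Cr (insert k J) a b i ↔ Cr J a' b i) := by
        intro i hi
        constructor
        · rintro ⟨t, ht, h0, h1⟩
          have h2 := h1 k (Finset.mem_insert_self _ _) (hki i hi)
          rw [hLk] at h2
          have h3 : τ < t := by nlinarith
          have h4 : τ + (t - τ) / (1 - τ) * (1 - τ) = t := by
            rw [div_mul_cancel₀ _ (by linarith)]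
            ring
          refine ⟨(t - τ) / (1 - τ), ⟨div_nonneg (by linarith) (by linarith), ?_⟩, ?_, ?_⟩
          · rw [div_le_one (by linarith)]
            linarith [ht.2]
          · rw [hpar, h4]
            exact h0
          · intro j hj hji
            rw [hpar, h4]
            exact h1 j (Finset.mem_insert_of_mem hj) hji
        · rintro ⟨s, hs, h0, h1⟩
          refine ⟨τ + s * (1 - τ), hparI s hs, ?_, ?_⟩
          · rw [← hpar]
            exact h0
          · intro j hj hji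
            rcases Finset.mem_insert.1 hj with rfl | hj
            · rw [hLk]
              have hs0 : s ≠ 0 := by
                rintro rfl
                have h5 : a' i = 0 := by linarith
                exact hg j (Finset.mem_insert_self _ _) i
                  (Finset.mem_insert_of_mem hi) (hki i hi) τ hτI hτk h5
              have hs1 : 0 < s := lt_of_le_of_ne hs.1 (Ne.symm hs0)
              have : 0 < s * (1 - τ) := mul_pos hs1 (by linarith)
              apply mul_pos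
              · linarith
              · linarith
            · rw [← hpar]
              exact h1 j hj hji
      have hsgn : ∀ i ∈ J, Cr J a' b i → (0 < a i ↔ 0 < a' i) := by
        rintro i hi ⟨s, hs, h0, _⟩
        rw [hpar] at h0
        set t := τ + s * (1 - τ) with ht
        have htτ : τ ≤ t := by
          rw [ht]
          nlinarith [hs.1]
        have ht0 : 0 < t := by linarith
        have hane : a' i ≠ 0 := hg k (Finset.mem_insert_self _ _) i
                  (Finset.mem_insert_of_mem hi) (hki i hi) τ hτI hτk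
        have h1 : t * a' i = (t - τ) * a i := by
          simp only [ha'def]
          linear_combination τ * h0
        have h2 : τ < t := by
          rcases eq_or_lt_of_le htτ with h | h
          · exfalso
            rw [← h, sub_self, zero_mul] at h1
            rcases mul_eq_zero.1 h1 with h3 | h3
            · linarith
            · exact hane h3
          · exact h
        have h3 : 0 < t - τ := by linarith
        constructor
        · intro h
          have : 0 < t * a' i := by rw [h1]; exact mul_pos h3 h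
          exact (mul_pos_iff_of_pos_left ht0).1 this
        · intro h
          have : 0 < (t - τ) * a i := by rw [← h1]; exact mul_pos ht0 h
          exact (mul_pos_iff_of_pos_left h3).1 this
      have hsum : ∑ i ∈ J, (if Cr (insert k J) a b i then (if 0 < a i then (1:ℤ) else -1) else 0) =
          ∑ i ∈ J, (if Cr J a' b i then (if 0 < a' i then (1:ℤ) else -1) else 0) := by
        refine Finset.sum_congr rfl fun i hi => ?_
        by_cases h : Cr J a' b i
        · rw [if_pos h, if_pos ((hcr i hi).2 h)]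
          have h2 := hsgn i hi h
          by_cases h3 : 0 < a' i
          · rw [if_pos h3, if_pos (h2.2 h3)]
          · rw [if_neg h3, if_neg (fun h4 => h3 (h2.1 h4))]
        · rw [if_neg h, if_neg (fun h4 => h ((hcr i hi).1 h4))]
      rw [hsum, ← hkey]
      have hl1 : ¬ ∀ i ∈ insert k J, 0 < a i := by
        intro h
        have := h k (Finset.mem_insert_self _ _)
        linarith
      rw [if_neg hl1]
      have hl2 : (∀ i ∈ insert k J, 0 < b i) ↔ ∀ i ∈ J, 0 < b i := by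
        rw [Finset.forall_mem_insert]
        exact ⟨fun h => h.2, fun h => ⟨hbk, h⟩⟩
      have hl3 : Cr (insert k J) a b k ↔ ∀ i ∈ J, 0 < a' i := by
        constructor
        · rintro ⟨t, ht, h0, h1⟩ i hi
          rw [hLk] at h0
          have h2 : t = τ := by
            rcases mul_eq_zero.1 h0 with h3 | h3
            · linarith
            · linarith
          have h3 := h1 i (Finset.mem_insert_of_mem hi) (hki i hi).symm
          rw [h2] at h3
          exact h3
        · intro h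
          refine ⟨τ, hτI, hτk, ?_⟩
          intro j hj hjk
          exact h j (Finset.mem_of_mem_insert_of_ne hj hjk)
      have hl4 : ¬ 0 < a k := by linarith
      rw [if_neg hl4]
      by_cases h1 : ∀ i ∈ J, 0 < b i
      · by_cases h2 : ∀ i ∈ J, 0 < a' i
        · rw [if_pos (hl2.2 h1), if_pos h1, if_pos (hl3.2 h2), if_pos h2]
          norm_num
        · rw [if_pos (hl2.2 h1), if_pos h1, if_neg (fun h => h2 (hl3.1 h)), if_neg h2]
          norm_num
      · by_cases h2 : ∀ i ∈ J, 0 < a' i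
        · rw [if_neg (fun h => h1 (hl2.1 h)), if_neg h1, if_pos (hl3.2 h2), if_pos h2]
          norm_num
        · rw [if_neg (fun h => h1 (hl2.1 h)), if_neg h1, if_neg (fun h => h2 (hl3.1 h)), if_neg h2]
          norm_num
    · -- exiting face
      set τ : ℝ := a k / (a k - b k) with hτ
      have hab : 0 < a k - b k := by linarith
      have hτk : (1 - τ) * a k + τ * b k = 0 := by
        rw [hτ]
        field_simp
        ring
      have hτ0 : 0 < τ := div_pos hak hab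
      have hτ1 : τ < 1 := by
        rw [hτ, div_lt_one hab]
        linarith
      have hτI : τ ∈ Icc (0:ℝ) 1 := ⟨hτ0.le, hτ1.le⟩
      have hLk : ∀ t : ℝ, (1 - t) * a k + t * b k = (τ - t) * (a k - b k) := by
        intro t
        linear_combination hτk
      set b' : ι → ℝ := fun j => (1 - τ) * a j + τ * b j with hb'def
      have hpar : ∀ (s : ℝ) (j : ι), (1 - s) * a j + s * b' j =
          (1 - s * τ) * a j + (s * τ) * b j := by
        intro s j
        simp only [hb'def]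
        ring
      have hparI : ∀ s ∈ Icc (0:ℝ) 1, s * τ ∈ Icc (0:ℝ) 1 := by
        rintro s ⟨h0, h1⟩
        constructor
        · positivity
        · nlinarith
      have hkey := ih a b' ha' (fun i hi => hg k (Finset.mem_insert_self _ _) i
        (Finset.mem_insert_of_mem hi) (hki i hi) τ hτI hτk) (by
          intro i hi j hj hij s hs h0
          rw [hpar] at h0 ⊢
          exact hg' i hi j hj hij _ (hparI s hs) h0)
      have hcr : ∀ i ∈ J, (Cr (insert k J) a b i ↔ Cr J a b' i) := by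
        intro i hi
        constructor
        · rintro ⟨t, ht, h0, h1⟩
          have h2 := h1 k (Finset.mem_insert_self _ _) (hki i hi)
          rw [hLk] at h2
          have h3 : t < τ := by nlinarith
          have h4 : t / τ * τ = t := div_mul_cancel₀ _ hτ0.ne'
          refine ⟨t / τ, ⟨div_nonneg ht.1 hτ0.le, ?_⟩, ?_, ?_⟩
          · rw [div_le_one hτ0]
            exact h3.le
          · rw [hpar, h4]
            exact h0
          · intro j hj hji
            rw [hpar, h4]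
            exact h1 j (Finset.mem_insert_of_mem hj) hji
        · rintro ⟨s, hs, h0, h1⟩
          refine ⟨s * τ, hparI s hs, ?_, ?_⟩
          · rw [← hpar]
            exact h0
          · intro j hj hji
            rcases Finset.mem_insert.1 hj with rfl | hj
            · rw [hLk]
              have hs0 : s ≠ 1 := by
                rintro rfl
                have h5 : b' i = 0 := by linarith
                exact hg j (Finset.mem_insert_self _ _) i
                  (Finset.mem_insert_of_mem hi) (hki i hi) τ hτI hτk h5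
              have hs1 : s < 1 := lt_of_le_of_ne hs.2 hs0
              apply mul_pos
              · nlinarith
              · linarith
            · rw [← hpar]
              exact h1 j hj hji
      have hsum : ∑ i ∈ J, (if Cr (insert k J) a b i then (if 0 < a i then (1:ℤ) else -1) else 0) =
          ∑ i ∈ J, (if Cr J a b' i then (if 0 < a i then (1:ℤ) else -1) else 0) := by
        refine Finset.sum_congr rfl fun i hi => ?_
        by_cases h : Cr J a b' i
        · rw [if_pos h, if_pos ((hcr i hi).2 h)]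
        · rw [if_neg h, if_neg (fun h4 => h ((hcr i hi).1 h4))]
      rw [hsum, ← hkey]
      have hl1 : ¬ ∀ i ∈ insert k J, 0 < b i := by
        intro h
        have := h k (Finset.mem_insert_self _ _)
        linarith
      rw [if_neg hl1]
      have hl2 : (∀ i ∈ insert k J, 0 < a i) ↔ ∀ i ∈ J, 0 < a i := by
        rw [Finset.forall_mem_insert]
        exact ⟨fun h => h.2, fun h => ⟨hak, h⟩⟩
      have hl3 : Cr (insert k J) a b k ↔ ∀ i ∈ J, 0 < b' i := by
        constructor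
        · rintro ⟨t, ht, h0, h1⟩ i hi
          rw [hLk] at h0
          have h2 : t = τ := by
            rcases mul_eq_zero.1 h0 with h3 | h3
            · linarith
            · linarith
          have h3 := h1 i (Finset.mem_insert_of_mem hi) (hki i hi).symm
          rw [h2] at h3
          exact h3
        · intro h
          refine ⟨τ, hτI, hτk, ?_⟩
          intro j hj hjk
          exact h j (Finset.mem_of_mem_insert_of_ne hj hjk)
      rw [if_pos hak]
      by_cases h1 : ∀ i ∈ J, 0 < a i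
      · by_cases h2 : ∀ i ∈ J, 0 < b' i
        · rw [if_pos (hl2.2 h1), if_pos h1, if_pos (hl3.2 h2), if_pos h2]
          norm_num
        · rw [if_pos (hl2.2 h1), if_pos h1, if_neg (fun h => h2 (hl3.1 h)), if_neg h2]
          norm_num
      · by_cases h2 : ∀ i ∈ J, 0 < b' i
        · rw [if_neg (fun h => h1 (hl2.1 h)), if_neg h1, if_pos (hl3.2 h2), if_pos h2]
          norm_num
        · rw [if_neg (fun h => h1 (hl2.1 h)), if_neg h1, if_neg (fun h => h2 (hl3.1 h)), if_neg h2]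
          norm_num
    · -- both positive
      have hpos : ∀ t ∈ Icc (0:ℝ) 1, 0 < (1 - t) * a k + t * b k := by
        rintro t ⟨h0, h1⟩
        rcases eq_or_lt_of_le h0 with rfl | h0
        · linarith
        · nlinarith [mul_nonneg (sub_nonneg.2 h1) hak.le, mul_pos h0 hbk]
      have hl2 : (∀ i ∈ insert k J, 0 < a i) ↔ ∀ i ∈ J, 0 < a i := by
        rw [Finset.forall_mem_insert]
        exact ⟨fun h => h.2, fun h => ⟨hak, h⟩⟩
      have hl3 : (∀ i ∈ insert k J, 0 < b i) ↔ ∀ i ∈ J, 0 < b i := by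
        rw [Finset.forall_mem_insert]
        exact ⟨fun h => h.2, fun h => ⟨hbk, h⟩⟩
      have hcr : ∀ i ∈ J, (Cr (insert k J) a b i ↔ Cr J a b i) := by
        intro i hi
        constructor
        · rintro ⟨t, ht, h0, h1⟩
          exact ⟨t, ht, h0, fun j hj hji => h1 j (Finset.mem_insert_of_mem hj) hji⟩
        · rintro ⟨t, ht, h0, h1⟩
          refine ⟨t, ht, h0, fun j hj hji => ?_⟩
          rcases Finset.mem_insert.1 hj with rfl | hj
          · exact hpos t ht
          · exact h1 j hj hji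
      have hsum : ∑ i ∈ J, (if Cr (insert k J) a b i then (if 0 < a i then (1:ℤ) else -1) else 0) =
          ∑ i ∈ J, (if Cr J a b i then (if 0 < a i then (1:ℤ) else -1) else 0) := by
        refine Finset.sum_congr rfl fun i hi => ?_
        by_cases h : Cr J a b i
        · rw [if_pos h, if_pos ((hcr i hi).2 h)]
        · rw [if_neg h, if_neg (fun h4 => h ((hcr i hi).1 h4))]
      have hno : ¬ Cr (insert k J) a b k := by
        rintro ⟨t, ht, h0, _⟩
        have := hpos t ht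
        linarith
      rw [hsum, if_neg hno, ← ih a b ha' hb' hg', zero_add]
      by_cases h1 : ∀ i ∈ J, 0 < a i
      · by_cases h2 : ∀ i ∈ J, 0 < b i
        · rw [if_pos (hl2.2 h1), if_pos h1, if_pos (hl3.2 h2), if_pos h2]
        · rw [if_pos (hl2.2 h1), if_pos h1, if_neg (fun h => h2 (hl3.1 h)), if_neg h2]
      · by_cases h2 : ∀ i ∈ J, 0 < b i
        · rw [if_neg (fun h => h1 (hl2.1 h)), if_neg h1, if_pos (hl3.2 h2), if_pos h2]
        · rw [if_neg (fun h => h1 (hl2.1 h)), if_neg h1, if_neg (fun h => h2 (hl3.1 h)), if_neg h2]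

/-- One dimensional counting lemma. -/
theorem seg_count {ι : Type*} [DecidableEq ι] (J : Finset ι) (a b : ι → ℝ)
    (ha : ∀ i ∈ J, a i ≠ 0) (hb : ∀ i ∈ J, b i ≠ 0)
    (hg : ∀ i ∈ J, ∀ j ∈ J, i ≠ j → ∀ t ∈ Icc (0:ℝ) 1,
      (1 - t) * a i + t * b i = 0 → (1 - t) * a j + t * b j ≠ 0) :
    (open Classical in (if ∀ i ∈ J, 0 < a i then (1:ℤ) else 0)
      - (if ∀ i ∈ J, 0 < b i then (1:ℤ) else 0)
      = ∑ i ∈ J, if (∃ t ∈ Icc (0:ℝ) 1, (1 - t) * a i + t * b i = 0 ∧
            ∀ j ∈ J, j ≠ i → 0 < (1 - t) * a j + t * b j)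
          then (if 0 < a i then (1:ℤ) else -1) else 0) := by
  exact seg_aux J a b ha hb hg



/-- A labelled complex: `A` indexes the cells, `ι` the corners of a cell, `lab a i` is the label of
corner `i`, `β a i` is the coordinate (barycentric coordinate) of the cell `a` belonging to corner
`i`; `pa a i` is the cell across the facet opposite to corner `i`, and `τ a i` matches corners. -/
structure Cx (E Lb A ι : Type*) [NormedAddCommGroup E] [NormedSpace ℝ E] where
  lab : A → ι → Lb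
  β : A → ι → E → ℝ
  pa : A → ι → A
  τ : A → ι → Equiv.Perm ι
  cont : ∀ a i, Continuous (β a i)
  aff : ∀ a i x y (t : ℝ), β a i ((1 - t) • x + t • y) = (1 - t) * β a i x + t * β a i y
  pos : ∀ a, ∃ z, ∀ i, 0 < β a i z
  indep : ∀ a i j, i ≠ j → ∃ z, β a i z ≠ 0 ∧ β a j z = 0
  lab_inj : ∀ a, Function.Injective (lab a)
  lab_pa : ∀ a i j, j ≠ i → lab (pa a i) (τ a i j) = lab a j
  neg : ∀ a i, ∃ c : ℝ, 0 < c ∧ ∀ x, β (pa a i) (τ a i i) x = - c * β a i x
  oth : ∀ a i j, j ≠ i → ∃ d : ℝ, ∀ x, β (pa a i) (τ a i j) x = β a j x + d * β a i x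
  inv1 : ∀ a i, pa (pa a i) (τ a i i) = a
  inv2 : ∀ a i, τ (pa a i) (τ a i i) (τ a i i) = i

/-- A family of cells `S` of the complex, of which only the coordinates in `J a` are used
(all of them for simplices, all but one for the cones of a fan). -/
structure Sub {E Lb A ι : Type*} [NormedAddCommGroup E] [NormedSpace ℝ E]
    (C : Cx E Lb A ι) where
  S : Set A
  J : A → Finset ι
  clos : ∀ a ∈ S, ∀ i ∈ J a, C.pa a i ∈ S
  Jτ : ∀ a ∈ S, ∀ i ∈ J a, ∀ j, j ∈ J a ↔ C.τ a i j ∈ J (C.pa a i)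

/-- label function of a cell at a point -/
def bl {E Lb A ι : Type*} [NormedAddCommGroup E] [NormedSpace ℝ E] [DecidableEq Lb]
    (C : Cx E Lb A ι) (U : Sub C) (a : A) (x : E) (l : Lb) : ℝ :=
  ∑ i ∈ U.J a, if C.lab a i = l then C.β a i x else 0

section
variable {E Lb A ι : Type*} [NormedAddCommGroup E] [NormedSpace ℝ E] [DecidableEq ι]

/-- The number of cells containing the end points of a generic segment agree. -/
theorem count_eq [DecidableEq A] (C : Cx E Lb A ι) (U : Sub C)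
    (S : Finset A) (hS : ∀ a ∈ S, a ∈ U.S) (x y : E)
    (hx : ∀ a ∈ S, ∀ i ∈ U.J a, C.β a i x ≠ 0)
    (hy : ∀ a ∈ S, ∀ i ∈ U.J a, C.β a i y ≠ 0)
    (hg : ∀ a ∈ S, ∀ i ∈ U.J a, ∀ j ∈ U.J a, i ≠ j → ∀ t ∈ Icc (0:ℝ) 1,
      C.β a i ((1 - t) • x + t • y) = 0 → C.β a j ((1 - t) • x + t • y) ≠ 0)
    (hcl : ∀ a ∈ S, ∀ i ∈ U.J a, (∃ t ∈ Icc (0:ℝ) 1, C.β a i ((1 - t) • x + t • y) = 0 ∧
      ∀ j ∈ U.J a, j ≠ i → 0 < C.β a j ((1 - t) • x + t • y)) → C.pa a i ∈ S) :
    (open Classical in (S.filter (fun a => ∀ i ∈ U.J a, 0 < C.β a i x)).card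
      = (S.filter (fun a => ∀ i ∈ U.J a, 0 < C.β a i y)).card) := by
  classical
  set z : ℝ → E := fun t => (1 - t) • x + t • y with hz
  -- the crossing condition
  set cross : A → ι → Prop := fun a i => ∃ t ∈ Icc (0:ℝ) 1, C.β a i ((1 - t) • x + t • y) = 0 ∧
      ∀ j ∈ U.J a, j ≠ i → 0 < C.β a j ((1 - t) • x + t • y) with hcross
  set f : (Σ _ : A, ι) → ℤ := fun q => if 0 < C.β q.1 q.2 x then (1:ℤ) else -1 with hf
  have hcount : ∀ a ∈ S, (if ∀ i ∈ U.J a, 0 < C.β a i x then (1:ℤ) else 0)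
      - (if ∀ i ∈ U.J a, 0 < C.β a i y then (1:ℤ) else 0)
      = ∑ i ∈ U.J a, if cross a i then f ⟨a, i⟩ else 0 := by
    intro a ha
    have h := seg_count (U.J a) (fun i => C.β a i x) (fun i => C.β a i y) (hx a ha) (hy a ha)
      (by
        intro i hi j hj hij t ht h0
        have := hg a ha i hi j hj hij t ht
        rw [C.aff, C.aff] at this
        exact this h0)
    rw [h]
    apply Finset.sum_congr rfl
    intro i _
    have : (∃ t ∈ Icc (0:ℝ) 1, (1 - t) * C.β a i x + t * C.β a i y = 0 ∧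
            ∀ j ∈ U.J a, j ≠ i → 0 < (1 - t) * C.β a j x + t * C.β a j y) ↔ cross a i := by
      simp only [hcross, C.aff]
    by_cases hc : cross a i
    · rw [if_pos hc, if_pos (this.2 hc)]
    · rw [if_neg hc, if_neg (fun hh => hc (this.1 hh))]
  have hpart : ∀ a ∈ S, ∀ i ∈ U.J a, cross a i →
      (C.pa a i ∈ S ∧ C.τ a i i ∈ U.J (C.pa a i) ∧ cross (C.pa a i) (C.τ a i i)) := by
    intro a ha i hi hc
    refine ⟨hcl a ha i hi hc, (U.Jτ a (hS a ha) i hi i).1 hi, ?_⟩
    obtain ⟨t, ht, h0, hpos⟩ := hc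
    refine ⟨t, ht, ?_, ?_⟩
    · obtain ⟨c, _, hc⟩ := C.neg a i
      rw [hc, h0, mul_zero]
    · intro j' hj' hne
      obtain ⟨j, rfl⟩ := (C.τ a i).surjective j'
      have hj : j ∈ U.J a := (U.Jτ a (hS a ha) i hi j).2 hj'
      have hji : j ≠ i := by rintro rfl; exact hne rfl
      obtain ⟨d, hd⟩ := C.oth a i j hji
      rw [hd, h0, mul_zero, add_zero]
      exact hpos j hj hji
  have hsign : ∀ a ∈ S, ∀ i ∈ U.J a, f ⟨a, i⟩ + f ⟨C.pa a i, C.τ a i i⟩ = 0 := by
    intro a ha i hi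
    obtain ⟨c, hc0, hc⟩ := C.neg a i
    have h0 := hx a ha i hi
    simp only [hf]
    rw [hc]
    rcases lt_or_gt_of_ne h0 with h | h
    · have h1 : ¬ 0 < C.β a i x := not_lt.2 h.le
      have h2 : 0 < -c * C.β a i x := by nlinarith
      rw [if_neg h1, if_pos h2]; norm_num
    · have h2 : ¬ 0 < -c * C.β a i x := by
        push Not
        nlinarith
      rw [if_pos h, if_neg h2]; norm_num
  have hzero : ∑ a ∈ S, ∑ i ∈ U.J a, (if cross a i then f ⟨a, i⟩ else 0) = 0 := by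
    rw [Finset.sum_sigma']
    rw [← Finset.sum_filter (fun q : (Σ _ : A, ι) => cross q.1 q.2) (fun q : (Σ _ : A, ι) => f ⟨q.1, q.2⟩)]
    refine Finset.sum_involution (fun q _ => (⟨C.pa q.1 q.2, C.τ q.1 q.2 q.2⟩ : Σ _ : A, ι)) ?_ ?_ ?_ ?_
    · rintro ⟨a, i⟩ hq
      obtain ⟨hq1, hq2⟩ := Finset.mem_filter.1 hq
      obtain ⟨ha, hi⟩ := Finset.mem_sigma.1 hq1
      exact hsign a ha i hi
    · rintro ⟨a, i⟩ hq _ heq
      obtain ⟨hq1, hq2⟩ := Finset.mem_filter.1 hq
      obtain ⟨ha, hi⟩ := Finset.mem_sigma.1 hq1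
      have h1 := hsign a ha i hi
      have h2 : (⟨C.pa a i, C.τ a i i⟩ : Σ _ : A, ι) = ⟨a, i⟩ := heq
      rw [h2] at h1
      simp only [hf] at h1
      split_ifs at h1 <;> omega
    · rintro ⟨a, i⟩ hq
      obtain ⟨hq1, hq2⟩ := Finset.mem_filter.1 hq
      obtain ⟨ha, hi⟩ := Finset.mem_sigma.1 hq1
      obtain ⟨p1, p2, p3⟩ := hpart a ha i hi hq2
      exact Finset.mem_filter.2 ⟨Finset.mem_sigma.2 ⟨p1, p2⟩, p3⟩
    · rintro ⟨a, i⟩ hq
      show (⟨C.pa (C.pa a i) (C.τ a i i), C.τ (C.pa a i) (C.τ a i i) (C.τ a i i)⟩ : Σ _ : A, ι) = ⟨a, i⟩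
      rw [C.inv1, C.inv2]
  have htot : ∑ a ∈ S, ((if ∀ i ∈ U.J a, 0 < C.β a i x then (1:ℤ) else 0)
      - (if ∀ i ∈ U.J a, 0 < C.β a i y then (1:ℤ) else 0)) = 0 := by
    rw [Finset.sum_congr rfl hcount, hzero]
  rw [Finset.sum_sub_distrib] at htot
  have e1 : ((S.filter (fun a => ∀ i ∈ U.J a, 0 < C.β a i x)).card : ℤ) =
      ∑ a ∈ S, (if ∀ i ∈ U.J a, 0 < C.β a i x then (1:ℤ) else 0) := by
    rw [Finset.card_filter]; push_cast; rfl
  have e2 : ((S.filter (fun a => ∀ i ∈ U.J a, 0 < C.β a i y)).card : ℤ) =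
      ∑ a ∈ S, (if ∀ i ∈ U.J a, 0 < C.β a i y then (1:ℤ) else 0) := by
    rw [Finset.card_filter]; push_cast; rfl
  have e3 : ((S.filter (fun a => ∀ i ∈ U.J a, 0 < C.β a i x)).card : ℤ) =
      ((S.filter (fun a => ∀ i ∈ U.J a, 0 < C.β a i y)).card : ℤ) := by
    rw [e1, e2]; linarith
  exact_mod_cast e3

end




/-- piecewise Lipschitz maps on a finite closed convex cover -/
theorem lip_of_cover {E F κ : Type*} [NormedAddCommGroup E] [NormedSpace ℝ E]
    [PseudoMetricSpace F] (s : Set E) (hs : Convex ℝ s) (T : Finset κ) (D : κ → Set E)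
    (hD : ∀ k ∈ T, IsClosed (D k)) (hconv : ∀ k ∈ T, Convex ℝ (D k))
    (hcov : s ⊆ ⋃ k ∈ T, D k) (f : E → F) (K : NNReal)
    (hK : ∀ k ∈ T, LipschitzOnWith K f (D k ∩ s)) : LipschitzOnWith K f s := by
  apply LipschitzOnWith.of_dist_le_mul
  intro x hx y hy
  set γ : ℝ → E := fun t => AffineMap.lineMap x y t with hγ
  have hγc : Continuous γ := AffineMap.lineMap_continuous
  have hγs : ∀ t ∈ Icc (0 : ℝ) 1, γ t ∈ s := fun t ht => hs.lineMap_mem hx hy ht
  have hγd : ∀ a b : ℝ, dist (γ a) (γ b) = dist a b * dist x y := fun a b =>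
    dist_lineMap_lineMap x y a b
  set I : κ → Set ℝ := fun k => γ ⁻¹' (D k) ∩ Icc 0 1 with hI
  have hIcl : ∀ k ∈ T, IsClosed (I k) := fun k hk =>
    ((hD k hk).preimage hγc).inter isClosed_Icc
  have hIlip : ∀ k ∈ T, ∀ a ∈ I k, ∀ b ∈ I k, dist (f (γ a)) (f (γ b)) ≤ K * (dist a b * dist x y) := by
    intro k hk a ha b hb
    have := (hK k hk).dist_le_mul (γ a) ⟨ha.1, hγs a ha.2⟩ (γ b) ⟨hb.1, hγs b hb.2⟩
    rwa [hγd] at this
  have hIcov : ∀ t ∈ Icc (0 : ℝ) 1, ∃ k ∈ T, t ∈ I k := by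
    intro t ht
    have := hcov (hγs t ht)
    rw [mem_iUnion₂] at this
    obtain ⟨k, hk, h⟩ := this
    exact ⟨k, hk, h, ht⟩
  have hIcont : ∀ k ∈ T, ContinuousOn (fun t => f (γ t)) (I k) := by
    intro k hk
    have h1 : ContinuousOn f (D k ∩ s) := (hK k hk).continuousOn
    exact h1.comp hγc.continuousOn fun t ht => ⟨ht.1, hγs t ht.2⟩
  set A : Set ℝ := {t | dist (f (γ 0)) (f (γ t)) ≤ K * (t * dist x y)} with hA
  have hAcl : IsClosed (A ∩ Icc 0 1) := by
    have h1 : A ∩ Icc 0 1 = ⋃ k ∈ T, {t ∈ I k | dist (f (γ 0)) (f (γ t)) ≤ K * (t * dist x y)} := by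
      ext t
      rw [mem_iUnion₂]
      constructor
      · rintro ⟨ht, ht'⟩
        obtain ⟨k, hk, h⟩ := hIcov t ht'
        exact ⟨k, hk, h, ht⟩
      · rintro ⟨k, hk, h, h'⟩
        exact ⟨h', h.2⟩
    rw [h1]
    apply isClosed_biUnion_finset
    intro k hk
    apply IsClosed.isClosed_le (hIcl k hk)
    · exact continuous_dist.comp_continuousOn (continuousOn_const.prodMk (hIcont k hk))
    · fun_prop
  have hsub : Icc (0 : ℝ) 1 ⊆ A := by
    apply IsClosed.Icc_subset_of_forall_exists_gt hAcl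
    · show dist (f (γ 0)) (f (γ 0)) ≤ K * (0 * dist x y)
      simp
    · rintro t ⟨htA, ht⟩ u hu
      have ht01 : t ∈ Icc (0 : ℝ) 1 := ⟨ht.1, ht.2.le⟩
      have hev : ∀ᶠ t' in 𝓝 t, ∀ k ∈ T, t ∉ I k → t' ∉ I k := by
        rw [Filter.eventually_all_finset]
        intro k hk
        by_cases h : t ∈ I k
        · exact Filter.Eventually.of_forall fun t' h' => absurd h h'
        · filter_upwards [(hIcl k hk).isOpen_compl.mem_nhds h] with t' ht' _
          exact ht'
      have hu' : t < min u 1 := lt_min hu ht.2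
      have hev2 : ∀ᶠ t' in 𝓝[>] t, t' ∈ Ioc t (min u 1) := Ioc_mem_nhdsGT hu'
      obtain ⟨t', h1, h2⟩ := ((hev.filter_mono nhdsWithin_le_nhds).and hev2).exists
      have ht'01 : t' ∈ Icc (0 : ℝ) 1 := ⟨ht.1.trans h2.1.le, h2.2.trans (min_le_right _ _)⟩
      obtain ⟨k, hk, hkt'⟩ := hIcov t' ht'01
      have hkt : t ∈ I k := by
        by_contra h
        exact h1 k hk h hkt'
      refine ⟨t', ?_, h2.1, h2.2.trans (min_le_left _ _)⟩
      show dist (f (γ 0)) (f (γ t')) ≤ K * (t' * dist x y)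
      have h3 := dist_triangle (f (γ 0)) (f (γ t)) (f (γ t'))
      have h4 := hIlip k hk t hkt t' hkt'
      have h5 : dist (f (γ 0)) (f (γ t)) ≤ K * (t * dist x y) := htA
      have h6 : dist t t' = t' - t := by
        rw [Real.dist_eq, abs_sub_comm, abs_of_nonneg]
        linarith [h2.1]
      rw [h6] at h4
      calc dist (f (γ 0)) (f (γ t')) ≤ K * (t * dist x y) + K * ((t' - t) * dist x y) := by linarith
        _ = K * (t' * dist x y) := by ring
  have h := hsub (right_mem_Icc.2 zero_le_one)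
  have h' : dist (f (γ 0)) (f (γ 1)) ≤ K * (1 * dist x y) := h
  simpa [hγ] using h'



/-- continuous affine functions -/
def AffC {E : Type*} [NormedAddCommGroup E] [NormedSpace ℝ E] (φ : E → ℝ) : Prop :=
  Continuous φ ∧ ∀ (u v : E) (t : ℝ), φ ((1 - t) • u + t • v) = (1 - t) * φ u + t * φ v

theorem affC_dense {E : Type*} [NormedAddCommGroup E] [NormedSpace ℝ E] {φ : E → ℝ}
    (h : AffC φ) (hz : ∃ z, φ z ≠ 0) : Dense {x | φ x ≠ 0} := by
  intro y
  by_cases hy : φ y = 0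
  · obtain ⟨z, hz⟩ := hz
    have hcont : Continuous (fun e : ℝ => (1 - e) • y + e • z) := by fun_prop
    have ht : Tendsto (fun e : ℝ => (1 - e) • y + e • z) (𝓝[≠] 0) (𝓝 y) := by
      have h0 := hcont.tendsto 0
      have e0 : (1 - (0 : ℝ)) • y + (0 : ℝ) • z = y := by simp
      rw [e0] at h0
      exact h0.mono_left nhdsWithin_le_nhds
    refine mem_closure_of_tendsto ht ?_
    filter_upwards [self_mem_nhdsWithin] with e he
    rw [h.2, hy, mul_zero, zero_add]
    exact mul_ne_zero he hz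
  · exact subset_closure hy

theorem generic_pick {E : Type*} [NormedAddCommGroup E] [NormedSpace ℝ E] [CompleteSpace E]
    (F : Set (E → ℝ)) (hF : F.Countable)
    (h : ∀ φ ∈ F, AffC φ ∧ ∃ z, φ z ≠ 0) (V : Set E) (hV : IsOpen V) (hne : V.Nonempty) :
    ∃ y ∈ V, ∀ φ ∈ F, φ y ≠ 0 := by
  have hd : Dense (⋂ φ ∈ F, {x | φ x ≠ 0}) :=
    dense_biInter_of_isOpen (fun φ hφ => isOpen_ne_fun (h φ hφ).1.1 continuous_const) hF
      (fun φ hφ => affC_dense (h φ hφ).1 (h φ hφ).2)
  obtain ⟨y, hyV, hy⟩ := hd.inter_open_nonempty V hV hne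
  exact ⟨y, hyV, fun φ hφ => mem_iInter₂.1 hy φ hφ⟩

theorem affC_beta {E Lb A ι : Type*} [NormedAddCommGroup E] [NormedSpace ℝ E] [DecidableEq ι]
    (C : Cx E Lb A ι) (a : A) (i : ι) : AffC (C.β a i) := ⟨C.cont a i, C.aff a i⟩

theorem affC_psi {E Lb A ι : Type*} [NormedAddCommGroup E] [NormedSpace ℝ E] [DecidableEq ι]
    (C : Cx E Lb A ι) (a : A) (i j : ι) (x : E) :
    AffC (fun y => C.β a i x * C.β a j y - C.β a j x * C.β a i y) := by
  refine ⟨?_, ?_⟩
  · have := C.cont a i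
    have := C.cont a j
    fun_prop
  · intro u v t
    simp only [C.aff]
    ring

theorem psi_ne {E Lb A ι : Type*} [NormedAddCommGroup E] [NormedSpace ℝ E] [DecidableEq ι]
    (C : Cx E Lb A ι) (a : A) (i j : ι) (hij : i ≠ j) (x : E) (hx : C.β a i x ≠ 0) :
    ∃ z, C.β a i x * C.β a j z - C.β a j x * C.β a i z ≠ 0 := by
  obtain ⟨z, hz1, hz2⟩ := C.indep a j i (Ne.symm hij)
  refine ⟨z, ?_⟩
  rw [hz2, mul_zero, sub_zero]
  exact mul_ne_zero hx hz1

theorem hg_of_psi {E Lb A ι : Type*} [NormedAddCommGroup E] [NormedSpace ℝ E] [DecidableEq ι]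
    (C : Cx E Lb A ι) (a : A) (i j : ι) (x y : E)
    (hne : C.β a i x * C.β a j y - C.β a j x * C.β a i y ≠ 0) (t : ℝ)
    (h0 : C.β a i ((1 - t) • x + t • y) = 0) : C.β a j ((1 - t) • x + t • y) ≠ 0 := by
  intro h1
  apply hne
  rw [C.aff] at h0 h1
  have e1 : (1 - t) * (C.β a i x * C.β a j y - C.β a j x * C.β a i y) = 0 := by
    linear_combination C.β a j y * h0 - C.β a i y * h1
  have e2 : t * (C.β a i x * C.β a j y - C.β a j x * C.β a i y) = 0 := by
    linear_combination C.β a i x * h1 - C.β a j x * h0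
  linear_combination e1 + e2

theorem partner_closed {E Lb A ι : Type*} [NormedAddCommGroup E] [NormedSpace ℝ E]
    [DecidableEq ι] (C : Cx E Lb A ι) (U : Sub C) (a : A) (ha : a ∈ U.S) (i : ι)
    (hi : i ∈ U.J a) (x : E) (h0 : C.β a i x = 0)
    (hpos : ∀ j ∈ U.J a, j ≠ i → 0 ≤ C.β a j x) :
    ∀ k ∈ U.J (C.pa a i), 0 ≤ C.β (C.pa a i) k x := by
  intro k hk
  obtain ⟨j, rfl⟩ := (C.τ a i).surjective k
  have hj : j ∈ U.J a := (U.Jτ a ha i hi j).2 hk
  by_cases hji : j = i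
  · subst hji
    obtain ⟨c, -, hc⟩ := C.neg a j
    rw [hc, h0, mul_zero]
  · obtain ⟨d, hd⟩ := C.oth a i j hji
    rw [hd, h0, mul_zero, add_zero]
    exact hpos j hj hji

theorem partner_bl {E Lb A ι : Type*} [NormedAddCommGroup E] [NormedSpace ℝ E]
    [DecidableEq ι] [DecidableEq Lb] (C : Cx E Lb A ι) (U : Sub C) (a : A) (ha : a ∈ U.S)
    (i : ι) (hi : i ∈ U.J a) (x : E) (h0 : C.β a i x = 0) (l : Lb) :
    bl C U a x l = bl C U (C.pa a i) x l := by
  unfold bl
  refine Finset.sum_equiv (C.τ a i) (fun j => U.Jτ a ha i hi j) ?_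
  intro j hj
  by_cases hji : j = i
  · subst hji
    obtain ⟨c, -, hc⟩ := C.neg a j
    rw [hc, h0, mul_zero]
    simp
  · obtain ⟨d, hd⟩ := C.oth a i j hji
    rw [hd, h0, mul_zero, add_zero, C.lab_pa a i j hji]

section
variable {E Lb A ι : Type*} [NormedAddCommGroup E] [NormedSpace ℝ E] [DecidableEq ι]

/-- exactly one open cell at a generic point -/
theorem unique_at [Countable A] [Finite ι] [CompleteSpace E]
    (C : Cx E Lb A ι) (U : Sub C) (Ω : Set E) (hΩ : IsOpen Ω)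
    (hseg : ∀ x ∈ Ω, ∃ φ : E → ℝ, Continuous φ ∧
      (∀ u v (t : ℝ), φ ((1 - t) • u + t • v) = (1 - t) * φ u + t * φ v) ∧ (∃ z, φ z ≠ 0) ∧
      ∀ y ∈ Ω, φ y ≠ 0 → ∀ t ∈ Icc (0:ℝ) 1, (1 - t) • x + t • y ∈ Ω)
    (hlf : ∀ x ∈ Ω, ∃ W ∈ 𝓝 x, {a | a ∈ U.S ∧ ∃ z ∈ W, ∀ i ∈ U.J a, 0 ≤ C.β a i z}.Finite)
    (a0 : A) (ha0 : a0 ∈ U.S) (x0 : E) (hx0 : x0 ∈ Ω) (hin : ∀ i ∈ U.J a0, 0 < C.β a0 i x0)
    (hout : ∀ a ∈ U.S, a ≠ a0 → ∃ i ∈ U.J a, C.β a i x0 < 0)
    (y : E) (hy : y ∈ Ω) (hyG : ∀ a i, C.β a i y ≠ 0) :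
    ∃ a ∈ U.S, (∀ i ∈ U.J a, 0 < C.β a i y) ∧
      ∀ b ∈ U.S, (∀ i ∈ U.J b, 0 < C.β b i y) → b = a := by
  classical
  -- the countable family of coordinates
  have hFβ : (Set.range (fun p : A × ι => C.β p.1 p.2)).Countable := Set.countable_range _
  have hFβ' : ∀ φ ∈ Set.range (fun p : A × ι => C.β p.1 p.2), AffC φ ∧ ∃ z, φ z ≠ 0 := by
    rintro φ ⟨⟨a, i⟩, rfl⟩
    refine ⟨affC_beta C a i, ?_⟩
    obtain ⟨z, hz⟩ := C.pos a
    exact ⟨z, (hz i).ne'⟩
  -- (1) choose x1
  obtain ⟨x1, hx1Ω, hx1in, hx1out, hx1G⟩ : ∃ x1 ∈ Ω, (∀ i ∈ U.J a0, 0 < C.β a0 i x1) ∧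
      (∀ a ∈ U.S, a ≠ a0 → ∃ i ∈ U.J a, C.β a i x1 < 0) ∧ ∀ a i, C.β a i x1 ≠ 0 := by
    obtain ⟨W, hW, hfin⟩ := hlf x0 hx0
    obtain ⟨W', hW'W, hW'o, hW'x⟩ := mem_nhds_iff.1 hW
    set T := {a | a ∈ U.S ∧ ∃ z ∈ W, ∀ i ∈ U.J a, 0 ≤ C.β a i z} with hT
    set V1 : Set E := {x | ∀ i ∈ U.J a0, 0 < C.β a0 i x} with hV1
    have hV1o : IsOpen V1 := by
      have : V1 = ⋂ i ∈ U.J a0, {x | 0 < C.β a0 i x} := by
        ext x; simp [hV1]
      rw [this]
      exact isOpen_biInter_finset fun i _ => isOpen_lt continuous_const (C.cont a0 i)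
    set V2 : Set E := ⋂ a ∈ T \ {a0}, ⋃ i ∈ U.J a, {x | C.β a i x < 0} with hV2
    have hV2o : IsOpen V2 := by
      apply (hfin.subset sdiff_subset).isOpen_biInter
      intro a _
      exact isOpen_biUnion fun i _ => isOpen_lt (C.cont a i) continuous_const
    obtain ⟨x1, hx1, hx1G⟩ := generic_pick _ hFβ hFβ' (Ω ∩ W' ∩ V1 ∩ V2)
      (((hΩ.inter hW'o).inter hV1o).inter hV2o) ⟨x0, ⟨⟨hx0, hW'x⟩, hin⟩, by
        rw [hV2, mem_iInter₂]
        intro a ha
        obtain ⟨i, hi, hi0⟩ := hout a ha.1.1 ha.2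
        rw [mem_iUnion₂]
        exact ⟨i, hi, hi0⟩⟩
    refine ⟨x1, hx1.1.1.1, hx1.1.2, ?_, fun a i => hx1G _ ⟨(a, i), rfl⟩⟩
    intro a ha hne
    by_contra hcon
    push Not at hcon
    have haT : a ∈ T := ⟨ha, x1, hW'W hx1.1.1.2, hcon⟩
    have := mem_iInter₂.1 hx1.2 a ⟨haT, hne⟩
    rw [mem_iUnion₂] at this
    obtain ⟨i, hi, hi0⟩ := this
    exact absurd (hcon i hi) (not_le.2 hi0)
  obtain ⟨φ, hφc, hφa, hφz, hφs⟩ := hseg x1 hx1Ω
  -- (2) choose y2
  obtain ⟨y2, hy2Ω, hy2same, hy2G, hy2φ, hy2ψ⟩ : ∃ y2 ∈ Ω,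
      (∀ a ∈ U.S, (∀ i ∈ U.J a, 0 < C.β a i y) ↔ (∀ i ∈ U.J a, 0 < C.β a i y2)) ∧
      (∀ a i, C.β a i y2 ≠ 0) ∧ φ y2 ≠ 0 ∧
      (∀ a i j, i ≠ j → C.β a i x1 * C.β a j y2 - C.β a j x1 * C.β a i y2 ≠ 0) := by
    obtain ⟨W, hW, hfin⟩ := hlf y hy
    obtain ⟨W', hW'W, hW'o, hW'x⟩ := mem_nhds_iff.1 hW
    set T := {a | a ∈ U.S ∧ ∃ z ∈ W, ∀ i ∈ U.J a, 0 ≤ C.β a i z} with hT
    set V2 : Set E := ⋂ a ∈ T, ⋂ i ∈ U.J a, {x | 0 < C.β a i y * C.β a i x} with hV2
    have hV2o : IsOpen V2 := by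
      apply hfin.isOpen_biInter
      intro a _
      exact isOpen_biInter_finset fun i _ =>
        isOpen_lt continuous_const (continuous_const.mul (C.cont a i))
    have hyV2 : y ∈ V2 := by
      rw [hV2]
      simp only [mem_iInter]
      intro a _ i _
      exact mul_self_pos.2 (hyG a i)
    set F : Set (E → ℝ) := (Set.range (fun p : A × ι => C.β p.1 p.2)) ∪
      ({φ} ∪ {f | ∃ (a : A) (i j : ι), i ≠ j ∧
        f = fun y => C.β a i x1 * C.β a j y - C.β a j x1 * C.β a i y}) with hF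
    have hFc : F.Countable := by
      apply hFβ.union
      apply (countable_singleton _).union
      apply (Set.countable_range (fun p : A × ι × ι =>
        (fun y => C.β p.1 p.2.1 x1 * C.β p.1 p.2.2 y - C.β p.1 p.2.2 x1 * C.β p.1 p.2.1 y))).mono
      rintro f ⟨a, i, j, -, rfl⟩
      exact ⟨(a, i, j), rfl⟩
    obtain ⟨y2, hy2, hy2F⟩ := generic_pick F hFc (by
      intro f hf
      rcases hf with hf | hf | hf
      · exact hFβ' f hf
      · rw [mem_singleton_iff] at hf
        subst hf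
        exact ⟨⟨hφc, hφa⟩, hφz⟩
      · obtain ⟨a, i, j, hij, rfl⟩ := hf
        exact ⟨affC_psi C a i j x1, psi_ne C a i j hij x1 (hx1G a i)⟩) (Ω ∩ W' ∩ V2)
      ((hΩ.inter hW'o).inter hV2o) ⟨y, ⟨hy, hW'x⟩, hyV2⟩
    refine ⟨y2, hy2.1.1, ?_, fun a i => hy2F _ (Or.inl ⟨(a, i), rfl⟩),
      hy2F φ (Or.inr (Or.inl rfl)), fun a i j hij => hy2F _ (Or.inr (Or.inr ⟨a, i, j, hij, rfl⟩))⟩
    have hsign : ∀ a ∈ T, ∀ i ∈ U.J a, 0 < C.β a i y * C.β a i y2 := by
      intro a ha i hi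
      have := hy2.2
      rw [hV2] at this
      simp only [mem_iInter] at this
      exact this a ha i hi
    intro a ha
    constructor
    · intro h i hi
      have haT : a ∈ T := ⟨ha, y, hW'W hW'x, fun i hi => (h i hi).le⟩
      exact (pos_iff_pos_of_mul_pos (hsign a haT i hi)).1 (h i hi)
    · intro h i hi
      have haT : a ∈ T := ⟨ha, y2, hW'W hy2.1.2, fun i hi => (h i hi).le⟩
      exact (pos_iff_pos_of_mul_pos (hsign a haT i hi)).2 (h i hi)
  -- the finite set of cells meeting the segment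
  have hKΩ : ∀ t ∈ Icc (0:ℝ) 1, (1 - t) • x1 + t • y2 ∈ Ω := hφs y2 hy2Ω hy2φ
  have hfinS : {a | a ∈ U.S ∧ ∃ t ∈ Icc (0:ℝ) 1, ∀ i ∈ U.J a,
      0 ≤ C.β a i ((1 - t) • x1 + t • y2)}.Finite := by
    set K : Set E := (fun t : ℝ => (1 - t) • x1 + t • y2) '' Icc (0:ℝ) 1 with hK
    have hKc : IsCompact K := isCompact_Icc.image (by fun_prop)
    have hKsub : ∀ x ∈ K, x ∈ Ω := by
      rintro x ⟨t, ht, rfl⟩
      exact hKΩ t ht
    choose! W hW hWfin using hlf
    obtain ⟨tt, htt, hcov⟩ := hKc.elim_nhds_subcover W (fun x hx => hW x (hKsub x hx))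
    refine (tt.finite_toSet.biUnion (t := fun x =>
      {a | a ∈ U.S ∧ ∃ z ∈ W x, ∀ i ∈ U.J a, 0 ≤ C.β a i z})
      (fun x hx => hWfin x (hKsub x (htt x hx)))).subset ?_
    rintro a ⟨ha, t, ht, hpos⟩
    have hmem : (1 - t) • x1 + t • y2 ∈ K := ⟨t, ht, rfl⟩
    obtain ⟨x, hx, hxW⟩ := mem_iUnion₂.1 (hcov hmem)
    rw [mem_iUnion₂]
    exact ⟨x, hx, ha, _, hxW, hpos⟩
  set S : Finset A := hfinS.toFinset with hS
  have hmemS : ∀ a, a ∈ S ↔ a ∈ U.S ∧ ∃ t ∈ Icc (0:ℝ) 1, ∀ i ∈ U.J a,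
      0 ≤ C.β a i ((1 - t) • x1 + t • y2) := by
    intro a
    rw [hS, Set.Finite.mem_toFinset]
    rfl
  have hcount := count_eq C U S (fun a ha => ((hmemS a).1 ha).1) x1 y2
    (fun a _ i _ => hx1G a i) (fun a _ i _ => hy2G a i)
    (fun a _ i _ j _ hij t _ h0 => hg_of_psi C a i j x1 y2 (hy2ψ a i j hij) t h0)
    (by
      rintro a haS i hi ⟨t, ht, h0, hpos⟩
      have haU := ((hmemS a).1 haS).1
      rw [hmemS]
      exact ⟨U.clos a haU i hi, t, ht, partner_closed C U a haU i hi _ h0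
        (fun j hj hji => (hpos j hj hji).le)⟩)
  have e1 : (S.filter (fun a => ∀ i ∈ U.J a, 0 < C.β a i x1)) = {a0} := by
    ext a
    rw [Finset.mem_filter, Finset.mem_singleton]
    constructor
    · rintro ⟨haS, hpos⟩
      by_contra hne
      obtain ⟨i, hi, hi0⟩ := hx1out a ((hmemS a).1 haS).1 hne
      exact absurd (hpos i hi) (not_lt.2 hi0.le)
    · rintro rfl
      refine ⟨(hmemS _).2 ⟨ha0, 0, ⟨le_refl _, zero_le_one⟩, ?_⟩, hx1in⟩
      intro i hi
      have : (1 - (0:ℝ)) • x1 + (0:ℝ) • y2 = x1 := by simp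
      rw [this]
      exact (hx1in i hi).le
  have hcard : (S.filter (fun a => ∀ i ∈ U.J a, 0 < C.β a i y2)).card = 1 := by
    have h2 : (S.filter (fun a => ∀ i ∈ U.J a, 0 < C.β a i x1)).card = 1 := by
      rw [e1, Finset.card_singleton]
    rw [← h2]
    convert hcount.symm using 2
  obtain ⟨a, ha⟩ := Finset.card_eq_one.1 hcard
  have hain : a ∈ S.filter (fun a => ∀ i ∈ U.J a, 0 < C.β a i y2) := by
    rw [ha]
    exact Finset.mem_singleton_self a
  rw [Finset.mem_filter] at hain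
  have haU := ((hmemS a).1 hain.1).1
  refine ⟨a, haU, (hy2same a haU).2 hain.2, ?_⟩
  intro b hb hbpos
  have hb2 := (hy2same b hb).1 hbpos
  have hbS : b ∈ S := by
    rw [hmemS]
    refine ⟨hb, 1, ⟨zero_le_one, le_refl _⟩, ?_⟩
    intro i hi
    have : (1 - (1:ℝ)) • x1 + (1:ℝ) • y2 = y2 := by simp
    rw [this]
    exact (hb2 i hi).le
  have : b ∈ S.filter (fun a => ∀ i ∈ U.J a, 0 < C.β a i y2) :=
    Finset.mem_filter.2 ⟨hbS, hb2⟩
  rw [ha] at this
  exact Finset.mem_singleton.1 this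

theorem cover_unique [DecidableEq Lb] [Countable A] [Finite ι] [CompleteSpace E]
    (C : Cx E Lb A ι) (U : Sub C) (Ω : Set E) (hΩ : IsOpen Ω)
    (hseg : ∀ x ∈ Ω, ∃ φ : E → ℝ, Continuous φ ∧
      (∀ u v (t : ℝ), φ ((1 - t) • u + t • v) = (1 - t) * φ u + t * φ v) ∧ (∃ z, φ z ≠ 0) ∧
      ∀ y ∈ Ω, φ y ≠ 0 → ∀ t ∈ Icc (0:ℝ) 1, (1 - t) • x + t • y ∈ Ω)
    (hlf : ∀ x ∈ Ω, ∃ W ∈ 𝓝 x, {a | a ∈ U.S ∧ ∃ z ∈ W, ∀ i ∈ U.J a, 0 ≤ C.β a i z}.Finite)
    (a0 : A) (ha0 : a0 ∈ U.S) (x0 : E) (hx0 : x0 ∈ Ω) (hin : ∀ i ∈ U.J a0, 0 < C.β a0 i x0)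
    (hout : ∀ a ∈ U.S, a ≠ a0 → ∃ i ∈ U.J a, C.β a i x0 < 0) :
    (∀ x ∈ Ω, ∃ a ∈ U.S, ∀ i ∈ U.J a, 0 ≤ C.β a i x) ∧
    (∀ x ∈ Ω, ∀ a ∈ U.S, ∀ a' ∈ U.S, (∀ i ∈ U.J a, 0 ≤ C.β a i x) →
      (∀ i ∈ U.J a', 0 ≤ C.β a' i x) → ∀ l, bl C U a x l = bl C U a' x l) := by
  classical
  have hFβ : (Set.range (fun p : A × ι => C.β p.1 p.2)).Countable := Set.countable_range _
  have hFβ' : ∀ φ ∈ Set.range (fun p : A × ι => C.β p.1 p.2), AffC φ ∧ ∃ z, φ z ≠ 0 := by
    rintro φ ⟨⟨a, i⟩, rfl⟩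
    refine ⟨affC_beta C a i, ?_⟩
    obtain ⟨z, hz⟩ := C.pos a
    exact ⟨z, (hz i).ne'⟩
  have huniq := unique_at C U Ω hΩ hseg hlf a0 ha0 x0 hx0 hin hout
  constructor
  · intro x hx
    by_contra hcon
    push Not at hcon
    obtain ⟨W, hW, hfin⟩ := hlf x hx
    obtain ⟨W', hW'W, hW'o, hW'x⟩ := mem_nhds_iff.1 hW
    set T := {a | a ∈ U.S ∧ ∃ z ∈ W, ∀ i ∈ U.J a, 0 ≤ C.β a i z} with hT
    set V2 : Set E := ⋂ a ∈ T, ⋃ i ∈ U.J a, {x | C.β a i x < 0} with hV2
    have hV2o : IsOpen V2 := by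
      apply hfin.isOpen_biInter
      intro a _
      exact isOpen_biUnion fun i _ => isOpen_lt (C.cont a i) continuous_const
    obtain ⟨y, hy, hyG⟩ := generic_pick _ hFβ hFβ' (Ω ∩ W' ∩ V2)
      ((hΩ.inter hW'o).inter hV2o) ⟨x, ⟨hx, hW'x⟩, by
        rw [hV2, mem_iInter₂]
        intro a ha
        obtain ⟨i, hi, hi0⟩ := hcon a ha.1
        rw [mem_iUnion₂]
        exact ⟨i, hi, hi0⟩⟩
    obtain ⟨a, haU, hapos, -⟩ := huniq y hy.1.1 (fun a i => hyG _ ⟨(a, i), rfl⟩)
    have haT : a ∈ T := ⟨haU, y, hW'W hy.1.2, fun i hi => (hapos i hi).le⟩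
    have := mem_iInter₂.1 hy.2 a haT
    rw [mem_iUnion₂] at this
    obtain ⟨i, hi, hi0⟩ := this
    exact absurd (hapos i hi) (not_lt.2 (le_of_lt hi0))
  · intro x hx a ha a' ha' hxa hxa'
    obtain ⟨W, hW, hfin⟩ := hlf x hx
    obtain ⟨W', hW'W, hW'o, hW'x⟩ := mem_nhds_iff.1 hW
    set T := {a | a ∈ U.S ∧ ∃ z ∈ W, ∀ i ∈ U.J a, 0 ≤ C.β a i z} with hT
    have hTmem : ∀ b ∈ U.S, (∀ i ∈ U.J b, 0 ≤ C.β b i x) → b ∈ T :=
      fun b hb hbx => ⟨hb, x, hW'W hW'x, hbx⟩
    -- a ball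
    set V2 : Set E := ⋂ b ∈ T, ⋂ i ∈ U.J b, {z | C.β b i x ≠ 0 → C.β b i z ≠ 0} with hV2
    have hV2o : IsOpen V2 := by
      apply hfin.isOpen_biInter
      intro b _
      apply isOpen_biInter_finset
      intro i _
      by_cases h0 : C.β b i x = 0
      · have : {z | C.β b i x ≠ 0 → C.β b i z ≠ 0} = univ := by
          ext z; simp [h0]
        rw [this]
        exact isOpen_univ
      · have : {z | C.β b i x ≠ 0 → C.β b i z ≠ 0} = {z | C.β b i z ≠ 0} := by
          ext z; simp [h0]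
        rw [this]
        exact isOpen_ne_fun (C.cont b i) continuous_const
    have hxV2 : x ∈ V2 := by
      rw [hV2]
      simp only [mem_iInter]
      intro b _ i _ h
      exact h
    obtain ⟨r, hr, hball⟩ := Metric.isOpen_iff.1 ((hΩ.inter hW'o).inter hV2o) x
      ⟨⟨hx, hW'x⟩, hxV2⟩
    have hcell : ∀ b, (∀ i ∈ U.J b, 0 ≤ C.β b i x) →
        IsOpen (Metric.ball x r ∩ {z | ∀ i ∈ U.J b, 0 < C.β b i z}) ∧
        (Metric.ball x r ∩ {z | ∀ i ∈ U.J b, 0 < C.β b i z}).Nonempty := by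
      intro b hbx
      constructor
      · apply Metric.isOpen_ball.inter
        have : {z | ∀ i ∈ U.J b, 0 < C.β b i z} = ⋂ i ∈ U.J b, {z | 0 < C.β b i z} := by
          ext z; simp
        rw [this]
        exact isOpen_biInter_finset fun i _ => isOpen_lt continuous_const (C.cont b i)
      · obtain ⟨z, hz⟩ := C.pos b
        have hcont : Continuous (fun e : ℝ => (1 - e) • x + e • z) := by fun_prop
        have hopen : IsOpen ((fun e : ℝ => (1 - e) • x + e • z) ⁻¹' Metric.ball x r) :=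
          Metric.isOpen_ball.preimage hcont
        have h0 : (0 : ℝ) ∈ (fun e : ℝ => (1 - e) • x + e • z) ⁻¹' Metric.ball x r := by
          simp [hr]
        obtain ⟨s, hs, hsb⟩ := Metric.isOpen_iff.1 hopen 0 h0
        set e : ℝ := min (s / 2) 1 with he
        have he0 : 0 < e := lt_min (by linarith) zero_lt_one
        have he1 : e ≤ 1 := min_le_right _ _
        have hes : e ∈ Metric.ball (0 : ℝ) s := by
          rw [Metric.mem_ball, Real.dist_eq, sub_zero, abs_of_pos he0]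
          have := min_le_left (s / 2) 1
          linarith
        refine ⟨(1 - e) • x + e • z, hsb hes, ?_⟩
        intro i hi
        rw [C.aff]
        have h1 : 0 ≤ (1 - e) * C.β b i x := mul_nonneg (by linarith) (hbx i hi)
        have h2 : 0 < e * C.β b i z := mul_pos he0 (hz i)
        linarith
    obtain ⟨y1, hy1, hy1F⟩ := generic_pick _ hFβ hFβ' _ (hcell a hxa).1 (hcell a hxa).2
    have hy1G : ∀ b i, C.β b i y1 ≠ 0 := fun b i => hy1F _ ⟨(b, i), rfl⟩
    set F : Set (E → ℝ) := (Set.range (fun p : A × ι => C.β p.1 p.2)) ∪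
      {f | ∃ (a : A) (i j : ι), i ≠ j ∧
        f = fun y => C.β a i y1 * C.β a j y - C.β a j y1 * C.β a i y} with hF
    have hFc : F.Countable := by
      apply hFβ.union
      apply (Set.countable_range (fun p : A × ι × ι =>
        (fun y => C.β p.1 p.2.1 y1 * C.β p.1 p.2.2 y - C.β p.1 p.2.2 y1 * C.β p.1 p.2.1 y))).mono
      rintro f ⟨a, i, j, -, rfl⟩
      exact ⟨(a, i, j), rfl⟩
    obtain ⟨y2, hy2, hy2F⟩ := generic_pick F hFc (by
      intro f hf
      rcases hf with hf | hf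
      · exact hFβ' f hf
      · obtain ⟨b, i, j, hij, rfl⟩ := hf
        exact ⟨affC_psi C b i j y1, psi_ne C b i j hij y1 (hy1G b i)⟩) _ (hcell a' hxa').1
      (hcell a' hxa').2
    have hy2G : ∀ b i, C.β b i y2 ≠ 0 := fun b i => hy2F _ (Or.inl ⟨(b, i), rfl⟩)
    have hy2ψ : ∀ b i j, i ≠ j → C.β b i y1 * C.β b j y2 - C.β b j y1 * C.β b i y2 ≠ 0 :=
      fun b i j hij => hy2F _ (Or.inr ⟨b, i, j, hij, rfl⟩)
    -- the segment lies in the ball
    have hsegball : ∀ t ∈ Icc (0:ℝ) 1, (1 - t) • y1 + t • y2 ∈ Metric.ball x r := by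
      intro t ht
      exact (convex_ball x r) hy1.1 hy2.1 (by linarith [ht.2]) ht.1 (by ring)
    have hfinAA : {b | b ∈ T ∧ (∀ i ∈ U.J b, 0 ≤ C.β b i x) ∧ bl C U b x = bl C U a x}.Finite :=
      hfin.subset fun b hb => hb.1
    set AA : Finset A := hfinAA.toFinset with hAA
    have hmemAA : ∀ b, b ∈ AA ↔ b ∈ T ∧ (∀ i ∈ U.J b, 0 ≤ C.β b i x) ∧
        bl C U b x = bl C U a x := by
      intro b
      rw [hAA, Set.Finite.mem_toFinset]
      rfl
    have hcount := count_eq C U AA (fun b hb => ((hmemAA b).1 hb).1.1) y1 y2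
      (fun b _ i _ => hy1G b i) (fun b _ i _ => hy2G b i)
      (fun b _ i _ j _ hij t _ h0 => hg_of_psi C b i j y1 y2 (hy2ψ b i j hij) t h0)
      (by
        rintro b hbAA i hi ⟨t, ht, h0, hpos⟩
        obtain ⟨hbT, hbx, hbl⟩ := (hmemAA b).1 hbAA
        have hpV2 := (hball (hsegball t ht)).2
        rw [hV2] at hpV2
        simp only [mem_iInter] at hpV2
        have hbi : C.β b i x = 0 := by
          by_contra hne
          exact hpV2 b hbT i hi hne h0
        have hcl := partner_closed C U b hbT.1 i hi x hbi (fun j hj _ => hbx j hj)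
        rw [hmemAA]
        refine ⟨hTmem _ (U.clos b hbT.1 i hi) hcl, hcl, ?_⟩
        rw [← hbl]
        funext l
        exact (partner_bl C U b hbT.1 i hi x hbi l).symm)
    have haAA : a ∈ AA := (hmemAA a).2 ⟨hTmem a ha hxa, hxa, rfl⟩
    have hpos1 : 0 < (AA.filter (fun b => ∀ i ∈ U.J b, 0 < C.β b i y1)).card :=
      Finset.card_pos.2 ⟨a, Finset.mem_filter.2 ⟨haAA, hy1.2⟩⟩
    have hpos2 : 0 < (AA.filter (fun b => ∀ i ∈ U.J b, 0 < C.β b i y2)).card := by
      have h3 : (AA.filter (fun b => ∀ i ∈ U.J b, 0 < C.β b i y1)).card =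
          (AA.filter (fun b => ∀ i ∈ U.J b, 0 < C.β b i y2)).card := by
        convert hcount using 2
      rw [← h3]
      exact hpos1
    obtain ⟨b, hb⟩ := Finset.card_pos.1 hpos2
    rw [Finset.mem_filter] at hb
    obtain ⟨hbT, hbx, hbl⟩ := (hmemAA b).1 hb.1
    obtain ⟨c, -, -, hc⟩ := huniq y2 (hball hy2.1).1.1 hy2G
    have hbc := hc b hbT.1 hb.2
    have hac := hc a' ha' hy2.2
    intro l
    have hba : b = a' := hbc.trans hac.symm
    rw [hba] at hbl
    rw [hbl]
end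


end Pool.Agent.Helper842.Seg
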