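import Pool.Agent.Helper842.SegChk

namespace Pool.Agent.Helper842.Seg

set_option maxRecDepth 100000 in
theorem c2P : allB 842 (chk2 tabP) = true := by decide +kernel

set_option maxRecDepth 100000 in
theorem c2Q : allB 842 (chk2 tabQ) = true := by decide +kernel

set_option maxRecDepth 100000 in
theorem c3 : allB 842 chk3 = true := by decide +kernel

set_option maxRecDepth 100000 in
theorem c4 : allB 842 chk4 = true := by decide +kernel

set_option maxRecDepth 100000 in
theorem c5 : allB 842 chk5 = true := by decide +kernel

set_option maxRecDepth 100000 in
theorem c6 : allB 140 chk6 = true := by decide +kernel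

end Pool.Agent.Helper842.Seg
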