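import Pool.Agent.Helper842.SegTab

namespace Pool.Agent.Helper842.Seg

abbrev Z3 := ℤ × ℤ × ℤ

def allB (n : ℕ) (f : ℕ → Bool) : Bool := Nat.rec true (fun k ih => f k && ih) n

theorem allB_spec (n : ℕ) (f : ℕ → Bool) (h : allB n f = true) : ∀ k < n, f k = true := by
  induction n with
  | zero => intro k hk; omega
  | succ n ih =>
    have h' : (f n && allB n f) = true := h
    rw [Bool.and_eq_true] at h'
    intro k hk
    rcases Nat.lt_succ_iff_lt_or_eq.1 hk with h1 | h1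
    · exact ih h'.2 k h1
    · rw [h1]; exact h'.1

def ent (t i : ℕ) : ℕ := (tab >>> (32 * (4 * t + i))) % 4294967296
def rv (t i : ℕ) : ℕ := ent t i % 256
def rq (t i : ℕ) : ℕ := (ent t i >>> 8) % 4
def rpt (t i : ℕ) : ℕ := (ent t i >>> 10) % 1024
def rps (t i : ℕ) : ℕ := (ent t i >>> 20) % 4
def rcode (t i : ℕ) : ℕ := (ent t i >>> 22) % 256
def rf (t i j : ℕ) : ℕ := (rcode t i >>> (2 * j)) % 4

def gv (T v : ℕ) : Z3 :=
  ((((T >>> (36 * v)) % 4096 : ℕ) : ℤ) - 2048,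
   (((T >>> (36 * v + 12)) % 4096 : ℕ) : ℤ) - 2048,
   (((T >>> (36 * v + 24)) % 4096 : ℕ) : ℤ) - 2048)

def gw (v : ℕ) : Z3 :=
  ((((tabW >>> (21 * v)) % 128 : ℕ) : ℤ) - 64,
   (((tabW >>> (21 * v + 7)) % 128 : ℕ) : ℤ) - 64,
   (((tabW >>> (21 * v + 14)) % 128 : ℕ) : ℤ) - 64)

def rd (v : ℕ) : ℕ := (tabD >>> (12 * v)) % 4096

/-- scaling by a power of 4 -/
def sc (k : ℕ) (a : Z3) : Z3 := ((4:ℤ) ^ k * a.1, (4:ℤ) ^ k * a.2.1, (4:ℤ) ^ k * a.2.2)

def d3 (u v w : Z3) : ℤ :=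
  u.1 * (v.2.1 * w.2.2 - v.2.2 * w.2.1) - u.2.1 * (v.1 * w.2.2 - v.2.2 * w.1)
    + u.2.2 * (v.1 * w.2.1 - v.2.1 * w.1)

def sb (a b : Z3) : Z3 := (a.1 - b.1, a.2.1 - b.2.1, a.2.2 - b.2.2)

def v4 (a b c d : Z3) : ℤ := d3 (sb b a) (sb c a) (sb d a)

/-- volume with corner `i` replaced by `x` -/
def vu (a b c d : Z3) (i : ℕ) (x : Z3) : ℤ :=
  if i = 0 then v4 x b c d else if i = 1 then v4 a x c d else if i = 2 then v4 a b x d
  else v4 a b c x

/-- corner `i` of cell `t`, scaled by `4 ^ k` -/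
def co (T t i k : ℕ) : Z3 := sc (rq t i + k) (gv T (rv t i))

def vol0 (T t k : ℕ) : ℤ := v4 (co T t 0 k) (co T t 1 k) (co T t 2 k) (co T t 3 k)

def volu (T t k i : ℕ) (x : Z3) : ℤ := vu (co T t 0 k) (co T t 1 k) (co T t 2 k) (co T t 3 k) i x

/-- combinatorial checks at the facet `i` of `t` -/
def chkA (t i : ℕ) : Bool :=
  let t' := rpt t i
  let i' := rf t i i
  decide (t' < 842) && decide (rpt t' i' = t) && decide (rps t' i' + rps t i = 2) &&
  decide (rf t' i' i' = i) &&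
  allB 4 (fun j => decide (j = i) || (decide (rv t' (rf t i j) = rv t j) &&
    decide (rq t' (rf t i j) + rps t i = rq t j + 1))) &&
  allB 4 (fun j => allB 4 (fun k => decide (j = k) || !decide (rf t i j = rf t i k))) &&
  allB 4 (fun j => decide (j = i) || !decide (rv t i = rv t j))

def chk1 (t : ℕ) : Bool := allB 4 (fun i => chkA t i)

/-- volumes -/
def chk2 (T t : ℕ) : Bool := decide (0 < vol0 T t 0) &&
  allB 4 (fun i => decide (volu T t 1 i (sc (rq (rpt t i) (rf t i i) + rps t i)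
    (gv T (rv (rpt t i) (rf t i i)))) < 0))

def dot (a b : Z3) : ℤ := a.1 * b.1 + a.2.1 * b.2.1 + a.2.2 * b.2.2

def chk3 (t : ℕ) : Bool := allB 4 (fun i => decide (0 < dot (gw t) (co tabP t i 0)))

def x0 : Z3 := (-62, 126, 117)

/-- the global test -/
def chk4 (t : ℕ) : Bool :=
  let A := fun i => volu tabP t 0 i (0, 0, 0)
  let G := fun i => volu tabP t 0 i x0
  !(allB 4 (fun i => !(decide (A i < 0) && decide (63 * A i + G i < 0)))) &&
  !(allB 4 (fun i => !(decide (G i - A i ≤ 0) && decide (4 * G i - 3 * A i < 0)))) &&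
  !(allB 4 (fun i => !(decide (15 * A i + G i < 0)))) &&
  !(allB 4 (fun i => !(decide (3 * A i + G i < 0)))) &&
  (if t = 137 then allB 4 (fun i => decide (0 < G i)) else !(allB 4 (fun i => !(decide (G i < 0)))))

/-- the fan test -/
def chk5 (t : ℕ) : Bool :=
  allB 4 (fun i => decide (131 ≤ rv t i) ||
    (let v := rv t i
     let z := sc (rq t i) (gv tabZ v)
     decide (rd v < 3368) && decide (rv (rd v / 4) (rd v % 4) = v) &&
     (if rd v = 4 * t + i then allB 4 (fun j => decide (j = i) || decide (0 < volu tabQ t 0 j z))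
      else !(allB 4 (fun j => !(!decide (j = i) && decide (volu tabQ t 0 j z < 0)))))))

/-- the vertices on the ray -/
def chk6 (v : ℕ) : Bool := decide (v < 131) ||
  (decide ((gv tabP v).1 = 0) && decide ((gv tabP v).2.1 = 0) && decide (0 < (gv tabP v).2.2))

set_option maxRecDepth 100000 in
theorem c1 : allB 842 chk1 = true := by decide +kernel

end Pool.Agent.Helper842.Seg
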