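import Pool.Agent.Helper842.SegBary

open Set Filter Topology MeasureTheory

namespace Pool.Agent.Helper842.SegM
open Pool.Agent.Helper842.Seg (E3)



/-- closed half line -/
def ray (e : E3) : Set E3 := {x | ∃ s : ℝ, 0 ≤ s ∧ x = s • e}

/-- inversion in the unit sphere followed by a translation -/
noncomputable def phi (e y : E3) : E3 := (‖y‖ ^ 2)⁻¹ • y - e

/-- inversion -/
noncomputable def inv (y : E3) : E3 := (‖y‖ ^ 2)⁻¹ • y

theorem norm_inv' {y : E3} (hy : y ≠ 0) : ‖inv y‖ = ‖y‖⁻¹ := by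
  have h : 0 < ‖y‖ := norm_pos_iff.2 hy
  unfold inv
  rw [norm_smul, norm_inv, norm_pow, norm_norm]
  field_simp

theorem inv_ne_zero' {y : E3} (hy : y ≠ 0) : inv y ≠ 0 := by
  rw [← norm_pos_iff, norm_inv' hy]
  exact inv_pos.2 (norm_pos_iff.2 hy)

theorem inv_inv'' {y : E3} (hy : y ≠ 0) : inv (inv y) = y := by
  have h : 0 < ‖y‖ := norm_pos_iff.2 hy
  have h1 : inv (inv y) = (‖inv y‖ ^ 2)⁻¹ • inv y := rfl
  rw [h1, norm_inv' hy]
  unfold inv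
  rw [smul_smul]
  have : ((‖y‖⁻¹ ^ 2)⁻¹ * (‖y‖ ^ 2)⁻¹ : ℝ) = 1 := by field_simp
  rw [this, one_smul]

theorem continuousAt_inv {y : E3} (hy : y ≠ 0) : ContinuousAt inv y := by
  unfold inv
  have h : ‖y‖ ^ 2 ≠ 0 := pow_ne_zero _ (norm_ne_zero_iff.2 hy)
  exact ((continuous_norm.pow 2).continuousAt.inv₀ h).smul continuousAt_id

theorem inv_smul' {e : E3} (he : ‖e‖ = 1) {s : ℝ} (hs : s ≠ 0) : inv (s • e) = s⁻¹ • e := by
  unfold inv
  rw [norm_smul, he, mul_one, smul_smul, Real.norm_eq_abs, sq_abs]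
  congr 1
  field_simp

theorem norm_inv_sub {y z : E3} (hy : y ≠ 0) (hz : z ≠ 0) :
    ‖inv y - inv z‖ * (‖y‖ * ‖z‖) = ‖y - z‖ := by
  have h1 : 0 < ‖y‖ := norm_pos_iff.2 hy
  have h2 : 0 < ‖z‖ := norm_pos_iff.2 hz
  have h3 : (‖inv y - inv z‖ * (‖y‖ * ‖z‖)) ^ 2 = ‖y - z‖ ^ 2 := by
    rw [mul_pow, norm_sub_sq_real, norm_sub_sq_real, norm_inv' hy, norm_inv' hz]
    have h4 : inner ℝ (inv y) (inv z) = (‖y‖ ^ 2)⁻¹ * ((‖z‖ ^ 2)⁻¹ * inner ℝ y z) := by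
      unfold inv
      rw [real_inner_smul_left, real_inner_smul_right]
    rw [h4]
    field_simp
    ring
  exact (pow_left_inj₀ (by positivity) (norm_nonneg _) (by norm_num)).1 h3

theorem phi_eq (e y : E3) : phi e y = inv y - e := rfl

/-- inverse of `phi` -/
noncomputable def psi (e x : E3) : E3 := inv (x + e)

theorem psi_phi {e y : E3} (hy : y ≠ 0) : psi e (phi e y) = y := by
  unfold psi
  rw [phi_eq, sub_add_cancel, inv_inv'' hy]

theorem phi_psi {e x : E3} (hx : x + e ≠ 0) : phi e (psi e x) = x := by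
  unfold psi
  rw [phi_eq, inv_inv'' hx, add_sub_cancel_right]

theorem phi_add_ne {e y : E3} (hy : y ≠ 0) : phi e y + e ≠ 0 := by
  rw [phi_eq, sub_add_cancel]; exact inv_ne_zero' hy

theorem psi_ne {e x : E3} (hx : x + e ≠ 0) : psi e x ≠ 0 := inv_ne_zero' hx

theorem continuousAt_phi {e y : E3} (hy : y ≠ 0) : ContinuousAt (phi e) y := by
  have : phi e = fun y => inv y - e := rfl
  rw [this]
  exact (continuousAt_inv hy).sub continuousAt_const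

theorem continuousAt_psi {e x : E3} (hx : x + e ≠ 0) : ContinuousAt (psi e) x := by
  have : psi e = fun x => inv (x + e) := rfl
  rw [this]
  exact ContinuousAt.comp (f := fun x : E3 => x + e) (g := inv) (continuousAt_inv hx)
    (continuousAt_id.add continuousAt_const)

noncomputable def Phi (e : E3) : OpenPartialHomeomorph E3 E3 where
  toFun := phi e
  invFun := psi e
  source := {y | y ≠ 0}
  target := {x | x + e ≠ 0}
  map_source' := fun _ hy => phi_add_ne hy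
  map_target' := fun _ hx => psi_ne hx
  left_inv' := fun _ hy => psi_phi hy
  right_inv' := fun _ hx => phi_psi hx
  open_source := isOpen_ne
  open_target := isOpen_ne.preimage (continuous_id.add continuous_const)
  continuousOn_toFun := fun _ hy => (continuousAt_phi hy).continuousWithinAt
  continuousOn_invFun := fun _ hx => (continuousAt_psi hx).continuousWithinAt

theorem mem_seg {e x : E3} : x ∈ segment ℝ 0 e ↔ ∃ t : ℝ, 0 ≤ t ∧ t ≤ 1 ∧ x = t • e := by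
  constructor
  · rintro ⟨a, b, ha, hb, hab, rfl⟩
    exact ⟨b, hb, by linarith, by simp⟩
  · rintro ⟨t, h0, h1, rfl⟩
    exact ⟨1 - t, t, by linarith, h0, by ring, by simp⟩

theorem ne_zero_of_seg {e x : E3} (hx : x ∉ segment ℝ 0 e) : x ≠ 0 := by
  rintro rfl
  exact hx (left_mem_segment ℝ 0 e)

theorem phi_ray {e x : E3} (he : ‖e‖ = 1) (hx : x ∉ segment ℝ 0 e) : phi e x ∉ ray e := by
  rintro ⟨s, hs, h⟩
  apply hx
  rw [mem_seg]
  have hx0 := ne_zero_of_seg hx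
  have h1 : inv x = (s + 1) • e := by
    rw [phi_eq, sub_eq_iff_eq_add] at h
    rw [h, add_smul, one_smul]
  have h2 : x = (s + 1)⁻¹ • e := by
    rw [← inv_inv'' hx0, h1, inv_smul' he (by linarith)]
  exact ⟨(s + 1)⁻¹, inv_nonneg.2 (by linarith), inv_le_one_of_one_le₀ (by linarith), h2⟩

theorem phi_seg {e : E3} (he : ‖e‖ = 1) {t : ℝ} (ht0 : 0 < t) (ht1 : t ≤ 1) :
    phi e (t • e) ∈ ray e := by
  refine ⟨t⁻¹ - 1, ?_, ?_⟩
  · have := (one_le_inv₀ ht0).2 ht1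
    linarith
  · rw [phi_eq, inv_smul' he ht0.ne', sub_smul, one_smul]

theorem transfer (e : E3) (he : ‖e‖ = 1) (f : E3 → E3) (K : ℝ) (hK : 0 < K)
    (h1 : IsLocalHomeomorphOn f (ray e)ᶜ)
    (h2 : ∀ x, x ∉ ray e → ∃ W ∈ 𝓝 x, ∀ y ∈ W, ∀ z ∈ W,
      dist y z ≤ K * dist (f y) (f z) ∧ dist (f y) (f z) ≤ K * dist y z)
    (h3 : ∀ x ∈ ray e, ∀ V ∈ 𝓝 x, ∃ y ∈ V, ∃ z ∈ V, y ∉ ray e ∧ z ∉ ray e ∧ y ≠ z ∧ f y = f z) :
    IsLocalHomeomorphOn (fun y => f (phi e y)) (segment ℝ 0 e)ᶜ ∧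
    (∀ x, x ∉ segment ℝ 0 e → ∃ W ∈ 𝓝 x, ∃ m : ℝ, 0 < m ∧ ∀ y ∈ W, ∀ z ∈ W,
      m * dist y z ≤ dist (f (phi e y)) (f (phi e z)) ∧
      dist (f (phi e y)) (f (phi e z)) ≤ 4 * K ^ 2 * m * dist y z) ∧
    (∀ p ∈ segment ℝ 0 e, ∀ V ∈ 𝓝 p, ∃ y ∈ V, ∃ z ∈ V, y ∉ segment ℝ 0 e ∧
      z ∉ segment ℝ 0 e ∧ y ≠ z ∧ f (phi e y) = f (phi e z)) := by
  have he0 : e ≠ 0 := by
    rw [← norm_pos_iff, he]; exact one_pos
  refine ⟨?_, ?_, ?_⟩
  · have hphi : IsLocalHomeomorphOn (phi e) (segment ℝ 0 e)ᶜ := by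
      intro x hx
      exact ⟨Phi e, ne_zero_of_seg hx, rfl⟩
    exact h1.comp hphi (fun x hx => phi_ray he hx)
  · intro x hx
    have hx0 := ne_zero_of_seg hx
    have hxn : 0 < ‖x‖ := norm_pos_iff.2 hx0
    obtain ⟨W₁, hW₁, hW⟩ := h2 _ (phi_ray he hx)
    have hW0 : {y : E3 | ‖x‖ ^ 2 / 2 < ‖y‖ ^ 2 ∧ ‖y‖ ^ 2 < 2 * ‖x‖ ^ 2} ∈ 𝓝 x := by
      have hc : Continuous fun y : E3 => ‖y‖ ^ 2 := continuous_norm.pow 2
      apply IsOpen.mem_nhds
      · exact (isOpen_lt continuous_const hc).inter (isOpen_lt hc continuous_const)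
      · have : 0 < ‖x‖ ^ 2 := by positivity
        exact ⟨by linarith, by linarith⟩
    refine ⟨phi e ⁻¹' W₁ ∩ {y : E3 | ‖x‖ ^ 2 / 2 < ‖y‖ ^ 2 ∧ ‖y‖ ^ 2 < 2 * ‖x‖ ^ 2},
      inter_mem (continuousAt_phi hx0 hW₁) hW0, 1 / (2 * K * ‖x‖ ^ 2), by positivity, ?_⟩
    rintro y ⟨hy1, hy2, hy3⟩ z ⟨hz1, hz2, hz3⟩
    have hxx : 0 < ‖x‖ ^ 2 := by positivity
    have hyn : 0 < ‖y‖ ^ 2 := by linarith
    have hzn : 0 < ‖z‖ ^ 2 := by linarith
    have hy0 : y ≠ 0 := by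
      rintro rfl; simp at hyn
    have hz0 : z ≠ 0 := by
      rintro rfl; simp at hzn
    have hlow : ‖x‖ ^ 2 / 2 ≤ ‖y‖ * ‖z‖ := by
      apply le_of_sq_le_sq _ (by positivity)
      have h5 : ‖x‖ ^ 2 / 2 * (‖x‖ ^ 2 / 2) ≤ ‖y‖ ^ 2 * ‖z‖ ^ 2 :=
        mul_le_mul hy2.le hz2.le (by positivity) (by positivity)
      calc (‖x‖ ^ 2 / 2) ^ 2 = ‖x‖ ^ 2 / 2 * (‖x‖ ^ 2 / 2) := by ring
        _ ≤ _ := h5
        _ = _ := by ring
    have hup : ‖y‖ * ‖z‖ ≤ 2 * ‖x‖ ^ 2 := by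
      apply le_of_sq_le_sq _ (by positivity)
      have h5 : ‖y‖ ^ 2 * ‖z‖ ^ 2 ≤ (2 * ‖x‖ ^ 2) * (2 * ‖x‖ ^ 2) :=
        mul_le_mul hy3.le hz3.le (by positivity) (by positivity)
      calc (‖y‖ * ‖z‖) ^ 2 = ‖y‖ ^ 2 * ‖z‖ ^ 2 := by ring
        _ ≤ _ := h5
        _ = _ := by ring
    have hd : dist (phi e y) (phi e z) * (‖y‖ * ‖z‖) = dist y z := by
      rw [dist_eq_norm, dist_eq_norm, phi_eq, phi_eq, sub_sub_sub_cancel_right,
        norm_inv_sub hy0 hz0]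
    obtain ⟨hf1, hf2⟩ := hW _ hy1 _ hz1
    set D := dist (phi e y) (phi e z) with hD
    set F := dist (f (phi e y)) (f (phi e z)) with hF
    have hD0 : 0 ≤ D := dist_nonneg
    constructor
    · rw [← hd, div_mul_eq_mul_div, one_mul, div_le_iff₀ (by positivity)]
      have h6 : D * (‖y‖ * ‖z‖) ≤ D * (2 * ‖x‖ ^ 2) := mul_le_mul_of_nonneg_left hup hD0
      have h7 : D * (2 * ‖x‖ ^ 2) ≤ K * F * (2 * ‖x‖ ^ 2) :=
        mul_le_mul_of_nonneg_right hf1 (by positivity)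
      linarith
    · have h6 : D * (‖x‖ ^ 2 / 2) ≤ D * (‖y‖ * ‖z‖) := mul_le_mul_of_nonneg_left hlow hD0
      rw [hd] at h6
      have h7 : 4 * K ^ 2 * (1 / (2 * K * ‖x‖ ^ 2)) * dist y z =
          K * (dist y z / (‖x‖ ^ 2 / 2)) := by
        field_simp
        ring
      rw [h7]
      refine hf2.trans (mul_le_mul_of_nonneg_left ?_ hK.le)
      rw [le_div_iff₀ (by positivity)]
      exact h6
  · intro p hp V hV
    obtain ⟨t₀, ht0, ht1, rfl⟩ := mem_seg.1 hp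
    obtain ⟨V', hV'V, hV'o, hpV'⟩ := mem_nhds_iff.1 hV
    have hc : Continuous fun t : ℝ => t • e := continuous_id.smul continuous_const
    obtain ⟨s, hs0, hs1, hsV⟩ : ∃ s : ℝ, 0 < s ∧ s ≤ 1 ∧ s • e ∈ V' := by
      rcases ht0.lt_or_eq with h | h
      · exact ⟨t₀, h, ht1, hpV'⟩
      · subst h
        have hO : (fun t : ℝ => t • e) ⁻¹' V' ∈ 𝓝 (0 : ℝ) := (hV'o.preimage hc).mem_nhds hpV'
        obtain ⟨δ, hδ, hball⟩ := Metric.mem_nhds_iff.1 hO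
        refine ⟨min (δ / 2) 1, lt_min (by linarith) one_pos, min_le_right _ _, ?_⟩
        apply hball
        rw [Metric.mem_ball, Real.dist_eq, sub_zero, abs_of_pos (lt_min (by linarith) one_pos)]
        exact (min_le_left _ _).trans_lt (by linarith)
    have hp0 : s • e ≠ 0 := smul_ne_zero hs0.ne' he0
    have hray := phi_seg he hs0 hs1
    have hne := phi_add_ne (e := e) hp0
    have hN : psi e ⁻¹' V' ∩ {x | x + e ≠ 0} ∈ 𝓝 (phi e (s • e)) := by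
      apply inter_mem
      · apply continuousAt_psi hne
        rw [psi_phi hp0]
        exact hV'o.mem_nhds hsV
      · exact (isOpen_ne.preimage (continuous_id.add continuous_const)).mem_nhds hne
    obtain ⟨y', ⟨hy1, hy2⟩, z', ⟨hz1, hz2⟩, hyr, hzr, hyz, hfyz⟩ := h3 _ hray _ hN
    have hout : ∀ x, x + e ≠ 0 → x ∉ ray e → psi e x ∉ segment ℝ 0 e := by
      intro x hx hxr hseg
      obtain ⟨t, h0, h1, h⟩ := mem_seg.1 hseg
      have ht : 0 < t := by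
        rcases h0.lt_or_eq with h' | h'
        · exact h'
        · exfalso
          rw [← h', zero_smul] at h
          exact psi_ne hx h
      apply hxr
      rw [← phi_psi hx, h]
      exact phi_seg he ht h1
    refine ⟨psi e y', hV'V hy1, psi e z', hV'V hz1, hout _ hy2 hyr, hout _ hz2 hzr, ?_, ?_⟩
    · intro h
      apply hyz
      rw [← phi_psi hy2, ← phi_psi hz2, h]
    · rw [phi_psi hy2, phi_psi hz2, hfyz]





theorem ae_distortion_deriv (g : E3 → E3) (W : Set E3) (Q m : ℝ) (y : E3) (hW : W ∈ 𝓝 y)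
    (h : ∀ z ∈ W, m * dist z y ≤ dist (g z) (g y) ∧ dist (g z) (g y) ≤ Q * m * dist z y)
    (hd : DifferentiableAt ℝ g y) (v : E3) :
    m * ‖v‖ ≤ ‖fderiv ℝ g y v‖ ∧ ‖fderiv ℝ g y v‖ ≤ Q * m * ‖v‖ := by
  have hc : Tendsto (fun n : ℕ => ‖(n : ℝ)‖) atTop atTop := by
    simpa using (tendsto_natCast_atTop_atTop (R := ℝ))
  have hlim := hd.hasFDerivAt.lim v hc
  have hlim2 := hlim.norm
  have hto : Tendsto (fun n : ℕ => y + ((n : ℝ))⁻¹ • v) atTop (𝓝 y) := by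
    have h1 : Tendsto (fun n : ℕ => ((n : ℝ))⁻¹ • v) atTop (𝓝 ((0 : ℝ) • v)) :=
      (tendsto_inv_atTop_nhds_zero_nat (𝕜 := ℝ)).smul_const v
    rw [zero_smul] at h1
    have h2 := h1.const_add y
    rwa [add_zero] at h2
  have hev : ∀ᶠ n : ℕ in atTop, y + ((n : ℝ))⁻¹ • v ∈ W := hto hW
  have hkey : ∀ᶠ n : ℕ in atTop,
      m * ‖v‖ ≤ ‖(n : ℝ) • (g (y + ((n : ℝ))⁻¹ • v) - g y)‖ ∧
      ‖(n : ℝ) • (g (y + ((n : ℝ))⁻¹ • v) - g y)‖ ≤ Q * m * ‖v‖ := by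
    filter_upwards [hev, eventually_gt_atTop 0] with n hn hn0
    have hn0' : (0 : ℝ) < n := Nat.cast_pos.2 hn0
    obtain ⟨h1, h2⟩ := h _ hn
    have h3 : dist (y + ((n : ℝ))⁻¹ • v) y = (n : ℝ)⁻¹ * ‖v‖ := by
      rw [dist_eq_norm, add_sub_cancel_left, norm_smul, Real.norm_of_nonneg (by positivity)]
    rw [h3] at h1 h2
    rw [norm_smul, Real.norm_of_nonneg hn0'.le, ← dist_eq_norm]
    constructor
    · calc m * ‖v‖ = (n : ℝ) * (m * ((n : ℝ)⁻¹ * ‖v‖)) := by field_simp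
        _ ≤ _ := mul_le_mul_of_nonneg_left h1 hn0'.le
    · calc (n : ℝ) * dist (g (y + ((n : ℝ))⁻¹ • v)) (g y)
          ≤ (n : ℝ) * (Q * m * ((n : ℝ)⁻¹ * ‖v‖)) := mul_le_mul_of_nonneg_left h2 hn0'.le
        _ = Q * m * ‖v‖ := by field_simp
  exact ⟨ge_of_tendsto hlim2 (hkey.mono fun n hn => hn.1),
    le_of_tendsto hlim2 (hkey.mono fun n hn => hn.2)⟩

theorem ae_distortion (g : E3 → E3) (Ω : Set E3) (hΩ : IsOpen Ω) (Q : ℝ)
    (h : ∀ x ∈ Ω, ∃ W ∈ 𝓝 x, ∃ m : ℝ, 0 < m ∧ ∀ y ∈ W, ∀ z ∈ W,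
      m * dist y z ≤ dist (g y) (g z) ∧ dist (g y) (g z) ≤ Q * m * dist y z) :
    LocallyLipschitzOn Ω g ∧
    ∀ᵐ x ∂(volume.restrict Ω), DifferentiableAt ℝ g x ∧
      ∃ m : ℝ, 0 < m ∧ ∀ v, m * ‖v‖ ≤ ‖fderiv ℝ g x v‖ ∧ ‖fderiv ℝ g x v‖ ≤ Q * m * ‖v‖ := by
  have hLip : ∀ (W : Set E3) (m : ℝ), (∀ y ∈ W, ∀ z ∈ W,
      m * dist y z ≤ dist (g y) (g z) ∧ dist (g y) (g z) ≤ Q * m * dist y z) →
      LipschitzOnWith (Real.toNNReal (Q * m)) g W := by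
    intro W m hW
    apply LipschitzOnWith.of_dist_le_mul
    intro y hy z hz
    refine (hW y hy z hz).2.trans ?_
    exact mul_le_mul_of_nonneg_right (Real.le_coe_toNNReal _) dist_nonneg
  constructor
  · intro x hx
    obtain ⟨W, hW, m, hm, hWm⟩ := h x hx
    exact ⟨Real.toNNReal (Q * m), W, mem_nhdsWithin_of_mem_nhds hW, hLip W m hWm⟩
  · rw [ae_restrict_iff' hΩ.measurableSet, ae_iff]
    apply measure_null_of_locally_null
    intro x hx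
    have hxΩ : x ∈ Ω := by
      by_contra hcon
      exact hx (fun h' => absurd h' hcon)
    obtain ⟨W, hW, m, hm, hWm⟩ := h x hxΩ
    obtain ⟨r, hr, hrW⟩ := Metric.mem_nhds_iff.1 (Filter.inter_mem hW (hΩ.mem_nhds hxΩ))
    have hB : LipschitzOnWith (Real.toNNReal (Q * m)) g (Metric.ball x r) :=
      (hLip W m hWm).mono (fun y hy => (hrW hy).1)
    have hae := hB.ae_differentiableWithinAt_of_mem (μ := (volume : Measure E3))
    rw [ae_iff] at hae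
    refine ⟨_, Filter.inter_mem (mem_nhdsWithin_of_mem_nhds (Metric.ball_mem_nhds x hr))
      self_mem_nhdsWithin, ?_⟩
    refine measure_mono_null ?_ hae
    rintro y ⟨hyB, hyS⟩ hdiff
    apply hyS
    intro _
    have hyd : DifferentiableAt ℝ g y :=
      (hdiff hyB).differentiableAt (Metric.isOpen_ball.mem_nhds hyB)
    refine ⟨hyd, m, hm, fun v => ?_⟩
    refine ae_distortion_deriv g (Metric.ball x r) Q m y (Metric.isOpen_ball.mem_nhds hyB) ?_ hyd v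
    intro z hz
    exact hWm z (hrW hz).1 y (hrW hyB).1



end Pool.Agent.Helper842.SegM
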