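import Pool.Agent.Helper842.SegBase
import Pool.Agent.Helper842.SegMoeb

open Set Filter Topology

namespace Pool.Agent.Helper842.Seg

/-- combinatorial data of a periodic triangulation: corners `vert t i` with level `ql t i`,
neighbour across the facet opposite to corner `i`, its level shift, and the corner matching -/
structure Dat where
  nt : ℕ
  vert : Fin nt → Fin 4 → ℕ
  ql : Fin nt → Fin 4 → ℤ
  pt : Fin nt → Fin 4 → Fin nt
  ps : Fin nt → Fin 4 → ℤ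
  pm : Fin nt → Fin 4 → Equiv.Perm (Fin 4)

/-- position of a label -/
noncomputable def pos (P : ℕ → E3) (l : ℕ × ℤ) : E3 := (4:ℝ) ^ l.2 • P l.1

structure Comb (D : Dat) : Prop where
  lab_inj : ∀ t, Function.Injective (D.vert t)
  lab_pa : ∀ t i j, j ≠ i → D.vert (D.pt t i) (D.pm t i j) = D.vert t j ∧
    D.ql (D.pt t i) (D.pm t i j) + D.ps t i = D.ql t j
  inv : ∀ t i, D.pt (D.pt t i) (D.pm t i i) = t ∧ D.ps (D.pt t i) (D.pm t i i) = - D.ps t i ∧
    D.pm (D.pt t i) (D.pm t i i) (D.pm t i i) = i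

structure Geom (D : Dat) (P : ℕ → E3) : Prop where
  vol_pos : ∀ t, 0 < vol (fun i => pos P (D.vert t i, D.ql t i))
  opp : ∀ t i, vol (Function.update (fun i => pos P (D.vert t i, D.ql t i)) i
    (pos P (D.vert (D.pt t i) (D.pm t i i), D.ql (D.pt t i) (D.pm t i i) + D.ps t i))) < 0

/-- labels of the cell `a = (t, n)` -/
def lab (D : Dat) (a : Fin D.nt × ℤ) (i : Fin 4) : ℕ × ℤ := (D.vert a.1 i, D.ql a.1 i + a.2)

/-- corners of the cell -/
noncomputable def cell (D : Dat) (P : ℕ → E3) (a : Fin D.nt × ℤ) (i : Fin 4) : E3 :=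
  pos P (lab D a i)

theorem cell_scale (D : Dat) (P : ℕ → E3) (t : Fin D.nt) (n m : ℤ) :
    cell D P (t, n + m) = fun i => (4:ℝ) ^ n • cell D P (t, m) i := by
  funext i
  simp only [cell, pos, lab]
  rw [smul_smul, ← zpow_add₀ (by norm_num : (4:ℝ) ≠ 0)]
  congr 2
  ring

theorem cell_scale0 (D : Dat) (P : ℕ → E3) (t : Fin D.nt) (n : ℤ) :
    cell D P (t, n) = fun i => (4:ℝ) ^ n • cell D P (t, 0) i := by
  have := cell_scale D P t n 0
  simpa using this

theorem cell_base (D : Dat) (P : ℕ → E3) (t : Fin D.nt) :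
    cell D P (t, 0) = fun i => pos P (D.vert t i, D.ql t i) := by
  funext i
  simp [cell, lab]

theorem vol_cell {D : Dat} {P : ℕ → E3} (hG : Geom D P) (a : Fin D.nt × ℤ) :
    0 < vol (cell D P a) := by
  obtain ⟨t, n⟩ := a
  rw [cell_scale0, vol_smul, cell_base]
  exact mul_pos (by positivity) (hG.vol_pos t)

theorem bc_cell_scale (D : Dat) (P : ℕ → E3) (t : Fin D.nt) (n m : ℤ) (i : Fin 4) (x : E3) :
    bc (cell D P (t, n + m)) i ((4:ℝ) ^ n • x) = bc (cell D P (t, m)) i x := by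
  rw [cell_scale]
  exact bc_smul _ (by positivity) _ _ _

theorem cell_apex {D : Dat} {P : ℕ → E3} (hG : Geom D P) (a : Fin D.nt × ℤ) (i : Fin 4) :
    bc (cell D P a) i (cell D P (D.pt a.1 i, a.2 + D.ps a.1 i) (D.pm a.1 i i)) < 0 := by
  obtain ⟨t, n⟩ := a
  have h1 : cell D P (D.pt t i, n + D.ps t i) (D.pm t i i) =
      (4:ℝ) ^ n • pos P (D.vert (D.pt t i) (D.pm t i i),
        D.ql (D.pt t i) (D.pm t i i) + D.ps t i) := by
    simp only [cell, pos, lab]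
    rw [smul_smul, ← zpow_add₀ (by norm_num : (4:ℝ) ≠ 0)]
    congr 2
    ring
  have h2 := bc_cell_scale D P t n 0 i (pos P (D.vert (D.pt t i) (D.pm t i i),
        D.ql (D.pt t i) (D.pm t i i) + D.ps t i))
  simp only [add_zero] at h2
  show bc (cell D P (t, n)) i (cell D P (D.pt t i, n + D.ps t i) (D.pm t i i)) < 0
  rw [h1, h2]
  unfold bc
  rw [cell_base]
  exact div_neg_of_neg_of_pos (hG.opp t i) (hG.vol_pos t)

theorem cell_match {D : Dat} (P : ℕ → E3) (hC : Comb D) (a : Fin D.nt × ℤ) (i j : Fin 4)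
    (hj : j ≠ i) :
    cell D P (D.pt a.1 i, a.2 + D.ps a.1 i) (D.pm a.1 i j) = cell D P a j := by
  have := hC.lab_pa a.1 i j hj
  have h : lab D (D.pt a.1 i, a.2 + D.ps a.1 i) (D.pm a.1 i j) = lab D a j := by
    refine Prod.ext this.1 ?_
    show D.ql _ _ + (a.2 + D.ps a.1 i) = D.ql a.1 j + a.2
    rw [← this.2]; ring
  simp only [cell, h]

/-- the complex attached to positions `P` -/
noncomputable def mkCx (D : Dat) (P : ℕ → E3) (hC : Comb D) (hG : Geom D P) :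
    Cx E3 (ℕ × ℤ) (Fin D.nt × ℤ) (Fin 4) where
  lab := lab D
  β a i x := bc (cell D P a) i x
  pa a i := (D.pt a.1 i, a.2 + D.ps a.1 i)
  τ a i := D.pm a.1 i
  cont a i := bc_cont _ _
  aff a i x y t := bc_aff _ _ _ _ _
  pos a := by
    refine ⟨∑ i, (1/4 : ℝ) • cell D P a i, fun i => ?_⟩
    rw [bc_uniq (cell D P a) (vol_cell hG a).ne' (fun _ => 1/4) _ (by simp) rfl i]
    norm_num
  indep a i j hij := by
    refine ⟨cell D P a i, ?_, ?_⟩
    · show bc (cell D P a) i (cell D P a i) ≠ 0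
      rw [bc_self _ (vol_cell hG a).ne']
      simp
    · show bc (cell D P a) j (cell D P a i) = 0
      rw [bc_self _ (vol_cell hG a).ne']
      simp [hij.symm]
  lab_inj a := by
    intro i j h
    exact hC.lab_inj a.1 (congrArg Prod.fst h)
  lab_pa a i j hj := by
    have := hC.lab_pa a.1 i j hj
    refine Prod.ext this.1 ?_
    show D.ql _ _ + (a.2 + D.ps a.1 i) = D.ql a.1 j + a.2
    rw [← this.2]; ring
  neg a i := (bc_partner _ _ (vol_cell hG a).ne' (vol_cell hG _).ne' i (D.pm a.1 i)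
    (fun j hj => cell_match P hC a i j hj) (cell_apex hG a i)).1
  oth a i j hj := (bc_partner _ _ (vol_cell hG a).ne' (vol_cell hG _).ne' i (D.pm a.1 i)
    (fun j hj => cell_match P hC a i j hj) (cell_apex hG a i)).2 j hj
  inv1 a i := by
    have := hC.inv a.1 i
    refine Prod.ext this.1 ?_
    show a.2 + D.ps a.1 i + D.ps (D.pt a.1 i) (D.pm a.1 i i) = a.2
    rw [this.2.1]; ring
  inv2 a i := (hC.inv a.1 i).2.2


/-- all cells, all coordinates -/
def UP (D : Dat) (P : ℕ → E3) (hC : Comb D) (hG : Geom D P) : Sub (mkCx D P hC hG) where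
  S := univ
  J := fun _ => Finset.univ
  clos := by simp
  Jτ := by simp

theorem exists_pos_le {ι : Type*} [Finite ι] (f : ι → ℝ) (hf : ∀ i, 0 < f i) :
    ∃ r : ℝ, 0 < r ∧ ∀ i, r ≤ f i := by
  rcases isEmpty_or_nonempty ι with h | h
  · exact ⟨1, one_pos, fun i => (h.false i).elim⟩
  · obtain ⟨i0, hi0⟩ := Finite.exists_min f
    exact ⟨f i0, hf i0, hi0⟩

theorem exists_ub {ι : Type*} [Finite ι] (f : ι → ℝ) : ∃ R : ℝ, 0 < R ∧ ∀ i, f i ≤ R := by
  rcases isEmpty_or_nonempty ι with h | h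
  · exact ⟨1, one_pos, fun i => (h.false i).elim⟩
  · obtain ⟨i0, hi0⟩ := Finite.exists_max f
    exact ⟨max 1 (f i0), by positivity, fun i => (hi0 i).trans (le_max_right _ _)⟩

theorem cell_bounds (D : Dat) (P : ℕ → E3) (hG : Geom D P)
    (hH : ∀ t, ∃ w : E3, ∀ i, 0 < inner ℝ w (pos P (D.vert t i, D.ql t i))) :
    ∃ r R : ℝ, 0 < r ∧ 0 < R ∧ ∀ t z, (∀ i, 0 ≤ bc (cell D P (t, 0)) i z) → r ≤ ‖z‖ ∧ ‖z‖ ≤ R := by
  have key : ∀ t, ∃ q : ℝ × ℝ, 0 < q.1 ∧ ∀ z, (∀ i, 0 ≤ bc (cell D P (t, 0)) i z) →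
      q.1 ≤ ‖z‖ ∧ ‖z‖ ≤ q.2 := by
    intro t
    obtain ⟨w, hw⟩ := hH t
    obtain ⟨δ, hδ, hδi⟩ := exists_pos_le _ hw
    refine ⟨(δ / (‖w‖ + 1), ∑ i, ‖cell D P (t, 0) i‖), by positivity, fun z hz => ?_⟩
    have hv := (vol_cell hG (t, 0)).ne'
    have h1 := bc_sum _ hv z
    have h2 := bc_comb _ hv z
    have hle1 : ∀ i, bc (cell D P (t, 0)) i z ≤ 1 := by
      intro i
      rw [← h1]
      exact Finset.single_le_sum (fun j _ => hz j) (Finset.mem_univ i)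
    constructor
    · have h3 : inner ℝ w z = ∑ i, bc (cell D P (t, 0)) i z * inner ℝ w (cell D P (t, 0) i) := by
        conv_lhs => rw [← h2]
        rw [inner_sum]
        exact Finset.sum_congr rfl fun i _ => by rw [inner_smul_right]
      have h4 : δ ≤ inner ℝ w z := by
        rw [h3]
        calc δ = ∑ i, bc (cell D P (t, 0)) i z * δ := by rw [← Finset.sum_mul, h1, one_mul]
          _ ≤ _ := Finset.sum_le_sum fun i _ => by
            apply mul_le_mul_of_nonneg_left _ (hz i)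
            rw [cell_base]
            exact hδi i
      have h5 := real_inner_le_norm w z
      have h6 : δ ≤ (‖w‖ + 1) * ‖z‖ := by
        have := norm_nonneg z
        nlinarith
      rw [div_le_iff₀ (by positivity)]
      linarith
    · show ‖z‖ ≤ ∑ i, ‖cell D P (t, 0) i‖
      conv_lhs => rw [← h2]
      refine (norm_sum_le _ _).trans (Finset.sum_le_sum fun i _ => ?_)
      rw [norm_smul, Real.norm_of_nonneg (hz i)]
      exact mul_le_of_le_one_left (norm_nonneg _) (hle1 i)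
  choose q hq1 hq2 using key
  obtain ⟨r, hr, hr'⟩ := exists_pos_le (fun t => (q t).1) hq1
  obtain ⟨R, hR, hR'⟩ := exists_ub (fun t => (q t).2)
  exact ⟨r, R, hr, hR, fun t z hz => ⟨(hr' t).trans (hq2 t z hz).1, (hq2 t z hz).2.trans (hR' t)⟩⟩

theorem cell_bounds' (D : Dat) (P : ℕ → E3) (r R : ℝ)
    (h : ∀ t z, (∀ i, 0 ≤ bc (cell D P (t, 0)) i z) → r ≤ ‖z‖ ∧ ‖z‖ ≤ R)
    (a : Fin D.nt × ℤ) (z : E3) (hz : ∀ i, 0 ≤ bc (cell D P a) i z) :
    r * (4:ℝ) ^ a.2 ≤ ‖z‖ ∧ ‖z‖ ≤ R * (4:ℝ) ^ a.2 := by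
  obtain ⟨t, n⟩ := a
  have h4 : (0:ℝ) < (4:ℝ) ^ n := by positivity
  have hs := bc_cell_scale D P t n 0
  simp only [add_zero] at hs
  have hz' : ∀ i, 0 ≤ bc (cell D P (t, 0)) i (((4:ℝ) ^ n)⁻¹ • z) := by
    intro i
    rw [← hs i, smul_smul, mul_inv_cancel₀ h4.ne', one_smul]
    exact hz i
  obtain ⟨h1, h2⟩ := h t _ hz'
  rw [norm_smul, norm_inv, Real.norm_of_nonneg h4.le] at h1 h2
  constructor
  · show r * (4:ℝ) ^ n ≤ ‖z‖
    calc r * (4:ℝ) ^ n ≤ (((4:ℝ) ^ n)⁻¹ * ‖z‖) * (4:ℝ) ^ n := mul_le_mul_of_nonneg_right h1 h4.le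
      _ = ‖z‖ := by field_simp
  · show ‖z‖ ≤ R * (4:ℝ) ^ n
    calc ‖z‖ = (((4:ℝ) ^ n)⁻¹ * ‖z‖) * (4:ℝ) ^ n := by field_simp
      _ ≤ _ := mul_le_mul_of_nonneg_right h2 h4.le

theorem finite_zpow (α β : ℝ) (hα : 0 < α) : {n : ℤ | α ≤ (4:ℝ) ^ n ∧ (4:ℝ) ^ n ≤ β}.Finite := by
  rcases le_or_gt β 0 with hβ | hβ
  · convert Set.finite_empty (α := ℤ)
    ext n
    simp only [mem_ofPred_eq, mem_empty_iff_false, iff_false, not_and, not_le]
    intro _
    have : (0:ℝ) < (4:ℝ) ^ n := by positivity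
    linarith
  obtain ⟨n1, hn1, -⟩ := exists_mem_Ico_zpow hα (by norm_num : (1:ℝ) < 4)
  obtain ⟨n2, -, hn2⟩ := exists_mem_Ico_zpow hβ (by norm_num : (1:ℝ) < 4)
  refine (Set.finite_Icc (n1) (n2 + 1)).subset fun n hn => ⟨?_, ?_⟩
  · exact (zpow_le_zpow_iff_right₀ (by norm_num : (1:ℝ) < 4)).1 (hn1.trans hn.1)
  · exact (zpow_le_zpow_iff_right₀ (by norm_num : (1:ℝ) < 4)).1 (hn.2.trans hn2.le)

theorem dom_lf (D : Dat) (P : ℕ → E3) (hC : Comb D) (hG : Geom D P)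
    (hH : ∀ t, ∃ w : E3, ∀ i, 0 < inner ℝ w (pos P (D.vert t i, D.ql t i))) (x : E3) (hx : x ≠ 0) :
    ∃ W ∈ 𝓝 x, {a | a ∈ (UP D P hC hG).S ∧ ∃ z ∈ W, ∀ i ∈ (UP D P hC hG).J a,
      0 ≤ (mkCx D P hC hG).β a i z}.Finite := by
  obtain ⟨r, R, hr, hR, hb⟩ := cell_bounds D P hG hH
  have hx' : 0 < ‖x‖ := norm_pos_iff.2 hx
  refine ⟨Metric.ball x (‖x‖ / 2), Metric.ball_mem_nhds _ (by positivity), ?_⟩
  have hfin := finite_zpow (‖x‖ / 2 / R) ((3 * ‖x‖ / 2) / r) (by positivity)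
  refine ((Set.finite_univ (α := Fin D.nt)).prod hfin).subset ?_
  rintro ⟨t, n⟩ ⟨-, z, hz, hzi⟩
  refine ⟨mem_univ _, ?_⟩
  obtain ⟨h1, h2⟩ := cell_bounds' D P r R hb (t, n) z (fun i => hzi i (Finset.mem_univ i))
  rw [Metric.mem_ball, dist_eq_norm] at hz
  have h3 : ‖x‖ - ‖z‖ ≤ ‖z - x‖ := by
    have := norm_sub_norm_le x z
    rwa [norm_sub_rev] at this
  have h4 : ‖z‖ - ‖x‖ ≤ ‖z - x‖ := norm_sub_norm_le z x
  simp only at h1 h2
  constructor
  · show ‖x‖ / 2 / R ≤ (4:ℝ) ^ n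
    rw [div_le_iff₀ hR]
    linarith
  · show (4:ℝ) ^ n ≤ (3 * ‖x‖ / 2) / r
    rw [le_div_iff₀ hr]
    linarith

theorem dom_seg (x : E3) (hx : x ∈ ({0}ᶜ : Set E3)) : ∃ φ : E3 → ℝ, Continuous φ ∧
      (∀ u v (t : ℝ), φ ((1 - t) • u + t • v) = (1 - t) * φ u + t * φ v) ∧ (∃ z, φ z ≠ 0) ∧
      ∀ y ∈ ({0}ᶜ : Set E3), φ y ≠ 0 → ∀ t ∈ Icc (0:ℝ) 1, (1 - t) • x + t • y ∈ ({0}ᶜ : Set E3) := by
  have hx0 : x ≠ 0 := hx
  have key : ∃ w : E3, w ≠ 0 ∧ inner ℝ w x = (0:ℝ) := by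
    by_cases h : x 0 = 0 ∧ x 1 = 0
    · refine ⟨!₂[1, 0, 0], ?_, ?_⟩
      · intro hw
        have := congrArg (fun v : E3 => v 0) hw
        simp at this
      · simp [PiLp.inner_apply, Fin.sum_univ_three, h.1]
    · refine ⟨!₂[- x 1, x 0, 0], ?_, ?_⟩
      · intro hw
        have h0 := congrArg (fun v : E3 => v 0) hw
        have h1 := congrArg (fun v : E3 => v 1) hw
        simp at h0 h1
        exact h ⟨h1, h0⟩
      · simp [PiLp.inner_apply, Fin.sum_univ_three]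
        ring
  obtain ⟨w, hw, hwx⟩ := key
  refine ⟨fun y => inner ℝ w y, by fun_prop, ?_, ⟨w, ?_⟩, ?_⟩
  · intro u v t
    simp only [inner_add_right, inner_smul_right]
  · simpa using hw
  · intro y _ hy t ht h0
    have h0' : (1 - t) • x + t • y = 0 := h0
    have h1 : inner ℝ w ((1 - t) • x + t • y) = (0:ℝ) := by rw [h0', inner_zero_right]
    rw [inner_add_right, inner_smul_right, inner_smul_right, hwx, mul_zero, zero_add] at h1
    have ht0 : t = 0 := by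
      rcases mul_eq_zero.1 h1 with h | h
      · exact h
      · exact absurd h hy
    rw [ht0] at h0'
    simp at h0'
    exact hx0 h0'


theorem sum_of_bl {ι Lb F : Type*} [DecidableEq Lb] [AddCommGroup F] [Module ℝ F]
    (J J' : Finset ι) (u u' : ι → Lb) (c c' : ι → ℝ)
    (h : ∀ l, (∑ i ∈ J, if u i = l then c i else 0) = ∑ i ∈ J', if u' i = l then c' i else 0)
    (G : Lb → F) : ∑ i ∈ J, c i • G (u i) = ∑ i ∈ J', c' i • G (u' i) := by
  classical
  have key : ∀ (J : Finset ι) (u : ι → Lb) (c : ι → ℝ) (L : Finset Lb), J.image u ⊆ L →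
      ∑ i ∈ J, c i • G (u i) = ∑ l ∈ L, (∑ i ∈ J, if u i = l then c i else 0) • G l := by
    intro J u c L hL
    simp_rw [Finset.sum_smul]
    rw [Finset.sum_comm]
    refine Finset.sum_congr rfl fun i hi => ?_
    have hmem : u i ∈ L := hL (Finset.mem_image_of_mem u hi)
    rw [Finset.sum_eq_single (u i)]
    · simp
    · intro l _ hl
      rw [if_neg (Ne.symm hl), zero_smul]
    · intro h; exact absurd hmem h
  rw [key J u c (J.image u ∪ J'.image u') Finset.subset_union_left,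
    key J' u' c' (J.image u ∪ J'.image u') Finset.subset_union_right]
  exact Finset.sum_congr rfl fun l _ => by rw [h l]

theorem dom_cover (D : Dat) (P : ℕ → E3) (hC : Comb D) (hG : Geom D P)
    (hH : ∀ t, ∃ w : E3, ∀ i, 0 < inner ℝ w (pos P (D.vert t i, D.ql t i)))
    (hT : ∃ (a0 : Fin D.nt × ℤ) (x0 : E3), x0 ≠ 0 ∧ (∀ i, 0 < bc (cell D P a0) i x0) ∧
      ∀ a, a ≠ a0 → ∃ i, bc (cell D P a) i x0 < 0) :
    (∀ x, x ≠ 0 → ∃ a, ∀ i, 0 ≤ bc (cell D P a) i x) ∧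
    (∀ x, x ≠ 0 → ∀ a a', (∀ i, 0 ≤ bc (cell D P a) i x) → (∀ i, 0 ≤ bc (cell D P a') i x) →
      ∀ l, (∑ i, if lab D a i = l then bc (cell D P a) i x else 0) =
        ∑ i, if lab D a' i = l then bc (cell D P a') i x else 0) := by
  obtain ⟨a0, x0, hx0, hin, hout⟩ := hT
  have := cover_unique (mkCx D P hC hG) (UP D P hC hG) ({0}ᶜ) isOpen_compl_singleton
    dom_seg (fun x hx => dom_lf D P hC hG hH x hx) a0 (mem_univ _) x0 hx0
    (fun i _ => hin i) (fun a _ ha => by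
      obtain ⟨i, hi⟩ := hout a ha
      exact ⟨i, Finset.mem_univ _, hi⟩)
  obtain ⟨h1, h2⟩ := this
  constructor
  · intro x hx
    obtain ⟨a, -, ha⟩ := h1 x hx
    exact ⟨a, fun i => ha i (Finset.mem_univ _)⟩
  · intro x hx a a' ha ha' l
    exact h2 x hx a (mem_univ _) a' (mem_univ _) (fun i _ => ha i) (fun i _ => ha' i) l

/-- the cells having the label `l` as a corner, with all other coordinates -/
def UQ (D : Dat) (Q : ℕ → E3) (hC : Comb D) (hG : Geom D Q) (l : ℕ × ℤ) :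
    Sub (mkCx D Q hC hG) where
  S := {a | ∃ i, lab D a i = l}
  J := fun a => Finset.univ.filter (fun i => lab D a i ≠ l)
  clos := by
    rintro a ⟨k, hk⟩ i hi
    have hi' : lab D a i ≠ l := by simpa using hi
    have hki : k ≠ i := by rintro rfl; exact hi' hk
    refine ⟨D.pm a.1 i k, ?_⟩
    have := (mkCx D Q hC hG).lab_pa a i k hki
    exact this.trans hk
  Jτ := by
    rintro a ⟨k, hk⟩ i hi j
    have hi' : lab D a i ≠ l := by simpa using hi
    have hki : k ≠ i := by rintro rfl; exact hi' hk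
    by_cases hj : j = i
    · subst hj
      simp only [Finset.mem_filter, Finset.mem_univ, true_and]
      refine ⟨fun _ => ?_, fun _ => hi'⟩
      intro h
      have h1 := (mkCx D Q hC hG).lab_pa a j k hki
      have h2 : (mkCx D Q hC hG).lab ((mkCx D Q hC hG).pa a j) ((mkCx D Q hC hG).τ a j k) =
        (mkCx D Q hC hG).lab ((mkCx D Q hC hG).pa a j) ((mkCx D Q hC hG).τ a j j) := by
        rw [h1]
        exact hk.trans h.symm
      have h3 := (mkCx D Q hC hG).lab_inj _ h2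
      exact hki ((Equiv.injective _) h3)
    · have h1 := (mkCx D Q hC hG).lab_pa a i j hj
      simp only [Finset.mem_filter, Finset.mem_univ, true_and]
      rw [show lab D ((mkCx D Q hC hG).pa a i) (((mkCx D Q hC hG).τ a i) j) = lab D a j from h1]

theorem star_finite (D : Dat) (l : ℕ × ℤ) : {a : Fin D.nt × ℤ | ∃ i, lab D a i = l}.Finite := by
  refine (Set.finite_range (fun q : Fin D.nt × Fin 4 => (q.1, l.2 - D.ql q.1 q.2))).subset ?_
  rintro ⟨t, n⟩ ⟨i, hi⟩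
  refine ⟨(t, i), ?_⟩
  have h2 : D.ql t i + n = l.2 := congrArg Prod.snd hi
  refine Prod.ext rfl ?_
  show l.2 - D.ql t i = n
  rw [← h2]; ring

theorem fan_cover (D : Dat) (Q : ℕ → E3) (hC : Comb D) (hG : Geom D Q) (l : ℕ × ℤ)
    (hT : ∃ (a0 : Fin D.nt × ℤ) (x0 : E3), (∃ i, lab D a0 i = l) ∧
      (∀ i, lab D a0 i ≠ l → 0 < bc (cell D Q a0) i x0) ∧
      ∀ a, (∃ i, lab D a i = l) → a ≠ a0 → ∃ i, lab D a i ≠ l ∧ bc (cell D Q a) i x0 < 0) :
    (∀ x, ∃ a, (∃ i, lab D a i = l) ∧ ∀ i, lab D a i ≠ l → 0 ≤ bc (cell D Q a) i x) ∧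
    (∀ x, ∀ a a', (∃ i, lab D a i = l) → (∃ i, lab D a' i = l) →
      (∀ i, lab D a i ≠ l → 0 ≤ bc (cell D Q a) i x) →
      (∀ i, lab D a' i ≠ l → 0 ≤ bc (cell D Q a') i x) →
      ∀ m, (∑ i ∈ Finset.univ.filter (fun i => lab D a i ≠ l),
          if lab D a i = m then bc (cell D Q a) i x else 0) =
        ∑ i ∈ Finset.univ.filter (fun i => lab D a' i ≠ l),
          if lab D a' i = m then bc (cell D Q a') i x else 0) := by
  obtain ⟨a0, x0, ha0, hin, hout⟩ := hT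
  have := cover_unique (mkCx D Q hC hG) (UQ D Q hC hG l) univ isOpen_univ
    (fun x _ => ⟨fun _ => 1, continuous_const, fun _ _ t => by ring, ⟨0, one_ne_zero⟩,
      fun _ _ _ _ _ => mem_univ _⟩)
    (fun x _ => ⟨univ, Filter.univ_mem, (star_finite D l).subset fun a ha => ha.1⟩)
    a0 ha0 x0 (mem_univ _)
    (fun i hi => hin i (by simpa [UQ] using hi)) (fun a ha hne => by
      obtain ⟨i, hi, hi2⟩ := hout a ha hne
      exact ⟨i, by simpa [UQ] using hi, hi2⟩)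
  obtain ⟨h1, h2⟩ := this
  constructor
  · intro x
    obtain ⟨a, ha, ha2⟩ := h1 x (mem_univ _)
    exact ⟨a, ha, fun i hi => ha2 i (by simpa [UQ] using hi)⟩
  · intro x a a' ha ha' h h' m
    exact h2 x (mem_univ _) a ha a' ha' (fun i hi => h i (by simpa [UQ] using hi))
      (fun i hi => h' i (by simpa [UQ] using hi)) m

end Pool.Agent.Helper842.Seg
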