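import Pool.Agent.Helper842.SegRay

open Set Filter Topology

namespace Pool.Agent.Helper842.Seg

open Pool.Agent.Helper842.SegM (ray)

/-- third basis vector -/
noncomputable def e3 : E3 := !₂[0, 0, 1]

theorem e3_0 : e3 0 = 0 := by simp [e3]
theorem e3_1 : e3 1 = 0 := by simp [e3]
theorem e3_2 : e3 2 = 1 := by simp [e3]

theorem norm_e3 : ‖e3‖ = 1 := by
  rw [EuclideanSpace.norm_eq, Fin.sum_univ_three, e3_0, e3_1, e3_2]
  norm_num

theorem not_ray (y : E3) (h : y 0 ≠ 0 ∨ y 1 ≠ 0) : y ∉ ray e3 := by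
  rintro ⟨s, -, rfl⟩
  simp [e3_0, e3_1] at h

/-- certificate for overlapping images of two cells at an edge on the ray -/
structure KE (D : Dat) (P Q : ℕ → E3) (z z' : ℝ) (a b : Fin D.nt × ℤ) (ia ia' ib ib' : Fin 4)
    (w1 w2 : Fin 4 → ℝ) : Prop where
  nea : ia ≠ ia'
  neb : ib ≠ ib'
  pa : cell D P a ia = z • e3
  pa' : cell D P a ia' = z' • e3
  l1 : lab D a ia = lab D b ib
  l2 : lab D a ia' = lab D b ib'
  s1 : ∑ i, w1 i = 0
  s2 : ∑ i, w2 i = 0
  n1 : ∀ i, i ≠ ia → i ≠ ia' → 0 ≤ w1 i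
  n2 : ∀ i, i ≠ ib → i ≠ ib' → 0 ≤ w2 i
  img : ∑ i, w1 i • cell D Q a i = ∑ i, w2 i • cell D Q b i
  ne : ∑ i, w1 i • cell D P a i ≠ ∑ i, w2 i • cell D P b i
  o1 : (∑ i, w1 i • cell D P a i) 0 ≠ 0 ∨ (∑ i, w1 i • cell D P a i) 1 ≠ 0
  o2 : (∑ i, w2 i • cell D P b i) 0 ≠ 0 ∨ (∑ i, w2 i • cell D P b i) 1 ≠ 0

theorem sum_single4 {F : Type*} [AddCommGroup F] [Module ℝ F] (k : Fin 4) (u : ℝ) (v : Fin 4 → F) :
    ∑ i, (Pi.single k u : Fin 4 → ℝ) i • v i = u • v k := by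
  rw [Finset.sum_eq_single k]
  · simp
  · intro i _ hi
    simp [Pi.single_apply, hi]
  · intro h; exact absurd (Finset.mem_univ k) h

/-- barycentric coordinates near an edge -/
theorem edge_bc {D : Dat} {P : ℕ → E3} (hP : Geom D P) (z z' s : ℝ) (hz : z < z')
    (a : Fin D.nt × ℤ) (ia ia' : Fin 4) (w : Fin 4 → ℝ)
    (h1 : cell D P a ia = z • e3) (h2 : cell D P a ia' = z' • e3) (hw : ∑ i, w i = 0) (ε : ℝ)
    (i : Fin 4) :
    bc (cell D P a) i (s • e3 + ε • ∑ i, w i • cell D P a i) =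
      (Pi.single ia (1 - (s - z) / (z' - z)) : Fin 4 → ℝ) i +
      (Pi.single ia' ((s - z) / (z' - z)) : Fin 4 → ℝ) i + ε * w i := by
  have hne : z' - z ≠ 0 := by linarith [sub_pos.2 hz] |> fun h : (0:ℝ) < z' - z => h.ne'
  refine bc_uniq _ (vol_cell hP a).ne' (fun i => (Pi.single ia (1 - (s - z) / (z' - z)) : Fin 4 → ℝ) i +
      (Pi.single ia' ((s - z) / (z' - z)) : Fin 4 → ℝ) i + ε * w i) _ ?_ ?_ i
  · rw [Finset.sum_add_distrib, Finset.sum_add_distrib, ← Finset.mul_sum, hw]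
    simp
  · simp only [add_smul, Finset.sum_add_distrib]
    rw [sum_single4, sum_single4, h1, h2, smul_smul, smul_smul, ← add_smul, Finset.smul_sum]
    congr 1
    · congr 1
      field_simp
      ring
    · exact Finset.sum_congr rfl fun j _ => by rw [mul_smul]

theorem edge_val {D : Dat} {P : ℕ → E3} (Q : ℕ → E3) (hC : Comb D) (hP : Geom D P)
    (hD : DomOK D P) (z z' s : ℝ) (hz : z < z')
    (a : Fin D.nt × ℤ) (ia ia' : Fin 4) (w : Fin 4 → ℝ)
    (h1 : cell D P a ia = z • e3) (h2 : cell D P a ia' = z' • e3) (hw : ∑ i, w i = 0) (ε : ℝ)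
    (hnn : ∀ i, 0 ≤ (Pi.single ia (1 - (s - z) / (z' - z)) : Fin 4 → ℝ) i +
      (Pi.single ia' ((s - z) / (z' - z)) : Fin 4 → ℝ) i + ε * w i)
    (hne0 : s • e3 + ε • ∑ i, w i • cell D P a i ≠ 0) :
    fmap D P Q (s • e3 + ε • ∑ i, w i • cell D P a i) =
      (1 - (s - z) / (z' - z)) • cell D Q a ia + ((s - z) / (z' - z)) • cell D Q a ia' +
      ε • ∑ i, w i • cell D Q a i := by
  have hb := edge_bc hP z z' s hz a ia ia' w h1 h2 hw ε
  rw [fmap_spec Q hC hP hD _ hne0 a (fun i => by rw [hb]; exact hnn i)]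
  show ∑ i, bc (cell D P a) i _ • cell D Q a i = _
  simp_rw [hb, add_smul, Finset.sum_add_distrib]
  rw [sum_single4, sum_single4, Finset.smul_sum]
  congr 1
  exact Finset.sum_congr rfl fun j _ => by rw [mul_smul]

theorem edge_nonneg (ia ia' : Fin 4) (hia : ia ≠ ia') (θ : ℝ) (h0 : 0 < θ) (h1 : θ < 1)
    (w : Fin 4 → ℝ) (hw : ∀ i, i ≠ ia → i ≠ ia' → 0 ≤ w i) :
    ∀ᶠ ε in 𝓝[>] (0:ℝ), ∀ i, 0 ≤ (Pi.single ia (1 - θ) : Fin 4 → ℝ) i +
      (Pi.single ia' θ : Fin 4 → ℝ) i + ε * w i := by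
  rw [eventually_all]
  intro i
  have hc : Tendsto (fun ε : ℝ => (Pi.single ia (1 - θ) : Fin 4 → ℝ) i +
      (Pi.single ia' θ : Fin 4 → ℝ) i + ε * w i) (𝓝[>] 0)
      (𝓝 ((Pi.single ia (1 - θ) : Fin 4 → ℝ) i + (Pi.single ia' θ : Fin 4 → ℝ) i + 0 * w i)) := by
    refine Tendsto.mono_left ?_ nhdsWithin_le_nhds
    exact (Continuous.tendsto (by fun_prop) 0)
  by_cases hi : i = ia
  · subst hi
    have : (0:ℝ) < (Pi.single i (1 - θ) : Fin 4 → ℝ) i + (Pi.single ia' θ : Fin 4 → ℝ) i + 0 * w i := by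
      simp [Pi.single_apply, hia]
      linarith
    exact (hc.eventually (lt_mem_nhds this)).mono fun ε h => h.le
  by_cases hi' : i = ia'
  · subst hi'
    have : (0:ℝ) < (Pi.single ia (1 - θ) : Fin 4 → ℝ) i + (Pi.single i θ : Fin 4 → ℝ) i + 0 * w i := by
      simp [Pi.single_apply, hi]
      linarith
    exact (hc.eventually (lt_mem_nhds this)).mono fun ε h => h.le
  · filter_upwards [self_mem_nhdsWithin] with ε hε
    have h1 := hw i hi hi'
    have h2 : (0:ℝ) < ε := hε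
    simp [Pi.single_apply, hi, hi']
    positivity

theorem KE_NI {D : Dat} {P Q : ℕ → E3} (hC : Comb D) (hP : Geom D P)
    (hD : DomOK D P) (z z' : ℝ) (hz : z < z') (a b : Fin D.nt × ℤ)
    (ia ia' ib ib' : Fin 4) (w1 w2 : Fin 4 → ℝ) (h : KE D P Q z z' a b ia ia' ib ib' w1 w2)
    (s : ℝ) (hs : s ∈ Ioo z z') : NI (fmap D P Q) e3 (s • e3) := by
  intro V hV
  set θ := (s - z) / (z' - z) with hθ
  have hzz : 0 < z' - z := sub_pos.2 hz
  have hθ0 : 0 < θ := div_pos (sub_pos.2 hs.1) hzz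
  have hθ1 : θ < 1 := by
    rw [hθ, div_lt_one hzz]
    linarith [hs.2]
  have pb : cell D P b ib = z • e3 := by rw [← h.pa]; simp only [cell, h.l1]
  have pb' : cell D P b ib' = z' • e3 := by rw [← h.pa']; simp only [cell, h.l2]
  have tend : ∀ d : E3, Tendsto (fun ε : ℝ => s • e3 + ε • d) (𝓝[>] 0) (𝓝 (s • e3)) := by
    intro d
    have : Continuous (fun ε : ℝ => s • e3 + ε • d) := by fun_prop
    have h0 := this.tendsto 0
    simp only [zero_smul, add_zero] at h0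
    exact h0.mono_left nhdsWithin_le_nhds
  have ev := (((edge_nonneg ia ia' h.nea θ hθ0 hθ1 w1 h.n1).and
    (edge_nonneg ib ib' h.neb θ hθ0 hθ1 w2 h.n2)).and
    (((tend (∑ i, w1 i • cell D P a i)).eventually hV).and
      ((tend (∑ i, w2 i • cell D P b i)).eventually hV))).and self_mem_nhdsWithin
  obtain ⟨ε, ⟨⟨hn1, hn2⟩, hV1, hV2⟩, hε⟩ := ev.exists
  have hε0 : (0:ℝ) < ε := hε
  have off : ∀ d : E3, (d 0 ≠ 0 ∨ d 1 ≠ 0) → s • e3 + ε • d ∉ ray e3 := by
    intro d hd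
    apply not_ray
    simp only [PiLp.add_apply, PiLp.smul_apply, smul_eq_mul, e3_0, e3_1, mul_zero, zero_add]
    rcases hd with hd | hd
    · left; exact mul_ne_zero hε0.ne' hd
    · right; exact mul_ne_zero hε0.ne' hd
  have hr1 := off _ h.o1
  have hr2 := off _ h.o2
  have h01 : s • e3 + ε • ∑ i, w1 i • cell D P a i ≠ 0 := by
    intro h0; rw [h0] at hr1; exact hr1 (zero_mem_ray _)
  have h02 : s • e3 + ε • ∑ i, w2 i • cell D P b i ≠ 0 := by
    intro h0; rw [h0] at hr2; exact hr2 (zero_mem_ray _)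
  refine ⟨_, hV1, _, hV2, hr1, hr2, ?_, ?_⟩
  · intro heq
    have := add_left_cancel heq
    exact h.ne (smul_right_injective _ hε0.ne' this)
  · rw [edge_val Q hC hP hD z z' s hz a ia ia' w1 h.pa h.pa' h.s1 ε hn1 h01,
      edge_val Q hC hP hD z z' s hz b ib ib' w2 pb pb' h.s2 ε hn2 h02, h.img]
    simp only [cell, h.l1, h.l2]

/-- injectivity fails near every point of the ray -/
theorem all_NI {D : Dat} {P Q : ℕ → E3} (hC : Comb D) (hP : Geom D P) (hD : DomOK D P)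
    (m : ℕ) (zs : ℕ → ℝ) (h0 : 0 < zs 0) (hm : zs m = 4 * zs 0)
    (hlt : ∀ j < m, zs j < zs (j + 1))
    (hke : ∀ j < m, ∃ a b ia ia' ib ib' w1 w2,
      KE D P Q (zs j) (zs (j + 1)) a b ia ia' ib ib' w1 w2)
    (x : E3) (hx : x ∈ ray e3) : NI (fmap D P Q) e3 x := by
  -- closed intervals
  have hseg : ∀ j < m, ∀ s ∈ Icc (zs j) (zs (j + 1)), NI (fmap D P Q) e3 (s • e3) := by
    intro j hj s hs
    apply NI_closure
    obtain ⟨a, b, ia, ia', ib, ib', w1, w2, hk⟩ := hke j hj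
    have hcl : s ∈ closure (Ioo (zs j) (zs (j + 1))) := by
      rw [closure_Ioo (hlt j hj).ne]
      exact hs
    have hcont : Continuous (fun s : ℝ => s • e3) := by fun_prop
    have := hcont.closure_preimage_subset {y | NI (fmap D P Q) e3 y}
    apply this
    refine closure_mono ?_ hcl
    intro s' hs'
    exact KE_NI hC hP hD _ _ (hlt j hj) a b ia ia' ib ib' w1 w2 hk s' hs'
  have hper : ∀ k ≤ m, ∀ s ∈ Icc (zs 0) (zs k), NI (fmap D P Q) e3 (s • e3) ∨ s = zs 0 ∧ k = 0 := by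
    intro k
    induction k with
    | zero =>
      intro _ s hs
      right
      exact ⟨le_antisymm hs.2 hs.1, rfl⟩
    | succ k ih =>
      intro hk s hs
      left
      rcases le_or_gt s (zs k) with h | h
      · rcases ih (by omega) s ⟨hs.1, h⟩ with h1 | ⟨h1, h2⟩
        · exact h1
        · subst h2
          exact hseg 0 (by omega) s ⟨hs.1, hs.2⟩
      · exact hseg k (by omega) s ⟨h.le, hs.2⟩
  have hm0 : m ≠ 0 := by
    rintro rfl
    linarith
  have hpos : ∀ s : ℝ, 0 < s → NI (fmap D P Q) e3 (s • e3) := by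
    intro s hs
    obtain ⟨n, hn1, hn2⟩ := exists_mem_Ico_zpow (div_pos hs h0) (by norm_num : (1:ℝ) < 4)
    have h4 : (0:ℝ) < (4:ℝ) ^ n := by positivity
    have hs' : s * ((4:ℝ) ^ n)⁻¹ ∈ Icc (zs 0) (zs m) := by
      rw [le_div_iff₀ h0] at hn1
      rw [div_lt_iff₀ h0, zpow_add_one₀ (by norm_num : (4:ℝ) ≠ 0)] at hn2
      rw [hm]
      constructor
      · rw [← div_eq_mul_inv, le_div_iff₀ h4]
        linarith
      · rw [← div_eq_mul_inv, div_le_iff₀ h4]
        nlinarith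
    have h1 := (hper m le_rfl _ hs').resolve_right (fun h => hm0 h.2)
    have h2 := NI_scale Q hC hP hD e3 n _ h1
    rw [smul_smul] at h2
    have e1 : (4:ℝ) ^ n * (s * ((4:ℝ) ^ n)⁻¹) = s := by field_simp
    rwa [e1] at h2
  obtain ⟨s, hs, rfl⟩ := hx
  rcases hs.lt_or_eq with h | h
  · exact hpos s h
  · subst h
    apply NI_closure
    have hcl : (0:ℝ) ∈ closure (Ioi (0:ℝ)) := by
      rw [closure_Ioi]
      exact Set.mem_Ici.2 le_rfl
    have hcont : Continuous (fun s : ℝ => s • e3) := by fun_prop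
    apply hcont.closure_preimage_subset {y | NI (fmap D P Q) e3 y}
    exact closure_mono (fun s' hs' => hpos s' hs') hcl

end Pool.Agent.Helper842.Seg
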