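import Pool.Agent.Helper842.SegSound
import Pool.Agent.Helper842.SegCert

open Set Filter Topology

namespace Pool.Agent.Helper842.Seg

theorem geomP : Geom DD PP := geom tabP c2P
theorem geomQ : Geom DD QQ := geom tabQ c2Q

theorem not_allB (n : ℕ) (f : ℕ → Bool) (h : (!allB n (fun i => !f i)) = true) :
    ∃ i < n, f i = true := by
  by_contra hno
  push Not at hno
  have key : allB n (fun i => !f i) = true := by
    clear h
    induction n with
    | zero => rfl
    | succ n ih =>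
      show ((!f n) && allB n (fun i => !f i)) = true
      rw [Bool.and_eq_true]
      refine ⟨?_, ih fun i hi => hno i (by omega)⟩
      have := hno n (by omega)
      simpa using this
  rw [key] at h
  simp at h

theorem cell0 (T : ℕ) (t : Fin 842) :
    cell DD (fun v => toE (gv T v)) (t, 0) = fun i : Fin 4 => toE (co T t i 0) := by
  rw [cell_base, pos_co0]

theorem vol0_pos (T : ℕ) (h : allB 842 (chk2 T) = true) (t : Fin 842) : 0 < vol0 T t 0 := by
  have h1 := allB_spec _ _ h t t.2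
  simp only [chk2, Bool.and_eq_true, decide_eq_true_eq] at h1
  exact h1.1

/-- barycentric coordinates at integer points -/
theorem bc_int (T : ℕ) (t : Fin 842) (i : Fin 4) (x : Z3) :
    bc (cell DD (fun v => toE (gv T v)) (t, 0)) i (toE x) =
      (volu T t 0 i x : ℝ) / (vol0 T t 0 : ℝ) := by
  rw [cell0]
  unfold bc
  rw [vu_toE, vol_toE]
  rfl

theorem inner_toE (a b : Z3) : inner ℝ (toE a) (toE b) = (dot a b : ℝ) := by
  simp only [PiLp.inner_apply, Fin.sum_univ_three, toE_0, toE_1, toE_2, dot]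
  simp
  ring

theorem half : ∀ t, ∃ w : E3, ∀ i, 0 < inner ℝ w (pos PP (DD.vert t i, DD.ql t i)) := by
  intro t
  refine ⟨toE (gw (t : Fin 842)), fun i => ?_⟩
  have h1 := allB_spec _ _ (allB_spec _ _ c3 (t : Fin 842) (t : Fin 842).2) i i.2
  simp only [decide_eq_true_eq] at h1
  have h2 := pos_co tabP t i 0
  rw [pow_zero, one_smul] at h2
  have h3 : pos PP (DD.vert t i, DD.ql t i) = toE (co tabP (t : Fin 842) i 0) := h2
  rw [h3, inner_toE]
  exact_mod_cast h1

theorem gfun (t : Fin 842) (i : Fin 4) (s : ℝ) :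
    bc (cell DD PP (t, 0)) i (s • toE x0) =
      ((1 - s) * (volu tabP t 0 i (0, 0, 0) : ℝ) + s * (volu tabP t 0 i x0 : ℝ)) /
        (vol0 tabP t 0 : ℝ) := by
  have h0 : toE (0, 0, 0) = 0 := by
    apply E3_ext <;> simp [toE_0, toE_1, toE_2]
  have h1 := bc_aff (cell DD PP (t, 0)) i (toE (0, 0, 0)) (toE x0) s
  rw [h0, smul_zero, zero_add, ← h0] at h1
  rw [h1]
  have h2 := bc_int tabP t i (0, 0, 0)
  have h3 := bc_int tabP t i x0
  have h2' : bc (cell DD PP (t, 0)) i (toE (0, 0, 0)) = _ := h2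
  have h3' : bc (cell DD PP (t, 0)) i (toE x0) = _ := h3
  rw [h2', h3']
  ring

theorem test : ∃ (a0 : Fin DD.nt × ℤ) (y : E3), y ≠ 0 ∧ (∀ i, 0 < bc (cell DD PP a0) i y) ∧
      ∀ a, a ≠ a0 → ∃ i, bc (cell DD PP a) i y < 0 := by
  refine ⟨((137 : Fin 842), 0), toE x0, ?_, ?_, ?_⟩
  · intro h
    have := congrArg (fun v : E3 => v 0) h
    simp only [toE_0, x0] at this
    norm_num at this
  · intro i
    have h1 := allB_spec _ _ c4 137 (by norm_num)
    simp only [chk4, Bool.and_eq_true] at h1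
    have h2 := h1.2
    simp only [if_true] at h2
    have h3 := allB_spec _ _ h2 i i.2
    simp only [decide_eq_true_eq] at h3
    have h4 := bc_int tabP (137 : Fin 842) i x0
    have h4' : bc (cell DD PP ((137 : Fin 842), 0)) i (toE x0) = _ := h4
    rw [h4']
    have h5 := vol0_pos tabP c2P (137 : Fin 842)
    have h3' : 0 < volu tabP ((137 : Fin 842) : ℕ) 0 i x0 := h3
    exact div_pos (Int.cast_pos.2 h3') (Int.cast_pos.2 h5)
  · rintro ⟨t, n⟩ hne
    have hv : (0:ℝ) < (vol0 tabP (t : Fin 842) 0 : ℝ) := by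
      exact_mod_cast vol0_pos tabP c2P t
    have h1 := allB_spec _ _ c4 (t : Fin 842) (t : Fin 842).2
    simp only [chk4, Bool.and_eq_true] at h1
    obtain ⟨⟨⟨⟨hA, hB⟩, hC⟩, hD⟩, hE⟩ := h1
    -- rescale
    have hsc : ∀ i, bc (cell DD PP (t, n)) i (toE x0) =
        bc (cell DD PP (t, 0)) i ((4:ℝ) ^ (-n) • toE x0) := by
      intro i
      have := bc_cell_scale DD PP t n 0 i ((4:ℝ) ^ (-n) • toE x0)
      rw [add_zero, smul_smul, ← zpow_add₀ (by norm_num : (4:ℝ) ≠ 0), add_neg_cancel, zpow_zero,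
        one_smul] at this
      exact this
    simp only [hsc, gfun t]
    have fin : ∀ (k : ℕ) (hk : k < 4) (s : ℝ), (1 - s) * (volu tabP (t : Fin 842) 0 k (0, 0, 0) : ℝ) +
        s * (volu tabP (t : Fin 842) 0 k x0 : ℝ) < 0 → ∃ i : Fin 4, ((1 - s) *
        (volu tabP (t : Fin 842) 0 i (0, 0, 0) : ℝ) + s * (volu tabP (t : Fin 842) 0 i x0 : ℝ)) /
        (vol0 tabP (t : Fin 842) 0 : ℝ) < 0 := by
      intro k hk s hs
      exact ⟨⟨k, hk⟩, div_neg_of_neg_of_pos hs hv⟩
    rcases lt_trichotomy n 0 with hn | hn | hn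
    · -- s ≥ 4
      obtain ⟨k, hk, hkk⟩ := not_allB _ _ hB
      simp only [Bool.and_eq_true, decide_eq_true_eq] at hkk
      obtain ⟨hk1, hk2⟩ := hkk
      apply fin k hk
      have hs : (4:ℝ) ≤ (4:ℝ) ^ (-n) := by
        calc (4:ℝ) = (4:ℝ) ^ (1:ℤ) := by norm_num
          _ ≤ _ := zpow_le_zpow_right₀ (by norm_num) (by omega)
      have hk1' : (volu tabP (t : Fin 842) 0 k x0 : ℝ) - volu tabP (t : Fin 842) 0 k (0, 0, 0) ≤ 0 := by
        exact_mod_cast hk1
      have hk2' : 4 * (volu tabP (t : Fin 842) 0 k x0 : ℝ) - 3 * volu tabP (t : Fin 842) 0 k (0, 0, 0) < 0 := by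
        exact_mod_cast hk2
      nlinarith
    · subst hn
      have hne' : ((t : Fin 842) : ℕ) ≠ 137 := by
        intro h
        apply hne
        have : t = (137 : Fin 842) := Fin.ext h
        rw [this]
      rw [if_neg hne'] at hE
      obtain ⟨k, hk, hkk⟩ := not_allB _ _ hE
      simp only [decide_eq_true_eq] at hkk
      apply fin k hk
      have : (volu tabP (t : Fin 842) 0 k x0 : ℝ) < 0 := by exact_mod_cast hkk
      simpa using this
    · rcases (by omega : n = 1 ∨ n = 2 ∨ 3 ≤ n) with h | h | h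
      · subst h
        obtain ⟨k, hk, hkk⟩ := not_allB _ _ hD
        simp only [decide_eq_true_eq] at hkk
        apply fin k hk
        have : 3 * (volu tabP (t : Fin 842) 0 k (0, 0, 0) : ℝ) + volu tabP (t : Fin 842) 0 k x0 < 0 := by
          exact_mod_cast hkk
        norm_num [zpow_neg]
        linarith
      · subst h
        obtain ⟨k, hk, hkk⟩ := not_allB _ _ hC
        simp only [decide_eq_true_eq] at hkk
        apply fin k hk
        have : 15 * (volu tabP (t : Fin 842) 0 k (0, 0, 0) : ℝ) + volu tabP (t : Fin 842) 0 k x0 < 0 := by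
          exact_mod_cast hkk
        have e : (4:ℝ) ^ (-2:ℤ) = 1/16 := by norm_num [zpow_neg]
        rw [e]
        linarith
      · obtain ⟨k, hk, hkk⟩ := not_allB _ _ hA
        simp only [Bool.and_eq_true, decide_eq_true_eq] at hkk
        obtain ⟨hk1, hk2⟩ := hkk
        apply fin k hk
        have hs : (4:ℝ) ^ (-n) ≤ 1/64 := by
          calc (4:ℝ) ^ (-n) ≤ (4:ℝ) ^ (-3:ℤ) := zpow_le_zpow_right₀ (by norm_num) (by omega)
            _ = 1/64 := by norm_num [zpow_neg]
        have hs0 : (0:ℝ) < (4:ℝ) ^ (-n) := by positivity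
        have hk1' : (volu tabP (t : Fin 842) 0 k (0, 0, 0) : ℝ) < 0 := by exact_mod_cast hk1
        have hk2' : 63 * (volu tabP (t : Fin 842) 0 k (0, 0, 0) : ℝ) + volu tabP (t : Fin 842) 0 k x0 < 0 := by
          exact_mod_cast hk2
        nlinarith

theorem domOK : DomOK DD PP := ⟨half, test⟩

theorem rayV (v : ℕ) (h1 : 131 ≤ v) (h2 : v < 140) : ∃ s : ℝ, 0 ≤ s ∧ PP v = s • e3 := by
  have h := allB_spec _ _ c6 v h2
  simp only [chk6, Bool.or_eq_true, Bool.and_eq_true, decide_eq_true_eq] at h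
  rcases h with h | h
  · omega
  · obtain ⟨⟨ha, hb⟩, hc⟩ := h
    refine ⟨((gv tabP v).2.2 : ℝ), by exact_mod_cast hc.le, ?_⟩
    apply E3_ext
    · simp [PP, toE_0, ha, e3_0]
    · simp [PP, toE_1, hb, e3_1]
    · simp [PP, toE_2, e3_2]

theorem fanOK (t : Fin 842) (i : Fin 4) (hv : ¬ 131 ≤ rv t i) : FanOK DD QQ (DD.vert t i, 0) := by
  set v := rv t i with hvdef
  have spec : ∀ (t' : Fin 842) (i' : Fin 4), rv t' i' = v →
      rd v < 3368 ∧ rv (rd v / 4) (rd v % 4) = v ∧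
      (rd v = 4 * t' + i' → ∀ j < 4, j ≠ (i':ℕ) → 0 < volu tabQ t' 0 j (sc (rq t' i') (gv tabZ v))) ∧
      (rd v ≠ 4 * t' + i' → ∃ j < 4, j ≠ (i':ℕ) ∧ volu tabQ t' 0 j (sc (rq t' i') (gv tabZ v)) < 0) := by
    intro t' i' hvi
    have h := allB_spec _ _ (allB_spec _ _ c5 t' t'.2) i' i'.2
    simp only [hvi, Bool.or_eq_true, Bool.and_eq_true, decide_eq_true_eq] at h
    rcases h with h | h
    · exact absurd h hv
    obtain ⟨⟨h1, h2⟩, h3⟩ := h
    refine ⟨h1, h2, ?_, ?_⟩
    · intro hr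
      rw [if_pos hr] at h3
      intro j hj hji
      have := allB_spec _ _ h3 j hj
      simp only [Bool.or_eq_true, decide_eq_true_eq] at this
      exact this.resolve_left hji
    · intro hr
      rw [if_neg hr] at h3
      obtain ⟨j, hj, hjj⟩ := not_allB _ _ h3
      simp only [Bool.and_eq_true, decide_eq_true_eq, Bool.not_eq_true', decide_eq_false_iff_not] at hjj
      exact ⟨j, hj, hjj.1, hjj.2⟩
  have hbase := spec t i rfl
  have htv : rd v / 4 < 842 := by omega
  have hiv : rd v % 4 < 4 := Nat.mod_lt _ (by norm_num)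
  set tv : Fin 842 := ⟨rd v / 4, htv⟩ with htvdef
  set iv : Fin 4 := ⟨rd v % 4, hiv⟩ with hivdef
  have hrvv : rv tv iv = v := hbase.2.1
  have hrd : rd v = 4 * (tv : ℕ) + iv := by
    show rd v = 4 * (rd v / 4) + rd v % 4
    omega
  have bcs : ∀ (t' : Fin 842) (i' j : Fin 4),
      bc (cell DD QQ (t', -((rq t' i' : ℕ) : ℤ))) j (toE (gv tabZ v)) =
        (volu tabQ t' 0 j (sc (rq t' i') (gv tabZ v)) : ℝ) / (vol0 tabQ t' 0 : ℝ) := by
    intro t' i' j
    have h1 := bc_cell_scale DD QQ t' (-((rq t' i' : ℕ) : ℤ)) 0 j (toE (sc (rq t' i') (gv tabZ v)))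
    rw [toE_sc, smul_smul, ← zpow_natCast, ← zpow_add₀ (by norm_num : (4:ℝ) ≠ 0), neg_add_cancel,
      zpow_zero, one_smul, add_zero] at h1
    rw [h1]
    have h2 := bc_int tabQ t' j (sc (rq t' i') (gv tabZ v))
    rw [toE_sc] at h2
    rw [zpow_natCast]
    exact h2
  have labv : ∀ (t' : Fin 842) (n : ℤ) (k : Fin 4), lab DD (t', n) k = (v, 0) ↔
      rv t' k = v ∧ ((rq t' k : ℕ) : ℤ) + n = 0 := by
    intro t' n k
    constructor
    · intro h
      exact ⟨congrArg Prod.fst h, congrArg Prod.snd h⟩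
    · rintro ⟨h1, h2⟩
      exact Prod.ext h1 h2
  show FanOK DD QQ (v, 0)
  refine ⟨(tv, -((rq tv iv : ℕ) : ℤ)), toE (gv tabZ v), ⟨iv, (labv _ _ _).2 ⟨hrvv, by ring⟩⟩, ?_, ?_⟩
  · intro j hj
    have hji : (j:ℕ) ≠ (iv:ℕ) := by
      intro h
      apply hj
      rw [Fin.ext h]
      exact (labv _ _ _).2 ⟨hrvv, by ring⟩
    rw [bcs]
    have h1 := (spec tv iv hrvv).2.2.1 hrd j j.2 hji
    have h2 := vol0_pos tabQ c2Q tv
    exact div_pos (Int.cast_pos.2 h1) (Int.cast_pos.2 h2)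
  · rintro ⟨t', n⟩ ⟨k, hk⟩ hne
    obtain ⟨hk1, hk2⟩ := (labv _ _ _).1 hk
    have hn : n = -((rq t' k : ℕ) : ℤ) := by linarith
    subst hn
    have hne' : rd v ≠ 4 * ((t' : Fin 842) : ℕ) + k := by
      intro h
      apply hne
      rw [hrd] at h
      have e1 : (tv : ℕ) = ((t' : Fin 842) : ℕ) := by omega
      have e2 : (iv : ℕ) = (k : ℕ) := by omega
      have e1' : tv = t' := Fin.ext e1
      have e2' : iv = k := Fin.ext e2
      rw [← e1', ← e2']
    obtain ⟨j, hj, hjk, hneg⟩ := (spec t' k hk1).2.2.2 hne'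
    refine ⟨⟨j, hj⟩, ?_, ?_⟩
    · intro h
      have hj1 := ((labv _ _ _).1 h).1
      have := comb.lab_inj t' (a₁ := (⟨j, hj⟩ : Fin 4)) (a₂ := k) (hj1.trans hk1.symm)
      exact hjk (congrArg Fin.val this)
    · rw [bcs]
      have h2 := vol0_pos tabQ c2Q t'
      apply div_neg_of_neg_of_pos
      · exact_mod_cast hneg
      · exact_mod_cast h2

end Pool.Agent.Helper842.Seg
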