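import Pool.Agent.Helper842.SegFan

open Set Filter Topology

namespace Pool.Agent.Helper842.Seg

def lc (T t k : ℕ) (w : ℕ → ℤ) : Z3 :=
  (w 0 * (co T t 0 k).1 + w 1 * (co T t 1 k).1 + w 2 * (co T t 2 k).1 + w 3 * (co T t 3 k).1,
   w 0 * (co T t 0 k).2.1 + w 1 * (co T t 1 k).2.1 + w 2 * (co T t 2 k).2.1 + w 3 * (co T t 3 k).2.1,
   w 0 * (co T t 0 k).2.2 + w 1 * (co T t 1 k).2.2 + w 2 * (co T t 2 k).2.2 + w 3 * (co T t 3 k).2.2)

def w4 (a b c d : ℤ) (i : ℕ) : ℤ := if i = 0 then a else if i = 1 then b else if i = 2 then c else d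

def ke (z z' : ℤ) (ta na ia ia' : ℕ) (w : ℕ → ℤ) (tb nb ib ib' : ℕ) (u : ℕ → ℤ) : Bool :=
  (decide (ta < 842) && decide (tb < 842) && decide (ia < 4) && decide (ia' < 4) &&
    decide (ib < 4) && decide (ib' < 4)) &&
  (!decide (ia = ia') && !decide (ib = ib')) &&
  (decide (co tabP ta ia na = (0, 0, z)) && decide (co tabP ta ia' na = (0, 0, z'))) &&
  (decide (rv ta ia = rv tb ib) && decide (rq ta ia + na = rq tb ib + nb) &&
    decide (rv ta ia' = rv tb ib') && decide (rq ta ia' + na = rq tb ib' + nb)) &&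
  (decide (w 0 + w 1 + w 2 + w 3 = 0) && decide (u 0 + u 1 + u 2 + u 3 = 0)) &&
  (allB 4 (fun i => decide (i = ia) || decide (i = ia') || decide (0 ≤ w i)) &&
    allB 4 (fun i => decide (i = ib) || decide (i = ib') || decide (0 ≤ u i))) &&
  (decide (lc tabQ ta na w = lc tabQ tb nb u) && !decide (lc tabP ta na w = lc tabP tb nb u)) &&
  (!(decide ((lc tabP ta na w).1 = 0) && decide ((lc tabP ta na w).2.1 = 0)) &&
    !(decide ((lc tabP tb nb u).1 = 0) && decide ((lc tabP tb nb u).2.1 = 0)))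

theorem cell_co (T : ℕ) (t : Fin 842) (n : ℕ) (i : Fin 4) :
    cell DD (fun v => toE (gv T v)) (t, (n : ℤ)) i = toE (co T t i n) := by
  show (4:ℝ) ^ (((rq t i : ℕ) : ℤ) + (n : ℤ)) • toE (gv T (rv t i)) =
    toE (sc (rq t i + n) (gv T (rv t i)))
  rw [toE_sc]
  norm_cast

theorem sum_lc (T : ℕ) (t : Fin 842) (n : ℕ) (w : ℕ → ℤ) :
    ∑ i : Fin 4, ((w (i : ℕ) : ℤ) : ℝ) • cell DD (fun v => toE (gv T v)) (t, (n : ℤ)) i =
      toE (lc T t n w) := by
  simp only [cell_co, Fin.sum_univ_four]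
  apply E3_ext <;>
    simp only [PiLp.add_apply, PiLp.smul_apply, smul_eq_mul, toE_0, toE_1, toE_2, lc] <;>
    push_cast <;> rfl

theorem toE_inj {a b : Z3} (h : toE a = toE b) : a = b := by
  have h0 := congrArg (fun v : E3 => v 0) h
  have h1 := congrArg (fun v : E3 => v 1) h
  have h2 := congrArg (fun v : E3 => v 2) h
  simp only [toE_0, toE_1, toE_2] at h0 h1 h2
  exact Prod.ext (by exact_mod_cast h0) (Prod.ext (by exact_mod_cast h1) (by exact_mod_cast h2))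

theorem ke_sound (z z' : ℤ) (ta na ia ia' : ℕ) (w : ℕ → ℤ) (tb nb ib ib' : ℕ) (u : ℕ → ℤ)
    (h : ke z z' ta na ia ia' w tb nb ib ib' u = true) :
    ∃ (a b : Fin DD.nt × ℤ) (i i' j j' : Fin 4) (w1 w2 : Fin 4 → ℝ),
      KE DD PP QQ (z : ℝ) (z' : ℝ) a b i i' j j' w1 w2 := by
  unfold ke at h
  rw [Bool.and_eq_true, Bool.and_eq_true, Bool.and_eq_true, Bool.and_eq_true, Bool.and_eq_true,
    Bool.and_eq_true, Bool.and_eq_true] at h
  obtain ⟨⟨⟨⟨⟨⟨⟨hA, hB⟩, hC⟩, hD⟩, hE⟩, hF⟩, hG⟩, hH⟩ := h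
  simp only [Bool.and_eq_true, decide_eq_true_eq] at hA
  obtain ⟨⟨⟨⟨⟨hta, htb⟩, hia⟩, hia'⟩, hib⟩, hib'⟩ := hA
  simp only [Bool.and_eq_true, Bool.not_eq_true', decide_eq_false_iff_not] at hB
  simp only [Bool.and_eq_true, decide_eq_true_eq] at hC
  simp only [Bool.and_eq_true, decide_eq_true_eq] at hD
  simp only [Bool.and_eq_true, decide_eq_true_eq] at hE
  rw [Bool.and_eq_true] at hF
  simp only [Bool.and_eq_true, Bool.not_eq_true', decide_eq_false_iff_not, decide_eq_true_eq] at hG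
  simp only [Bool.and_eq_true, Bool.not_eq_true', Bool.and_eq_false_iff, decide_eq_false_iff_not] at hH
  have hz : ∀ y : ℤ, toE (0, 0, y) = (y : ℝ) • e3 := by
    intro y
    apply E3_ext
    · simp [toE_0, e3_0]
    · simp [toE_1, e3_1]
    · simp [toE_2, e3_2]
  refine ⟨((⟨ta, hta⟩ : Fin 842), (na : ℤ)), ((⟨tb, htb⟩ : Fin 842), (nb : ℤ)), ⟨ia, hia⟩,
    ⟨ia', hia'⟩, ⟨ib, hib⟩, ⟨ib', hib'⟩, fun i => ((w (i : ℕ) : ℤ) : ℝ),
    fun i => ((u (i : ℕ) : ℤ) : ℝ), ?_⟩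
  refine
    { nea := fun h => hB.1 (congrArg Fin.val h)
      neb := fun h => hB.2 (congrArg Fin.val h)
      pa := ?_
      pa' := ?_
      l1 := ?_
      l2 := ?_
      s1 := ?_
      s2 := ?_
      n1 := ?_
      n2 := ?_
      img := ?_
      ne := ?_
      o1 := ?_
      o2 := ?_ }
  · have := cell_co tabP (⟨ta, hta⟩ : Fin 842) na ⟨ia, hia⟩
    rw [← hz z, ← hC.1]
    exact this
  · have := cell_co tabP (⟨ta, hta⟩ : Fin 842) na ⟨ia', hia'⟩
    rw [← hz z', ← hC.2]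
    exact this
  · refine Prod.ext hD.1.1.1 ?_
    show ((rq ta ia : ℕ) : ℤ) + (na : ℤ) = ((rq tb ib : ℕ) : ℤ) + (nb : ℤ)
    have := hD.1.1.2
    zify at this
    exact this
  · refine Prod.ext hD.1.2 ?_
    show ((rq ta ia' : ℕ) : ℤ) + (na : ℤ) = ((rq tb ib' : ℕ) : ℤ) + (nb : ℤ)
    have := hD.2
    zify at this
    exact this
  · rw [Fin.sum_univ_four]
    show ((w 0 : ℤ) : ℝ) + (w 1 : ℤ) + (w 2 : ℤ) + (w 3 : ℤ) = 0
    exact_mod_cast hE.1
  · rw [Fin.sum_univ_four]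
    show ((u 0 : ℤ) : ℝ) + (u 1 : ℤ) + (u 2 : ℤ) + (u 3 : ℤ) = 0
    exact_mod_cast hE.2
  · intro i h1 h2
    have := allB_spec _ _ hF.1 i i.2
    simp only [Bool.or_eq_true, decide_eq_true_eq] at this
    rcases this with (h | h) | h
    · exact absurd (Fin.ext h) h1
    · exact absurd (Fin.ext h) h2
    · exact_mod_cast h
  · intro i h1 h2
    have := allB_spec _ _ hF.2 i i.2
    simp only [Bool.or_eq_true, decide_eq_true_eq] at this
    rcases this with (h | h) | h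
    · exact absurd (Fin.ext h) h1
    · exact absurd (Fin.ext h) h2
    · exact_mod_cast h
  · have e1 := sum_lc tabQ (⟨ta, hta⟩ : Fin 842) na w
    have e2 := sum_lc tabQ (⟨tb, htb⟩ : Fin 842) nb u
    have e3' : lc tabQ (⟨ta, hta⟩ : Fin 842) na w = lc tabQ (⟨tb, htb⟩ : Fin 842) nb u := hG.1
    rw [e3'] at e1
    exact e1.trans e2.symm
  · intro heq
    have e1 := sum_lc tabP (⟨ta, hta⟩ : Fin 842) na w
    have e2 := sum_lc tabP (⟨tb, htb⟩ : Fin 842) nb u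
    exact hG.2 (toE_inj (e1.symm.trans (heq.trans e2)))
  · have e1 : ∑ i : Fin 4, ((w (i : ℕ) : ℤ) : ℝ) • cell DD PP ((⟨ta, hta⟩ : Fin 842), (na : ℤ)) i =
        toE (lc tabP ta na w) := sum_lc tabP (⟨ta, hta⟩ : Fin 842) na w
    rw [e1, toE_0, toE_1]
    rcases hH.1 with h | h
    · exact Or.inl (Int.cast_ne_zero.2 h)
    · exact Or.inr (Int.cast_ne_zero.2 h)
  · have e1 : ∑ i : Fin 4, ((u (i : ℕ) : ℤ) : ℝ) • cell DD PP ((⟨tb, htb⟩ : Fin 842), (nb : ℤ)) i =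
        toE (lc tabP tb nb u) := sum_lc tabP (⟨tb, htb⟩ : Fin 842) nb u
    rw [e1, toE_0, toE_1]
    rcases hH.2 with h | h
    · exact Or.inl (Int.cast_ne_zero.2 h)
    · exact Or.inr (Int.cast_ne_zero.2 h)

theorem k0 : ke 76 91 679 0 1 0 (w4 0 (-25899) 25899 0) 607 0 0 1 (w4 (-29805) 15752 5624 8429) = true := by
  decide +kernel
theorem k1 : ke 91 131 52 0 0 1 (w4 (-8051) 0 0 8051) 462 0 0 1 (w4 (-62832) 12794 41284 8754) = true := by
  decide +kernel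
theorem k2 : ke 131 150 310 0 1 0 (w4 0 (-2847) 2847 0) 145 0 1 0 (w4 (-2459) (-7036) 4238 5257) = true := by
  decide +kernel
theorem k3 : ke 150 172 460 0 0 2 (w4 (-43455) 43455 0 0) 527 0 0 1 (w4 (-5528) (-10327) 6083 9772) = true := by
  decide +kernel
theorem k4 : ke 172 188 240 1 1 0 (w4 0 (-15575) 15575 0) 254 0 0 1 (w4 (-99940) (-42283) 4591 137632) = true := by
  decide +kernel
theorem k5 : ke 188 208 275 0 0 1 (w4 (-24194) 0 0 24194) 243 1 2 0 (w4 (-3558) 399589 (-462959) 66928) = true := by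
  decide +kernel
theorem k6 : ke 208 232 425 1 2 0 (w4 0 1316300 (-1316300) 0) 174 1 2 3 (w4 4554998 1998112 (-6374283) (-178827)) = true := by
  decide +kernel
theorem k7 : ke 232 264 1 1 0 2 (w4 (-138843) 138843 0 0) 604 1 1 0 (w4 (-92227) (-145107) 100224 137110) = true := by
  decide +kernel
theorem k8 : ke 264 304 102 1 0 2 (w4 (-129703) 129703 0 0) 663 1 3 0 (w4 (-1575284) 2334363 96027 (-855106)) = true := by
  decide +kernel

/-- heights of the vertices on the ray -/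
def zn (j : ℕ) : ℤ :=
  if j = 0 then 76 else if j = 1 then 91 else if j = 2 then 131 else if j = 3 then 150 else
  if j = 4 then 172 else if j = 5 then 188 else if j = 6 then 208 else if j = 7 then 232 else
  if j = 8 then 264 else 304

theorem ke_all (j : ℕ) (hj : j < 9) : ∃ (a b : Fin DD.nt × ℤ) (i i' k k' : Fin 4)
    (w1 w2 : Fin 4 → ℝ), KE DD PP QQ (zn j : ℝ) (zn (j + 1) : ℝ) a b i i' k k' w1 w2 := by
  interval_cases j
  · exact ke_sound _ _ _ _ _ _ _ _ _ _ _ _ k0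
  · exact ke_sound _ _ _ _ _ _ _ _ _ _ _ _ k1
  · exact ke_sound _ _ _ _ _ _ _ _ _ _ _ _ k2
  · exact ke_sound _ _ _ _ _ _ _ _ _ _ _ _ k3
  · exact ke_sound _ _ _ _ _ _ _ _ _ _ _ _ k4
  · exact ke_sound _ _ _ _ _ _ _ _ _ _ _ _ k5
  · exact ke_sound _ _ _ _ _ _ _ _ _ _ _ _ k6
  · exact ke_sound _ _ _ _ _ _ _ _ _ _ _ _ k7
  · exact ke_sound _ _ _ _ _ _ _ _ _ _ _ _ k8

theorem ray_NI (x : E3) (hx : x ∈ SegM.ray e3) : NI (fmap DD PP QQ) e3 x := by
  refine all_NI comb geomP domOK 9 (fun j => (zn j : ℝ)) ?_ ?_ ?_ ke_all x hx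
  · norm_num [zn]
  · norm_num [zn]
  · intro j hj
    interval_cases j <;> norm_num [zn]

end Pool.Agent.Helper842.Seg
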