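import Pool.Agent.Helper842.SegMap

open Set Filter Topology

namespace Pool.Agent.Helper842.Seg

/-- near a point with positive coordinate at the label `l` all cells contain `l` -/
theorem near_star {D : Dat} {P : ℕ → E3} (hC : Comb D) (hP : Geom D P) (hD : DomOK D P)
    (x : E3) (hx : x ≠ 0) (l : ℕ × ℤ) (a : Fin D.nt × ℤ) (ha : ∀ i, 0 ≤ bc (cell D P a) i x)
    (i0 : Fin 4) (hi0 : lab D a i0 = l) (hpos : 0 < bc (cell D P a) i0 x) :
    ∃ (W : Set E3) (S : Finset (Fin D.nt × ℤ)), W ∈ 𝓝 x ∧ (∀ y ∈ W, y ≠ 0) ∧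
      (∀ b ∈ S, ∃ i, lab D b i = l) ∧
      ∀ y ∈ W, ∃ b ∈ S, ∀ i, 0 ≤ bc (cell D P b) i y := by
  classical
  obtain ⟨W0, hW0, hfin⟩ := dom_lf D P hC hP hD.half x hx
  set S0 := hfin.toFinset with hS0
  have hmem : ∀ b, b ∈ S0 ↔ ∃ z ∈ W0, ∀ i, 0 ≤ bc (cell D P b) i z := by
    intro b
    rw [hS0, Set.Finite.mem_toFinset]
    constructor
    · rintro ⟨-, z, hz, h⟩
      exact ⟨z, hz, fun i => h i (Finset.mem_univ _)⟩
    · rintro ⟨z, hz, h⟩
      exact ⟨mem_univ _, z, hz, fun i _ => h i⟩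
  have hsum : ∀ b : Fin D.nt × ℤ, (¬ ∃ i, lab D b i = l) → ¬ ∀ i, 0 ≤ bc (cell D P b) i x := by
    intro b hb hbx
    have hu := (dom_cover D P hC hP hD.half hD.test).2 x hx a b ha hbx l
    have h1 : (∑ i, if lab D b i = l then bc (cell D P b) i x else 0) = 0 := by
      refine Finset.sum_eq_zero fun i _ => ?_
      rw [if_neg]
      exact fun h => hb ⟨i, h⟩
    have h2 : 0 < ∑ i, if lab D a i = l then bc (cell D P a) i x else 0 := by
      refine Finset.sum_pos' (fun i _ => ?_) ⟨i0, Finset.mem_univ _, ?_⟩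
      · split_ifs
        · exact ha i
        · exact le_rfl
      · rw [if_pos hi0]; exact hpos
    rw [hu, h1] at h2
    exact lt_irrefl _ h2
  refine ⟨W0 ∩ {0}ᶜ ∩ ⋂ b ∈ S0.filter (fun b => ¬ ∃ i, lab D b i = l),
    {z | ∀ i, 0 ≤ bc (cell D P b) i z}ᶜ, S0.filter (fun b => ∃ i, lab D b i = l), ?_, ?_, ?_, ?_⟩
  · refine inter_mem (inter_mem hW0 (isOpen_compl_singleton.mem_nhds hx)) ?_
    refine (Filter.biInter_finset_mem _).2 fun b hb => ?_
    rw [Finset.mem_filter] at hb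
    exact (cell_closed D P b).isOpen_compl.mem_nhds (hsum b hb.2)
  · intro y hy
    exact hy.1.2
  · intro b hb
    exact (Finset.mem_filter.1 hb).2
  · intro y hy
    obtain ⟨b, hb⟩ := (dom_cover D P hC hP hD.half hD.test).1 y hy.1.2
    have hbS : b ∈ S0 := (hmem b).2 ⟨y, hy.1.1, hb⟩
    refine ⟨b, Finset.mem_filter.2 ⟨hbS, ?_⟩, hb⟩
    by_contra hno
    have := mem_iInter₂.1 hy.2 b (Finset.mem_filter.2 ⟨hbS, hno⟩)
    exact this hb

/-- a chart from a pair of mutually inverse maps -/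
theorem chart_of_inverse (f h : E3 → E3) (B Z : Set E3) (hB : IsOpen B) (hZ : IsOpen Z)
    (hf : ContinuousOn f B) (hh : Continuous h) (h1 : ∀ y ∈ B, h (f y) = y)
    (h2 : ∀ z ∈ Z, f (h z) = z) (x : E3) (hx : x ∈ B) (hfx : f x ∈ Z) :
    ∃ e : OpenPartialHomeomorph E3 E3, x ∈ e.source ∧ f = e := by
  have hsrc : IsOpen (B ∩ f ⁻¹' Z) := hf.isOpen_inter_preimage hB hZ
  have htgt : IsOpen (Z ∩ h ⁻¹' B) := hZ.inter (hB.preimage hh)
  let e : OpenPartialHomeomorph E3 E3 :=
    { toFun := f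
      invFun := h
      source := B ∩ f ⁻¹' Z
      target := Z ∩ h ⁻¹' B
      map_source' := by
        rintro y ⟨hyB, hyZ⟩
        exact ⟨hyZ, by rw [mem_preimage, h1 y hyB]; exact hyB⟩
      map_target' := by
        rintro z ⟨hzZ, hzB⟩
        exact ⟨hzB, by rw [mem_preimage, h2 z hzZ]; exact hzZ⟩
      left_inv' := fun y hy => h1 y hy.1
      right_inv' := fun z hz => h2 z hz.1
      open_source := hsrc
      open_target := htgt
      continuousOn_toFun := hf.mono inter_subset_left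
      continuousOn_invFun := hh.continuousOn }
  exact ⟨e, ⟨hx, hfx⟩, rfl⟩

theorem target_nhd {D : Dat} {P Q : ℕ → E3} (hC : Comb D) (hP : Geom D P) (hQ : Geom D Q)
    (hD : DomOK D P) (x : E3) (hx : x ≠ 0) (l : ℕ × ℤ) (hF : FanOK D Q l)
    (a : Fin D.nt × ℤ) (ha : ∀ i, 0 ≤ bc (cell D P a) i x)
    (i0 : Fin 4) (hi0 : lab D a i0 = l) (hpos : 0 < bc (cell D P a) i0 x) :
    ∃ Z ∈ 𝓝 (fmap D P Q x), ∀ z ∈ Z, fmap D P Q (hmap D P Q l z) = z := by
  classical
  have hfx : fmap D P Q x = gmap D P Q a x := fmap_spec Q hC hP hD x hx a ha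
  have hbc : ∀ i, bc (cell D Q a) i (fmap D P Q x) = bc (cell D P a) i x := by
    intro i
    rw [hfx]
    exact bc_gmap hP hQ a x i
  set S := (star_finite D l).toFinset with hS
  -- positivity of the coordinate at `l` for all cones containing `f x`
  have key : ∀ b : Fin D.nt × ℤ, (∃ i, lab D b i = l) →
      (∀ i, lab D b i ≠ l → 0 ≤ bc (cell D Q b) i (fmap D P Q x)) →
      ∀ i, lab D b i = l → 0 < bc (cell D Q b) i (fmap D P Q x) := by
    intro b hb hcone i hi
    have hu := (fan_cover D Q hC hQ l hF).2 (fmap D P Q x) a b ⟨i0, hi0⟩ hb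
      (fun j _ => by rw [hbc]; exact ha j) hcone
    have h2 := sum_of_bl _ _ _ _ _ _ hu (fun _ => (1:ℝ))
    simp only [smul_eq_mul, mul_one] at h2
    have hb1 := bc_sum (cell D Q b) (vol_cell hQ b).ne' (fmap D P Q x)
    have ha1 := bc_sum (cell D Q a) (vol_cell hQ a).ne' (fmap D P Q x)
    have filt : ∀ (c : Fin D.nt × ℤ) (k : Fin 4), lab D c k = l →
        (∑ j ∈ Finset.univ.filter (fun j => lab D c j ≠ l), bc (cell D Q c) j (fmap D P Q x))
          + bc (cell D Q c) k (fmap D P Q x) = ∑ j, bc (cell D Q c) j (fmap D P Q x) := by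
      intro c k hk
      rw [← Finset.sum_filter_add_sum_filter_not Finset.univ (fun j => lab D c j ≠ l)]
      congr 1
      have : Finset.univ.filter (fun j => ¬ lab D c j ≠ l) = {k} := by
        ext j
        simp only [Finset.mem_filter, Finset.mem_univ, true_and, not_not, Finset.mem_singleton]
        constructor
        · intro h
          exact (mkCx D Q hC hQ).lab_inj c (h.trans hk.symm)
        · rintro rfl; exact hk
      rw [this, Finset.sum_singleton]
    have e1 := filt a i0 hi0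
    have e2 := filt b i hi
    rw [ha1] at e1
    rw [hb1] at e2
    have : bc (cell D Q b) i (fmap D P Q x) = bc (cell D Q a) i0 (fmap D P Q x) := by linarith
    rw [this, hbc]
    exact hpos
  obtain ⟨r, R, hr, hR, hbd⟩ := cell_bounds D P hP hD.half
  let Zb : Fin D.nt × ℤ → Set E3 := fun b =>
    if (∀ i, lab D b i ≠ l → 0 ≤ bc (cell D Q b) i (fmap D P Q x)) then
      {z | ∀ i, lab D b i = l → 0 < bc (cell D Q b) i z}
    else {z | ∀ i, lab D b i ≠ l → 0 ≤ bc (cell D Q b) i z}ᶜ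
  refine ⟨⋂ b ∈ S, Zb b, ?_, ?_⟩
  · refine (Filter.biInter_finset_mem _).2 fun b hb => ?_
    have hb' : ∃ i, lab D b i = l := by simpa [hS] using hb
    by_cases hc : ∀ i, lab D b i ≠ l → 0 ≤ bc (cell D Q b) i (fmap D P Q x)
    · simp only [Zb, if_pos hc]
      have hopen : IsOpen {z | ∀ i, lab D b i = l → 0 < bc (cell D Q b) i z} := by
        simp only [ofPred_forall]
        exact isOpen_iInter_of_finite fun i => isOpen_iInter_of_finite fun _ =>
          isOpen_lt continuous_const (bc_cont _ _)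
      exact hopen.mem_nhds (key b hb' hc)
    · simp only [Zb, if_neg hc]
      exact (cone_closed D Q l b).isOpen_compl.mem_nhds hc
  · intro z hz
    obtain ⟨b, hb, hbz⟩ := (fan_cover D Q hC hQ l hF).1 z
    have hbS : b ∈ S := by simpa [hS] using hb
    have h1 := mem_iInter₂.1 hz b hbS
    have hc : ∀ i, lab D b i ≠ l → 0 ≤ bc (cell D Q b) i (fmap D P Q x) := by
      by_contra hno
      simp only [Zb, if_neg hno] at h1
      exact h1 hbz
    simp only [Zb, if_pos hc] at h1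
    have hall : ∀ i, 0 ≤ bc (cell D Q b) i z := by
      intro i
      by_cases hi : lab D b i = l
      · exact (h1 i hi).le
      · exact hbz i hi
    rw [hmap_spec P hC hQ l hF z b hb hbz]
    have hy : ∀ i, 0 ≤ bc (cell D P b) i (gmap D Q P b z) := by
      intro i
      rw [bc_gmap hQ hP]
      exact hall i
    have hy0 : gmap D Q P b z ≠ 0 := by
      have := (cell_bounds' D P r R hbd b _ hy).1
      intro h0
      rw [h0, norm_zero] at this
      have : 0 < r * (4:ℝ) ^ b.2 := by positivity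
      linarith
    rw [fmap_spec Q hC hP hD _ hy0 b hy]
    exact gmap_gmap hQ hP b z

/-- the local structure of `fmap` near a point with positive coordinate at a good label -/
theorem local_main {D : Dat} {P Q : ℕ → E3} (hC : Comb D) (hP : Geom D P) (hQ : Geom D Q)
    (hD : DomOK D P) (x : E3) (hx : x ≠ 0) (l : ℕ × ℤ) (hF : FanOK D Q l)
    (a : Fin D.nt × ℤ) (ha : ∀ i, 0 ≤ bc (cell D P a) i x)
    (i0 : Fin 4) (hi0 : lab D a i0 = l) (hpos : 0 < bc (cell D P a) i0 x)
    (K : NNReal) (hK : ∀ a, LipschitzWith K (gmap D P Q a))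
    (hK' : ∀ a, LipschitzWith K (gmap D Q P a)) :
    (∃ e : OpenPartialHomeomorph E3 E3, x ∈ e.source ∧ fmap D P Q = e) ∧
    ∃ W ∈ 𝓝 x, ∀ y ∈ W, ∀ z ∈ W, dist y z ≤ K * dist (fmap D P Q y) (fmap D P Q z) ∧
      dist (fmap D P Q y) (fmap D P Q z) ≤ K * dist y z := by
  obtain ⟨W, S, hW, hW0, hSl, hWS⟩ := near_star hC hP hD x hx l a ha i0 hi0 hpos
  obtain ⟨ε, hε, hball⟩ := Metric.mem_nhds_iff.1 hW
  have hinv : ∀ y ∈ Metric.ball x ε, hmap D P Q l (fmap D P Q y) = y := by
    intro y hy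
    obtain ⟨b, hb, hby⟩ := hWS y (hball hy)
    rw [fmap_spec Q hC hP hD y (hW0 y (hball hy)) b hby]
    rw [hmap_spec P hC hQ l hF _ b (hSl b hb) (fun i _ => by rw [bc_gmap hP hQ]; exact hby i)]
    exact gmap_gmap hP hQ b y
  have hlip : LipschitzOnWith K (fmap D P Q) (Metric.ball x ε) := by
    refine lip_of_cover _ (convex_ball x ε) S (fun b => {z | ∀ i, 0 ≤ bc (cell D P b) i z})
      (fun b _ => cell_closed D P b) (fun b _ => cell_convex D P b) ?_ _ K ?_
    · intro y hy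
      obtain ⟨b, hb, hby⟩ := hWS y (hball hy)
      simp only [mem_iUnion]
      exact ⟨b, hb, hby⟩
    · intro b _ y hy z hz
      rw [fmap_spec Q hC hP hD y (hW0 y (hball hy.2)) b hy.1,
        fmap_spec Q hC hP hD z (hW0 z (hball hz.2)) b hz.1]
      exact hK b y z
  have hhl := hmap_lip P hC hQ l hF K hK'
  obtain ⟨Z, hZ, hZinv⟩ := target_nhd hC hP hQ hD x hx l hF a ha i0 hi0 hpos
  obtain ⟨Z', hZ'Z, hZ'o, hxZ'⟩ := mem_nhds_iff.1 hZ
  refine ⟨chart_of_inverse _ (hmap D P Q l) (Metric.ball x ε) Z' Metric.isOpen_ball hZ'o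
    hlip.continuousOn hhl.continuous hinv (fun z hz => hZinv z (hZ'Z hz)) x
    (Metric.mem_ball_self hε) hxZ', Metric.ball x ε, Metric.ball_mem_nhds x hε, ?_⟩
  intro y hy z hz
  refine ⟨?_, hlip.dist_le_mul y hy z hz⟩
  have := hhl.dist_le_mul (fmap D P Q y) (fmap D P Q z)
  rwa [hinv y hy, hinv z hz] at this

end Pool.Agent.Helper842.Seg
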