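import Pool.Agent.Helper842.SegKE
import Pool.Agent.Helper842.SegMoeb

open Set Filter Topology MeasureTheory

namespace Pool.Agent.Helper842.Seg

theorem c7 : allB 842 (fun t => allB 4 (fun i => decide (rv t i < 140))) = true := by
  decide +kernel

theorem rv_lt (t : Fin 842) (i : Fin 4) : rv t i < 140 := by
  have := allB_spec _ _ (allB_spec _ _ c7 t t.2) i i.2
  simpa using this

/-- the piecewise affine map of the whole space -/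
noncomputable def F : E3 → E3 := fmap DD PP QQ

theorem F_off : ∃ K : ℝ, 0 < K ∧ IsLocalHomeomorphOn F (SegM.ray e3)ᶜ ∧
      ∀ x, x ∉ SegM.ray e3 → ∃ W ∈ 𝓝 x, ∀ y ∈ W, ∀ z ∈ W,
        dist y z ≤ K * dist (F y) (F z) ∧ dist (F y) (F z) ≤ K * dist y z :=
  off_ray comb geomP geomQ domOK e3 (fun v => 131 ≤ v ∧ v < 140)
    (fun v hv => rayV v hv.1 hv.2)
    (fun t i h => fanOK t i (fun h1 => h ⟨h1, rv_lt t i⟩))

/-- the map off the segment -/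
noncomputable def G (y : E3) : E3 := F (SegM.phi e3 y)

theorem main : IsLocalHomeomorphOn G (segment ℝ 0 e3)ᶜ ∧
    LocallyLipschitzOn (segment ℝ 0 e3)ᶜ G ∧
    (∃ K : ℝ, ∀ᵐ x ∂(volume.restrict (segment ℝ (0 : E3) e3)ᶜ), DifferentiableAt ℝ G x ∧
      ∃ m : ℝ, 0 < m ∧ ∀ v, m * ‖v‖ ≤ ‖fderiv ℝ G x v‖ ∧ ‖fderiv ℝ G x v‖ ≤ K * m * ‖v‖) ∧
    ∀ p ∈ segment ℝ 0 e3, ∀ V ∈ 𝓝 p, ∃ y ∈ V, ∃ z ∈ V, y ∉ segment ℝ 0 e3 ∧
      z ∉ segment ℝ 0 e3 ∧ y ≠ z ∧ G y = G z := by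
  obtain ⟨K, hK, h1, h2⟩ := F_off
  obtain ⟨g1, g2, g3⟩ := SegM.transfer e3 norm_e3 F K hK h1 h2 (fun x hx => ray_NI x hx)
  have hcl : IsClosed (segment ℝ (0 : E3) e3) := by
    rw [segment_eq_image]
    exact (isCompact_Icc.image (by fun_prop)).isClosed
  obtain ⟨a1, a2⟩ := SegM.ae_distortion G (segment ℝ (0 : E3) e3)ᶜ hcl.isOpen_compl (4 * K ^ 2)
    (fun x hx => g2 x hx)
  exact ⟨g1, a1, ⟨_, a2⟩, g3⟩

theorem e3_ne : (0 : E3) ≠ e3 := by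
  intro h
  have := norm_e3
  rw [← h, norm_zero] at this
  exact zero_ne_one this

end Pool.Agent.Helper842.Seg
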