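import Pool.Agent.Helper842.SegCore

open Set Filter Topology

namespace Pool.Agent.Helper842.Seg

/-- the affine map of the cell `a` sending the corners at `P` to the corners at `Q` -/
noncomputable def gmap (D : Dat) (P Q : ℕ → E3) (a : Fin D.nt × ℤ) (x : E3) : E3 :=
  ∑ i, bc (cell D P a) i x • cell D Q a i

theorem bc_gmap {D : Dat} {P Q : ℕ → E3} (hP : Geom D P) (hQ : Geom D Q) (a : Fin D.nt × ℤ)
    (x : E3) (i : Fin 4) : bc (cell D Q a) i (gmap D P Q a x) = bc (cell D P a) i x :=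
  bc_uniq _ (vol_cell hQ a).ne' (fun i => bc (cell D P a) i x) _
    (bc_sum _ (vol_cell hP a).ne' x) rfl i

theorem gmap_gmap {D : Dat} {P Q : ℕ → E3} (hP : Geom D P) (hQ : Geom D Q) (a : Fin D.nt × ℤ)
    (x : E3) : gmap D Q P a (gmap D P Q a x) = x := by
  show ∑ i, bc (cell D Q a) i (gmap D P Q a x) • cell D P a i = x
  simp_rw [bc_gmap hP hQ]
  exact bc_comb _ (vol_cell hP a).ne' x

theorem gmap_scale (D : Dat) (P Q : ℕ → E3) (t : Fin D.nt) (n : ℤ) (x : E3) :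
    gmap D P Q (t, n) x = (4:ℝ) ^ n • gmap D P Q (t, 0) (((4:ℝ) ^ n)⁻¹ • x) := by
  have h4 : (0:ℝ) < (4:ℝ) ^ n := by positivity
  have hs := bc_cell_scale D P t n 0
  simp only [add_zero] at hs
  show ∑ i, bc (cell D P (t, n)) i x • cell D Q (t, n) i =
    (4:ℝ) ^ n • ∑ i, bc (cell D P (t, 0)) i (((4:ℝ) ^ n)⁻¹ • x) • cell D Q (t, 0) i
  rw [Finset.smul_sum]
  refine Finset.sum_congr rfl fun i _ => ?_
  have e1 : bc (cell D P (t, 0)) i (((4:ℝ) ^ n)⁻¹ • x) = bc (cell D P (t, n)) i x := by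
    rw [← hs i, smul_smul, mul_inv_cancel₀ h4.ne', one_smul]
  rw [e1, cell_scale0 D Q t n]
  exact smul_comm _ _ _

theorem aff_lip (p q : Fin 4 → E3) : ∃ K : NNReal, LipschitzWith K (fun x => ∑ i, bc p i x • q i) := by
  set g : E3 → E3 := fun x => ∑ i, bc p i x • q i with hg
  have hc : Continuous g := by
    rw [hg]
    exact continuous_finset_sum _ fun i _ => (bc_cont p i).smul continuous_const
  have ha : ∀ (x y : E3) (t : ℝ), g ((1 - t) • x + t • y) = (1 - t) • g x + t • g y := by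
    intro x y t
    simp only [hg, bc_aff, add_smul, Finset.sum_add_distrib, Finset.smul_sum, mul_smul]
  have hmid : ∀ x y, g (midpoint ℝ x y) = midpoint ℝ (g x) (g y) := by
    intro x y
    have e : ∀ u v : E3, midpoint ℝ u v = (1 - (1/2:ℝ)) • u + (1/2:ℝ) • v := by
      intro u v
      rw [midpoint_eq_smul_add, smul_add]
      norm_num
    rw [e, e, ha]
  let A : E3 →ᵃ[ℝ] E3 := AffineMap.ofMapMidpoint g hmid hc
  have hA : ∀ x, A x = g x := fun x => rfl
  let L : E3 →L[ℝ] E3 := LinearMap.toContinuousLinearMap A.linear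
  refine ⟨‖L‖₊, LipschitzWith.of_dist_le_mul fun x y => ?_⟩
  have h1 : g x - g y = L (x - y) := by
    rw [← hA, ← hA]
    have h2 := A.linearMap_vsub x y
    show A x - A y = A.linear (x - y)
    exact h2.symm
  rw [dist_eq_norm, dist_eq_norm, h1]
  exact L.le_opNorm _

theorem unif_lip (D : Dat) (P Q : ℕ → E3) :
    ∃ K : NNReal, ∀ a, LipschitzWith K (gmap D P Q a) := by
  have key : ∀ t, ∃ K : NNReal, LipschitzWith K (gmap D P Q (t, 0)) := fun t => aff_lip _ _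
  choose K hK using key
  obtain ⟨R, hR, hR'⟩ := exists_ub (fun t => (K t : ℝ))
  refine ⟨R.toNNReal, fun a => LipschitzWith.of_dist_le_mul fun x y => ?_⟩
  rw [Real.coe_toNNReal R hR.le]
  obtain ⟨t, n⟩ := a
  have h4 : (0:ℝ) < (4:ℝ) ^ n := by positivity
  rw [gmap_scale D P Q t n x, gmap_scale D P Q t n y, dist_smul₀, Real.norm_of_nonneg h4.le]
  have h1 := (hK t).dist_le_mul (((4:ℝ) ^ n)⁻¹ • x) (((4:ℝ) ^ n)⁻¹ • y)
  rw [dist_smul₀, norm_inv, Real.norm_of_nonneg h4.le] at h1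
  calc (4:ℝ) ^ n * dist (gmap D P Q (t, 0) (((4:ℝ) ^ n)⁻¹ • x)) (gmap D P Q (t, 0) (((4:ℝ) ^ n)⁻¹ • y))
      ≤ (4:ℝ) ^ n * (K t * (((4:ℝ) ^ n)⁻¹ * dist x y)) := mul_le_mul_of_nonneg_left h1 h4.le
    _ = K t * dist x y := by field_simp
    _ ≤ R * dist x y := mul_le_mul_of_nonneg_right (hR' t) dist_nonneg

/-- hypotheses on the domain triangulation -/
structure DomOK (D : Dat) (P : ℕ → E3) : Prop where
  half : ∀ t, ∃ w : E3, ∀ i, 0 < inner ℝ w (pos P (D.vert t i, D.ql t i))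
  test : ∃ (a0 : Fin D.nt × ℤ) (x0 : E3), x0 ≠ 0 ∧ (∀ i, 0 < bc (cell D P a0) i x0) ∧
      ∀ a, a ≠ a0 → ∃ i, bc (cell D P a) i x0 < 0

/-- hypothesis on the target fan at the label `l` -/
def FanOK (D : Dat) (Q : ℕ → E3) (l : ℕ × ℤ) : Prop :=
  ∃ (a0 : Fin D.nt × ℤ) (x0 : E3), (∃ i, lab D a0 i = l) ∧
      (∀ i, lab D a0 i ≠ l → 0 < bc (cell D Q a0) i x0) ∧
      ∀ a, (∃ i, lab D a i = l) → a ≠ a0 → ∃ i, lab D a i ≠ l ∧ bc (cell D Q a) i x0 < 0

open Classical in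
/-- the piecewise affine map -/
noncomputable def fmap (D : Dat) (P Q : ℕ → E3) (x : E3) : E3 :=
  if h : ∃ a, ∀ i, 0 ≤ bc (cell D P a) i x then gmap D P Q h.choose x else 0

theorem fmap_spec {D : Dat} {P : ℕ → E3} (Q : ℕ → E3) (hC : Comb D) (hP : Geom D P)
    (hD : DomOK D P) (x : E3) (hx : x ≠ 0) (a : Fin D.nt × ℤ)
    (ha : ∀ i, 0 ≤ bc (cell D P a) i x) : fmap D P Q x = gmap D P Q a x := by
  have h : ∃ a, ∀ i, 0 ≤ bc (cell D P a) i x := ⟨a, ha⟩
  unfold fmap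
  rw [dif_pos h]
  have hu := (dom_cover D P hC hP hD.half hD.test).2 x hx h.choose a h.choose_spec ha
  exact sum_of_bl Finset.univ Finset.univ _ _ _ _ hu (pos Q)

open Classical in
/-- the piecewise affine map from the target fan at `l` to the domain -/
noncomputable def hmap (D : Dat) (P Q : ℕ → E3) (l : ℕ × ℤ) (z : E3) : E3 :=
  if h : ∃ a, (∃ i, lab D a i = l) ∧ ∀ i, lab D a i ≠ l → 0 ≤ bc (cell D Q a) i z
  then gmap D Q P h.choose z else 0

theorem hmap_spec {D : Dat} (P : ℕ → E3) {Q : ℕ → E3} (hC : Comb D) (hQ : Geom D Q)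
    (l : ℕ × ℤ) (hF : FanOK D Q l) (z : E3) (a : Fin D.nt × ℤ) (hal : ∃ i, lab D a i = l)
    (ha : ∀ i, lab D a i ≠ l → 0 ≤ bc (cell D Q a) i z) : hmap D P Q l z = gmap D Q P a z := by
  have h : ∃ a, (∃ i, lab D a i = l) ∧ ∀ i, lab D a i ≠ l → 0 ≤ bc (cell D Q a) i z := ⟨a, hal, ha⟩
  unfold hmap
  rw [dif_pos h]
  have hu := (fan_cover D Q hC hQ l hF).2 z h.choose a h.choose_spec.1 hal h.choose_spec.2 ha
  have h1 := sum_of_bl _ _ _ _ _ _ hu (pos P)
  have h2 := sum_of_bl _ _ _ _ _ _ hu (fun _ => (1:ℝ))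
  have key : ∀ b : Fin D.nt × ℤ, gmap D Q P b z =
      ∑ i ∈ Finset.univ.filter (fun i => lab D b i ≠ l), bc (cell D Q b) i z • pos P (lab D b i)
      + (1 - ∑ i ∈ Finset.univ.filter (fun i => lab D b i ≠ l), bc (cell D Q b) i z • (1:ℝ)) •
        pos P l := by
    intro b
    have e1 : (1 - ∑ i ∈ Finset.univ.filter (fun i => lab D b i ≠ l), bc (cell D Q b) i z • (1:ℝ))
        = ∑ i ∈ Finset.univ.filter (fun i => ¬ lab D b i ≠ l), bc (cell D Q b) i z := by
      have := bc_sum (cell D Q b) (vol_cell hQ b).ne' z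
      rw [← Finset.sum_filter_add_sum_filter_not Finset.univ (fun i => lab D b i ≠ l)] at this
      simp only [smul_eq_mul, mul_one]
      linarith
    rw [e1, Finset.sum_smul]
    show ∑ i, bc (cell D Q b) i z • cell D P b i = _
    rw [← Finset.sum_filter_add_sum_filter_not Finset.univ (fun i => lab D b i ≠ l)]
    congr 1
    refine Finset.sum_congr rfl fun i hi => ?_
    have : lab D b i = l := by simpa using hi
    simp only [cell, this]
  rw [key, key, h1, h2]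

theorem cone_closed (D : Dat) (Q : ℕ → E3) (l : ℕ × ℤ) (a : Fin D.nt × ℤ) :
    IsClosed {z | ∀ i, lab D a i ≠ l → 0 ≤ bc (cell D Q a) i z} := by
  simp only [ofPred_forall]
  exact isClosed_iInter fun i => isClosed_iInter fun _ =>
    isClosed_le continuous_const (bc_cont _ _)

theorem cell_closed (D : Dat) (P : ℕ → E3) (a : Fin D.nt × ℤ) :
    IsClosed {z | ∀ i, 0 ≤ bc (cell D P a) i z} := by
  simp only [ofPred_forall]
  exact isClosed_iInter fun i => isClosed_le continuous_const (bc_cont _ _)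

theorem cone_convex (D : Dat) (Q : ℕ → E3) (l : ℕ × ℤ) (a : Fin D.nt × ℤ) :
    Convex ℝ {z | ∀ i, lab D a i ≠ l → 0 ≤ bc (cell D Q a) i z} := by
  intro x hx y hy s t hs ht hst i hi
  have : s = 1 - t := by linarith
  subst this
  rw [bc_aff]
  exact add_nonneg (mul_nonneg hs (hx i hi)) (mul_nonneg ht (hy i hi))

theorem cell_convex (D : Dat) (P : ℕ → E3) (a : Fin D.nt × ℤ) :
    Convex ℝ {z | ∀ i, 0 ≤ bc (cell D P a) i z} := by
  intro x hx y hy s t hs ht hst i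
  have : s = 1 - t := by linarith
  subst this
  rw [bc_aff]
  exact add_nonneg (mul_nonneg hs (hx i)) (mul_nonneg ht (hy i))

theorem hmap_lip {D : Dat} (P : ℕ → E3) {Q : ℕ → E3} (hC : Comb D) (hQ : Geom D Q)
    (l : ℕ × ℤ) (hF : FanOK D Q l) (K : NNReal) (hK : ∀ a, LipschitzWith K (gmap D Q P a)) :
    LipschitzWith K (hmap D P Q l) := by
  rw [← lipschitzOnWith_univ]
  refine lip_of_cover univ convex_univ (star_finite D l).toFinset
    (fun a => {z | ∀ i, lab D a i ≠ l → 0 ≤ bc (cell D Q a) i z})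
    (fun a _ => cone_closed D Q l a) (fun a _ => cone_convex D Q l a) ?_ _ K ?_
  · intro z _
    obtain ⟨a, ha, ha2⟩ := (fan_cover D Q hC hQ l hF).1 z
    simp only [mem_iUnion]
    exact ⟨a, by simpa using ha, ha2⟩
  · intro a ha
    have ha' : ∃ i, lab D a i = l := by simpa using ha
    intro x hx y hy
    rw [hmap_spec P hC hQ l hF x a ha' hx.1, hmap_spec P hC hQ l hF y a ha' hy.1]
    exact hK a x y

end Pool.Agent.Helper842.Seg
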