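import Pool.Agent.Helper842.SegLoc

open Set Filter Topology

namespace Pool.Agent.Helper842.Seg

open Pool.Agent.Helper842.SegM (ray)

theorem fan_shift {D : Dat} {Q : ℕ → E3} (v : ℕ) (m : ℤ) (h : FanOK D Q (v, 0)) :
    FanOK D Q (v, m) := by
  obtain ⟨⟨t0, n0⟩, x0, ⟨i0, hi0⟩, hin, hout⟩ := h
  have lab_iff : ∀ (t : Fin D.nt) (n : ℤ) (i : Fin 4),
      lab D (t, m + n) i = (v, m) ↔ lab D (t, n) i = (v, 0) := by
    intro t n i
    simp only [lab, Prod.mk.injEq]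
    constructor <;> rintro ⟨h1, h2⟩ <;> exact ⟨h1, by linarith⟩
  refine ⟨(t0, m + n0), (4:ℝ) ^ m • x0, ⟨i0, (lab_iff _ _ _).2 hi0⟩, ?_, ?_⟩
  · intro i hi
    rw [bc_cell_scale]
    exact hin i (fun h => hi ((lab_iff _ _ _).2 h))
  · rintro ⟨t, n⟩ ⟨j, hj⟩ hne
    have hn : n = m + (n - m) := by ring
    rw [hn] at hj hne ⊢
    obtain ⟨i, hi, hneg⟩ := hout (t, n - m) ⟨j, (lab_iff _ _ _).1 hj⟩ (by
      intro h
      apply hne
      rw [Prod.mk.injEq] at h ⊢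
      exact ⟨h.1, by rw [h.2]⟩)
    exact ⟨i, fun h => hi ((lab_iff _ _ _).1 h), by rw [bc_cell_scale]; exact hneg⟩

/-- a corner off the ray with positive coordinate -/
theorem good_corner {D : Dat} {P : ℕ → E3} (hP : Geom D P) (e : E3) (isK : ℕ → Prop)
    (hK : ∀ v, isK v → ∃ s : ℝ, 0 ≤ s ∧ P v = s • e) (x : E3) (hx : x ∉ ray e)
    (a : Fin D.nt × ℤ) (ha : ∀ i, 0 ≤ bc (cell D P a) i x) :
    ∃ i, ¬ isK (D.vert a.1 i) ∧ 0 < bc (cell D P a) i x := by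
  by_contra hno
  push Not at hno
  apply hx
  have hc := bc_comb _ (vol_cell hP a).ne' x
  have key : ∀ i, ∃ s : ℝ, 0 ≤ s ∧ bc (cell D P a) i x • cell D P a i = s • e := by
    intro i
    by_cases hi : isK (D.vert a.1 i)
    · obtain ⟨s, hs, hPs⟩ := hK _ hi
      refine ⟨bc (cell D P a) i x * ((4:ℝ) ^ (D.ql a.1 i + a.2) * s), ?_, ?_⟩
      · have := ha i
        positivity
      · show bc (cell D P a) i x • ((4:ℝ) ^ (D.ql a.1 i + a.2) • P (D.vert a.1 i)) = _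
        rw [hPs, smul_smul, smul_smul, mul_assoc]
    · have h0 := le_antisymm (hno i hi) (ha i)
      exact ⟨0, le_rfl, by rw [h0, zero_smul, zero_smul]⟩
  choose s hs hse using key
  refine ⟨∑ i, s i, Finset.sum_nonneg fun i _ => hs i, ?_⟩
  conv_lhs => rw [← hc]
  rw [Finset.sum_smul]
  exact Finset.sum_congr rfl fun i _ => hse i

theorem zero_mem_ray (e : E3) : (0 : E3) ∈ ray e := ⟨0, le_rfl, by simp⟩

/-- off the ray the map is a local homeomorphism with uniform bi-Lipschitz bounds -/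
theorem off_ray {D : Dat} {P Q : ℕ → E3} (hC : Comb D) (hP : Geom D P) (hQ : Geom D Q)
    (hD : DomOK D P) (e : E3) (isK : ℕ → Prop)
    (hK : ∀ v, isK v → ∃ s : ℝ, 0 ≤ s ∧ P v = s • e)
    (hF : ∀ t i, ¬ isK (D.vert t i) → FanOK D Q (D.vert t i, 0)) :
    ∃ K : ℝ, 0 < K ∧ IsLocalHomeomorphOn (fmap D P Q) (ray e)ᶜ ∧
      ∀ x, x ∉ ray e → ∃ W ∈ 𝓝 x, ∀ y ∈ W, ∀ z ∈ W,
        dist y z ≤ K * dist (fmap D P Q y) (fmap D P Q z) ∧
        dist (fmap D P Q y) (fmap D P Q z) ≤ K * dist y z := by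
  obtain ⟨K1, hK1⟩ := unif_lip D P Q
  obtain ⟨K2, hK2⟩ := unif_lip D Q P
  set K : NNReal := max 1 (max K1 K2) with hKdef
  have hKa : ∀ a, LipschitzWith K (gmap D P Q a) := fun a =>
    (hK1 a).weaken ((le_max_left _ _).trans (le_max_right _ _))
  have hKb : ∀ a, LipschitzWith K (gmap D Q P a) := fun a =>
    (hK2 a).weaken ((le_max_right _ _).trans (le_max_right _ _))
  have hK0 : (0:ℝ) < K := by
    have : (1:NNReal) ≤ K := le_max_left _ _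
    exact_mod_cast lt_of_lt_of_le one_pos this
  have main : ∀ x, x ∉ ray e → (∃ e : OpenPartialHomeomorph E3 E3, x ∈ e.source ∧ fmap D P Q = e) ∧
    ∃ W ∈ 𝓝 x, ∀ y ∈ W, ∀ z ∈ W, dist y z ≤ K * dist (fmap D P Q y) (fmap D P Q z) ∧
      dist (fmap D P Q y) (fmap D P Q z) ≤ K * dist y z := by
    intro x hx
    have hx0 : x ≠ 0 := by
      rintro rfl
      exact hx (zero_mem_ray e)
    obtain ⟨a, ha⟩ := (dom_cover D P hC hP hD.half hD.test).1 x hx0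
    obtain ⟨i, hi, hpos⟩ := good_corner hP e isK hK x hx a ha
    exact local_main hC hP hQ hD x hx0 (lab D a i) (fan_shift _ _ (hF a.1 i hi)) a ha i rfl hpos K
      hKa hKb
  exact ⟨K, hK0, fun x hx => (main x hx).1, fun x hx => (main x hx).2⟩

/-- failure of injectivity near `x` off the ray -/
def NI (f : E3 → E3) (e x : E3) : Prop :=
  ∀ V ∈ 𝓝 x, ∃ y ∈ V, ∃ z ∈ V, y ∉ ray e ∧ z ∉ ray e ∧ y ≠ z ∧ f y = f z

theorem NI_closure (f : E3 → E3) (e x : E3) (h : x ∈ closure {y | NI f e y}) : NI f e x := by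
  intro V hV
  obtain ⟨U, hUV, hU, hxU⟩ := mem_nhds_iff.1 hV
  obtain ⟨y, hyU, hy⟩ := mem_closure_iff.1 h U hU hxU
  obtain ⟨u, hu, w, hw, h1⟩ := hy U (hU.mem_nhds hyU)
  exact ⟨u, hUV hu, w, hUV hw, h1⟩

theorem fmap_scale {D : Dat} {P : ℕ → E3} (Q : ℕ → E3) (hC : Comb D) (hP : Geom D P)
    (hD : DomOK D P) (n : ℤ) (x : E3) (hx : x ≠ 0) :
    fmap D P Q ((4:ℝ) ^ n • x) = (4:ℝ) ^ n • fmap D P Q x := by
  obtain ⟨⟨t, m⟩, ha⟩ := (dom_cover D P hC hP hD.half hD.test).1 x hx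
  have h4 : (4:ℝ) ^ n ≠ 0 := by positivity
  have ha' : ∀ i, 0 ≤ bc (cell D P (t, n + m)) i ((4:ℝ) ^ n • x) := by
    intro i
    rw [bc_cell_scale]
    exact ha i
  rw [fmap_spec Q hC hP hD _ (smul_ne_zero h4 hx) _ ha', fmap_spec Q hC hP hD x hx _ ha]
  show ∑ i, bc (cell D P (t, n + m)) i ((4:ℝ) ^ n • x) • cell D Q (t, n + m) i =
    (4:ℝ) ^ n • ∑ i, bc (cell D P (t, m)) i x • cell D Q (t, m) i
  rw [Finset.smul_sum]
  refine Finset.sum_congr rfl fun i _ => ?_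
  rw [bc_cell_scale, cell_scale]
  exact smul_comm _ _ _

theorem ray_smul (e x : E3) (c : ℝ) (hc : 0 < c) : c • x ∈ ray e ↔ x ∈ ray e := by
  constructor
  · rintro ⟨s, hs, h⟩
    refine ⟨c⁻¹ * s, by positivity, ?_⟩
    rw [mul_smul, ← h, smul_smul, inv_mul_cancel₀ hc.ne', one_smul]
  · rintro ⟨s, hs, h⟩
    exact ⟨c * s, by positivity, by rw [h, smul_smul]⟩

theorem NI_scale {D : Dat} {P : ℕ → E3} (Q : ℕ → E3) (hC : Comb D) (hP : Geom D P)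
    (hD : DomOK D P) (e : E3) (n : ℤ) (x : E3) (h : NI (fmap D P Q) e x) :
    NI (fmap D P Q) e ((4:ℝ) ^ n • x) := by
  have h4 : (0:ℝ) < (4:ℝ) ^ n := by positivity
  intro V hV
  have hV' : (fun y : E3 => (4:ℝ) ^ n • y) ⁻¹' V ∈ 𝓝 x :=
    (continuous_const_smul ((4:ℝ) ^ n)).continuousAt hV
  obtain ⟨y, hy, z, hz, h1, h2, h3, h4'⟩ := h _ hV'
  have hy0 : y ≠ 0 := by rintro rfl; exact h1 (zero_mem_ray e)
  have hz0 : z ≠ 0 := by rintro rfl; exact h2 (zero_mem_ray e)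
  refine ⟨(4:ℝ) ^ n • y, hy, (4:ℝ) ^ n • z, hz, ?_, ?_, ?_, ?_⟩
  · rwa [ray_smul _ _ _ h4]
  · rwa [ray_smul _ _ _ h4]
  · intro h
    exact h3 (smul_right_injective _ h4.ne' h)
  · rw [fmap_scale Q hC hP hD n y hy0, fmap_scale Q hC hP hD n z hz0, h4']

end Pool.Agent.Helper842.Seg
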