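import Pool.Agent.Helper842.SegChk

open Set Filter Topology

namespace Pool.Agent.Helper842.Seg

noncomputable def toE (a : Z3) : E3 := !₂[(a.1 : ℝ), (a.2.1 : ℝ), (a.2.2 : ℝ)]

theorem toE_0 (a : Z3) : toE a 0 = a.1 := by simp [toE]
theorem toE_1 (a : Z3) : toE a 1 = a.2.1 := by simp [toE]
theorem toE_2 (a : Z3) : toE a 2 = a.2.2 := by simp [toE]

theorem E3_ext (x y : E3) (h0 : x 0 = y 0) (h1 : x 1 = y 1) (h2 : x 2 = y 2) : x = y := by
  ext i
  fin_cases i
  · exact h0
  · exact h1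
  · exact h2

theorem toE_sc (k : ℕ) (a : Z3) : toE (sc k a) = (4:ℝ) ^ k • toE a := by
  apply E3_ext <;>
    simp [toE_0, toE_1, toE_2, sc]

theorem det3_toE (u v w : Z3) : det3 (toE u) (toE v) (toE w) = (d3 u v w : ℝ) := by
  simp only [det3, toE_0, toE_1, toE_2, d3]
  push_cast
  ring

theorem toE_sub (a b : Z3) : toE a - toE b = toE (sb a b) := by
  apply E3_ext <;>
    simp [toE_0, toE_1, toE_2, sb]

theorem vol_toE (q : Fin 4 → Z3) :
    vol (fun i => toE (q i)) = (v4 (q 0) (q 1) (q 2) (q 3) : ℝ) := by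
  simp only [vol, toE_sub, det3_toE, v4]

theorem vu_toE (q : Fin 4 → Z3) (i : Fin 4) (x : Z3) :
    vol (Function.update (fun j => toE (q j)) i (toE x)) =
      (vu (q 0) (q 1) (q 2) (q 3) i x : ℝ) := by
  have : Function.update (fun j => toE (q j)) i (toE x) =
      fun j => toE (Function.update q i x j) := by
    funext j
    by_cases h : j = i
    · subst h; simp
    · simp [h]
  rw [this, vol_toE]
  fin_cases i <;> simp [vu]

noncomputable def PP (v : ℕ) : E3 := toE (gv tabP v)
noncomputable def QQ (v : ℕ) : E3 := toE (gv tabQ v)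

open Classical in
noncomputable def mkPerm (f : Fin 4 → Fin 4) : Equiv.Perm (Fin 4) :=
  if h : Function.Bijective f then Equiv.ofBijective f h else Equiv.refl _

theorem mkPerm_coe (f : Fin 4 → Fin 4) (h : Function.Injective f) (j : Fin 4) :
    mkPerm f j = f j := by
  have hb : Function.Bijective f := Finite.injective_iff_bijective.1 h
  unfold mkPerm
  rw [dif_pos hb]
  rfl

theorem rf_lt (t i j : ℕ) : rf t i j < 4 := Nat.mod_lt _ (by norm_num)

noncomputable def DD : Dat where
  nt := 842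
  vert t i := rv t i
  ql t i := (rq t i : ℤ)
  pt t i := ⟨rpt t i % 842, Nat.mod_lt _ (by norm_num)⟩
  ps t i := (rps t i : ℤ) - 1
  pm t i := mkPerm (fun j => ⟨rf t i j, rf_lt _ _ _⟩)

theorem chkA_spec (t i : ℕ) (h : chkA t i = true) :
    rpt t i < 842 ∧ rpt (rpt t i) (rf t i i) = t ∧ rps (rpt t i) (rf t i i) + rps t i = 2 ∧
    rf (rpt t i) (rf t i i) (rf t i i) = i ∧
    (∀ j < 4, j ≠ i → rv (rpt t i) (rf t i j) = rv t j ∧
      rq (rpt t i) (rf t i j) + rps t i = rq t j + 1) ∧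
    (∀ j < 4, ∀ k < 4, j ≠ k → rf t i j ≠ rf t i k) ∧
    (∀ j < 4, j ≠ i → rv t i ≠ rv t j) := by
  simp only [chkA, Bool.and_eq_true, decide_eq_true_eq] at h
  obtain ⟨⟨⟨⟨⟨⟨h1, h2⟩, h3⟩, h4⟩, h5⟩, h6⟩, h7⟩ := h
  refine ⟨h1, h2, h3, h4, ?_, ?_, ?_⟩
  · intro j hj hji
    have := allB_spec _ _ h5 j hj
    simp only [Bool.or_eq_true, Bool.and_eq_true, decide_eq_true_eq] at this
    rcases this with h | h
    · exact absurd h hji
    · exact h
  · intro j hj k hk hjk
    have := allB_spec _ _ (allB_spec _ _ h6 j hj) k hk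
    simp only [Bool.or_eq_true, decide_eq_true_eq, Bool.not_eq_true', decide_eq_false_iff_not] at this
    rcases this with h | h
    · exact absurd h hjk
    · exact h
  · intro j hj hji
    have := allB_spec _ _ h7 j hj
    simp only [Bool.or_eq_true, decide_eq_true_eq, Bool.not_eq_true', decide_eq_false_iff_not] at this
    rcases this with h | h
    · exact absurd h hji
    · exact h

theorem specA (t : Fin 842) (i : Fin 4) :
    rpt t i < 842 ∧ rpt (rpt t i) (rf t i i) = t ∧ rps (rpt t i) (rf t i i) + rps t i = 2 ∧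
    rf (rpt t i) (rf t i i) (rf t i i) = i ∧
    (∀ j < 4, j ≠ (i:ℕ) → rv (rpt t i) (rf t i j) = rv t j ∧
      rq (rpt t i) (rf t i j) + rps t i = rq t j + 1) ∧
    (∀ j < 4, ∀ k < 4, j ≠ k → rf t i j ≠ rf t i k) ∧
    (∀ j < 4, j ≠ (i:ℕ) → rv t i ≠ rv t j) :=
  chkA_spec t i (allB_spec _ _ (allB_spec _ _ c1 t t.2) i i.2)

theorem pm_coe (t : Fin 842) (i j : Fin 4) :
    DD.pm t i j = ⟨rf t i j, rf_lt _ _ _⟩ := by
  refine mkPerm_coe _ ?_ j
  intro j k hjk
  by_contra hne
  have h6 := (specA t i).2.2.2.2.2.1 j j.2 k k.2 (fun h => hne (Fin.ext h))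
  exact h6 (congrArg Fin.val hjk)

theorem pt_val (t : Fin 842) (i : Fin 4) : ((DD.pt t i : Fin 842) : ℕ) = rpt t i :=
  Nat.mod_eq_of_lt (specA t i).1

theorem comb : Comb DD where
  lab_inj t i j h := by
    by_contra hne
    exact (specA t i).2.2.2.2.2.2 j j.2 (fun h => hne (Fin.ext h.symm)) h
  lab_pa t i j hj := by
    have h5 := (specA t i).2.2.2.2.1 j j.2 (fun h => hj (Fin.ext h))
    rw [pm_coe]
    constructor
    · show rv ((DD.pt t i : Fin 842) : ℕ) (rf t i j) = rv t j
      rw [pt_val]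
      exact h5.1
    · show ((rq ((DD.pt t i : Fin 842) : ℕ) (rf t i j) : ℕ) : ℤ) + ((rps t i : ℤ) - 1) = (rq t j : ℤ)
      rw [pt_val]
      have := h5.2
      zify at this
      linarith
  inv t i := by
    obtain ⟨h1, h2, h3, h4, -⟩ := specA t i
    rw [pm_coe]
    refine ⟨?_, ?_, ?_⟩
    · apply Fin.ext
      rw [pt_val]
      show rpt ((DD.pt t i : Fin 842) : ℕ) (rf t i i) = t
      rw [pt_val]
      exact h2
    · show ((rps ((DD.pt t i : Fin 842) : ℕ) (rf t i i) : ℕ) : ℤ) - 1 = - ((rps t i : ℤ) - 1)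
      rw [pt_val]
      have := h3
      zify at this
      linarith
    · rw [pm_coe]
      apply Fin.ext
      show rf ((DD.pt t i : Fin 842) : ℕ) (rf t i i) (rf t i i) = i
      rw [pt_val]
      exact h4

theorem pos_co (T : ℕ) (t : Fin 842) (i : Fin 4) (k : ℕ) :
    (4:ℝ) ^ k • pos (fun v => toE (gv T v)) (DD.vert t i, DD.ql t i) = toE (co T t i k) := by
  show (4:ℝ) ^ k • ((4:ℝ) ^ ((rq t i : ℕ) : ℤ) • toE (gv T (rv t i))) = toE (sc (rq t i + k) (gv T (rv t i)))
  rw [toE_sc, smul_smul, zpow_natCast, pow_add, mul_comm]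

theorem pos_co0 (T : ℕ) (t : Fin 842) :
    (fun i => pos (fun v => toE (gv T v)) (DD.vert t i, DD.ql t i)) =
      fun i : Fin 4 => toE (co T t i 0) := by
  funext i
  have := pos_co T t i 0
  rw [pow_zero, one_smul] at this
  exact this

theorem geom (T : ℕ) (h : allB 842 (chk2 T) = true) : Geom DD (fun v => toE (gv T v)) where
  vol_pos t := by
    have h1 := allB_spec _ _ h t t.2
    simp only [chk2, Bool.and_eq_true, decide_eq_true_eq] at h1
    rw [pos_co0, vol_toE]
    have := h1.1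
    unfold vol0 at this
    exact_mod_cast this
  opp t i := by
    have h1 := allB_spec _ _ h t t.2
    simp only [chk2, Bool.and_eq_true, decide_eq_true_eq] at h1
    have h2 := allB_spec _ _ h1.2 i i.2
    simp only [decide_eq_true_eq] at h2
    have hap : (4:ℝ) ^ 1 • pos (fun v => toE (gv T v)) (DD.vert (DD.pt t i) (DD.pm t i i),
        DD.ql (DD.pt t i) (DD.pm t i i) + DD.ps t i) =
        toE (sc (rq (rpt t i) (rf t i i) + rps t i) (gv T (rv (rpt t i) (rf t i i)))) := by
      rw [pm_coe]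
      show (4:ℝ) ^ 1 • ((4:ℝ) ^ (((rq ((DD.pt t i : Fin 842) : ℕ) (rf t i i) : ℕ) : ℤ) + ((rps t i : ℤ) - 1)) •
        toE (gv T (rv ((DD.pt t i : Fin 842) : ℕ) (rf t i i)))) = _
      rw [pt_val, toE_sc, smul_smul, ← zpow_natCast, ← zpow_natCast,
        ← zpow_add₀ (by norm_num : (4:ℝ) ≠ 0)]
      congr 2
      push_cast
      ring
    have key : vol (Function.update (fun j : Fin 4 => toE (co T t j 1)) i
        (toE (sc (rq (rpt t i) (rf t i i) + rps t i) (gv T (rv (rpt t i) (rf t i i)))))) < 0 := by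
      rw [vu_toE]
      unfold volu at h2
      exact_mod_cast h2
    rw [← hap] at key
    have e1 : Function.update (fun j : Fin 4 => toE (co T t j 1)) i
        ((4:ℝ) ^ 1 • pos (fun v => toE (gv T v)) (DD.vert (DD.pt t i) (DD.pm t i i),
        DD.ql (DD.pt t i) (DD.pm t i i) + DD.ps t i)) =
        fun j => (4:ℝ) ^ 1 • Function.update
          (fun i => pos (fun v => toE (gv T v)) (DD.vert t i, DD.ql t i)) i
          (pos (fun v => toE (gv T v)) (DD.vert (DD.pt t i) (DD.pm t i i),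
        DD.ql (DD.pt t i) (DD.pm t i i) + DD.ps t i)) j := by
      funext j
      by_cases hj : j = i
      · subst hj; simp
      · rw [Function.update_of_ne hj, Function.update_of_ne hj, pos_co]
    rw [e1, vol_smul] at key
    by_contra hcon
    push Not at hcon
    have : 0 ≤ ((4:ℝ) ^ 1) ^ 3 * vol (Function.update
          (fun i => pos (fun v => toE (gv T v)) (DD.vert t i, DD.ql t i)) i
          (pos (fun v => toE (gv T v)) (DD.vert (DD.pt t i) (DD.pm t i i),
        DD.ql (DD.pt t i) (DD.pm t i i) + DD.ps t i))) := by positivity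
    linarith

end Pool.Agent.Helper842.Seg
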