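import Pool.Agent.Helper842.Main

set_option autoImplicit false
set_option linter.unusedSectionVars false

open MeasureTheory Set Filter Topology Metric
open scoped NNReal

namespace Pool.Agent.Helper842

/-- The sixteen types. -/
inductive Ty
  | t0
  | t1
  | t2
  | t3
  | t4
  | t5
  | t6
  | t7
  | t8
  | t9
  | t10
  | t11
  | t12
  | t13
  | t14
  | t15
  deriving DecidableEq

open Ty

instance : Fintype Ty where
  elems := {t0, t1, t2, t3, t4, t5, t6, t7, t8, t9, t10, t11, t12, t13, t14, t15}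
  complete := by intro x; cases x <;> simp

/-- Table column. -/
noncomputable def cp : Ty → ℝ
  | t0 => 4/5
  | t1 => 7/11
  | t2 => 2/3
  | t3 => 4/9
  | t4 => 3/4
  | t5 => 33/62
  | t6 => 9/14
  | t7 => 9/22
  | t8 => 6/5
  | t9 => 6/11
  | t10 => 3/2
  | t11 => 5/6
  | t12 => 1
  | t13 => 34/31
  | t14 => 4/7
  | t15 => 8/11

/-- Table column. -/
noncomputable def cq : Ty → ℝ
  | t0 => -32/25
  | t1 => -14/11
  | t2 => -8/7
  | t3 => -10/9
  | t4 => -23/20
  | t5 => -28/31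
  | t6 => -8/7
  | t7 => -10/11
  | t8 => -22/25
  | t9 => -10/11
  | t10 => -4/7
  | t11 => -2/3
  | t12 => -7/5
  | t13 => -40/31
  | t14 => -10/7
  | t15 => -14/11

/-- Table column. -/
noncomputable def cr : Ty → ℝ
  | t0 => 6/5
  | t1 => 6/11
  | t2 => 3/2
  | t3 => 5/6
  | t4 => 1
  | t5 => 34/31
  | t6 => 4/7
  | t7 => 8/11
  | t8 => 4/5
  | t9 => 7/11
  | t10 => 2/3
  | t11 => 4/9
  | t12 => 3/4
  | t13 => 33/62
  | t14 => 9/14
  | t15 => 9/22

/-- Table column. -/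
noncomputable def cs : Ty → ℝ
  | t0 => 22/25
  | t1 => 10/11
  | t2 => 4/7
  | t3 => 2/3
  | t4 => 7/5
  | t5 => 40/31
  | t6 => 10/7
  | t7 => 14/11
  | t8 => 32/25
  | t9 => 14/11
  | t10 => 8/7
  | t11 => 10/9
  | t12 => 23/20
  | t13 => 28/31
  | t14 => 8/7
  | t15 => 10/11

/-- Table column. -/
noncomputable def ca : Ty → ℝ
  | t0 => -4
  | t1 => -2
  | t2 => -4
  | t3 => -2
  | t4 => 1
  | t5 => 2
  | t6 => 1
  | t7 => 2
  | t8 => -9
  | t9 => -3
  | t10 => -9
  | t11 => -3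
  | t12 => -4
  | t13 => -6
  | t14 => -4
  | t15 => -6

/-- Table column. -/
noncomputable def cb : Ty → ℝ
  | t0 => 9
  | t1 => 3
  | t2 => 9
  | t3 => 3
  | t4 => 4
  | t5 => 6
  | t6 => 4
  | t7 => 6
  | t8 => 4
  | t9 => 2
  | t10 => 4
  | t11 => 2
  | t12 => -1
  | t13 => -2
  | t14 => -1
  | t15 => -2

/-- Table column. -/
noncomputable def cg00 : Ty → ℝ
  | t0 => 1/5
  | t1 => 7/22
  | t2 => 1/6
  | t3 => 2/9
  | t4 => -1/4
  | t5 => -17/93
  | t6 => -1/7
  | t7 => -4/33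
  | t8 => -1/5
  | t9 => -7/22
  | t10 => -1/6
  | t11 => -2/9
  | t12 => 1/4
  | t13 => 17/93
  | t14 => 1/7
  | t15 => 4/33

/-- Table column. -/
noncomputable def cg01 : Ty → ℝ
  | t0 => -22/225
  | t1 => -10/33
  | t2 => -4/63
  | t3 => -2/9
  | t4 => 23/20
  | t5 => 14/31
  | t6 => 8/7
  | t7 => 5/11
  | t8 => -22/225
  | t9 => -10/33
  | t10 => -4/63
  | t11 => -2/9
  | t12 => 23/20
  | t13 => 14/31
  | t14 => 8/7
  | t15 => 5/11

/-- Table column. -/
noncomputable def cg10 : Ty → ℝ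
  | t0 => -1/20
  | t1 => 5/154
  | t2 => -1/12
  | t3 => -4/63
  | t4 => 1/20
  | t5 => 25/372
  | t6 => 11/70
  | t7 => 17/132
  | t8 => 1/20
  | t9 => -5/154
  | t10 => 1/12
  | t11 => 4/63
  | t12 => -1/20
  | t13 => -25/372
  | t14 => -11/70
  | t15 => -17/132

/-- Table column. -/
noncomputable def cg11 : Ty → ℝ
  | t0 => 3/100
  | t1 => 6/77
  | t2 => 9/140
  | t3 => 10/63
  | t4 => -13/100
  | t5 => -26/217
  | t6 => -24/175
  | t7 => -9/77
  | t8 => 3/100
  | t9 => 6/77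
  | t10 => 9/140
  | t11 => 10/63
  | t12 => -13/100
  | t13 => -26/217
  | t14 => -24/175
  | t15 => -9/77

/-- Table column. -/
noncomputable def cg20 : Ty → ℝ
  | t0 => -23/310
  | t1 => -1/22
  | t2 => -10/93
  | t3 => -14/99
  | t4 => -5/44
  | t5 => -49/1116
  | t6 => -1/154
  | t7 => 7/396
  | t8 => 23/310
  | t9 => 1/22
  | t10 => 10/93
  | t11 => 14/99
  | t12 => 5/44
  | t13 => 49/1116
  | t14 => 1/154
  | t15 => -7/396

/-- Table column. -/
noncomputable def cg21 : Ty → ℝ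
  | t0 => 2/775
  | t1 => 0
  | t2 => 8/217
  | t3 => 8/99
  | t4 => -27/220
  | t5 => -29/279
  | t6 => -10/77
  | t7 => -10/99
  | t8 => 2/775
  | t9 => 0
  | t10 => 8/217
  | t11 => 8/99
  | t12 => -27/220
  | t13 => -29/279
  | t14 => -10/77
  | t15 => -10/99

/-- Table column. -/
noncomputable def cx : Ty → ℝ
  | t0 => -1
  | t1 => -1
  | t2 => -1
  | t3 => -1
  | t4 => -1
  | t5 => -1
  | t6 => -1
  | t7 => -1
  | t8 => 0
  | t9 => 0
  | t10 => 0
  | t11 => 0
  | t12 => -1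
  | t13 => -1
  | t14 => -1
  | t15 => -1

/-- Table column. -/
noncomputable def cy : Ty → ℝ
  | t0 => -1
  | t1 => 0
  | t2 => -1
  | t3 => 0
  | t4 => -1
  | t5 => -1
  | t6 => -1
  | t7 => -1
  | t8 => 1
  | t9 => 1
  | t10 => 1
  | t11 => 1
  | t12 => -1
  | t13 => -1
  | t14 => -1
  | t15 => -1

/-- Table column. -/
def ch0 : Ty → Ty
  | t0 => t12
  | t1 => t14
  | t2 => t12
  | t3 => t14
  | t4 => t0
  | t5 => t2
  | t6 => t0
  | t7 => t2
  | t8 => t4
  | t9 => t6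
  | t10 => t4
  | t11 => t6
  | t12 => t8
  | t13 => t10
  | t14 => t8
  | t15 => t10

/-- Table column. -/
def ch1 : Ty → Ty
  | t0 => t13
  | t1 => t15
  | t2 => t13
  | t3 => t15
  | t4 => t1
  | t5 => t3
  | t6 => t1
  | t7 => t3
  | t8 => t5
  | t9 => t7
  | t10 => t5
  | t11 => t7
  | t12 => t9
  | t13 => t11
  | t14 => t9
  | t15 => t11

/-- The real-linear map of the plane with a given invertible matrix. -/
noncomputable def matE (p q r s : ℝ) (h : p * s - q * r ≠ 0) : ℂ ≃L[ℝ] ℂ :=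
  LinearEquiv.toContinuousLinearEquiv
    { toFun := fun z => ⟨p * z.re + q * z.im, r * z.re + s * z.im⟩
      map_add' := by
        intro z w
        apply Complex.ext
        · simp only [Complex.add_re, Complex.add_im]; ring
        · simp only [Complex.add_re, Complex.add_im]; ring
      map_smul' := by
        intro c z
        apply Complex.ext
        · simp only [Complex.smul_re, Complex.smul_im, smul_eq_mul, RingHom.id_apply]; ring
        · simp only [Complex.smul_re, Complex.smul_im, smul_eq_mul, RingHom.id_apply]; ring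
      invFun := fun z => ⟨(s * z.re - q * z.im) / (p * s - q * r),
        (p * z.im - r * z.re) / (p * s - q * r)⟩
      left_inv := by
        intro z
        apply Complex.ext
        · have : (s * (p * z.re + q * z.im) - q * (r * z.re + s * z.im)) =
              (p * s - q * r) * z.re := by ring
          simp only [this]
          exact mul_div_cancel_left₀ _ h
        · have : (p * (r * z.re + s * z.im) - r * (p * z.re + q * z.im)) =
              (p * s - q * r) * z.im := by ring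
          simp only [this]
          exact mul_div_cancel_left₀ _ h
      right_inv := by
        intro z
        apply Complex.ext
        · have : p * ((s * z.re - q * z.im) / (p * s - q * r)) +
              q * ((p * z.im - r * z.re) / (p * s - q * r)) =
              (p * s - q * r) * z.re / (p * s - q * r) := by ring
          simp only [this]
          exact mul_div_cancel_left₀ _ h
        · have : r * ((s * z.re - q * z.im) / (p * s - q * r)) +
              s * ((p * z.im - r * z.re) / (p * s - q * r)) =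
              (p * s - q * r) * z.im / (p * s - q * r) := by ring
          simp only [this]
          exact mul_div_cancel_left₀ _ h }

lemma matE_apply (p q r s : ℝ) (h : p * s - q * r ≠ 0) (z : ℂ) :
    matE p q r s h z = ⟨p * z.re + q * z.im, r * z.re + s * z.im⟩ := rfl

lemma matE_symm_apply (p q r s : ℝ) (h : p * s - q * r ≠ 0) (z : ℂ) :
    (matE p q r s h).symm z = ⟨(s * z.re - q * z.im) / (p * s - q * r),
        (p * z.im - r * z.re) / (p * s - q * r)⟩ := rfl

/-- A real functional on the plane. -/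
noncomputable def lin (a b : ℝ) : ℂ →L[ℝ] ℝ := a • Complex.reCLM + b • Complex.imCLM

lemma lin_apply (a b : ℝ) (z : ℂ) : lin a b z = a * z.re + b * z.im := by
  simp [lin]

lemma tdet (i : Ty) : cp i * cs i - cq i * cr i ≠ 0 := by
  cases i <;> norm_num [cp, cq, cr, cs]

/-- The matrices. -/
noncomputable def PP (i : Ty) : ℂ ≃L[ℝ] ℂ := matE (cp i) (cq i) (cr i) (cs i) (tdet i)

lemma PP_apply (i : Ty) (z : ℂ) :
    PP i z = ⟨cp i * z.re + cq i * z.im, cr i * z.re + cs i * z.im⟩ := rfl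

/-- The functionals. -/
noncomputable def gg (i : Ty) : Fin 3 → ℂ →L[ℝ] ℝ :=
  ![lin (cg00 i) (cg01 i), lin (cg10 i) (cg11 i), lin (cg20 i) (cg21 i)]

/-- The translation vectors. -/
noncomputable def vv (i : Ty) : ℂ := ⟨ca i, cb i⟩

/-- The children. -/
def cc (i : Ty) : Fin 2 → Ty := ![ch0 i, ch1 i]

lemma tch0 (i : Ty) : cp (ch0 i) = cp i + cg10 i * ca i ∧ cq (ch0 i) = cq i + cg11 i * ca i ∧
    cr (ch0 i) = cr i + cg10 i * cb i ∧ cs (ch0 i) = cs i + cg11 i * cb i := by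
  cases i <;> norm_num [cp, cq, cr, cs, ca, cb, cg10, cg11, ch0]

lemma tch1 (i : Ty) : cp (ch1 i) = cp i + cg20 i * ca i ∧ cq (ch1 i) = cq i + cg21 i * ca i ∧
    cr (ch1 i) = cr i + cg20 i * cb i ∧ cs (ch1 i) = cs i + cg21 i * cb i := by
  cases i <;> norm_num [cp, cq, cr, cs, ca, cb, cg20, cg21, ch1]

lemma tK (i : Ty) : (cr i + cg00 i * cb i = 0 ∧ cq i + cg01 i * ca i = 0) ∨
    (cp i + cg00 i * ca i = 0 ∧ cs i + cg01 i * cb i = 0) := by
  cases i <;> norm_num [cp, cq, cr, cs, ca, cb, cg00, cg01]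

lemma hch (i : Ty) (k : Fin 2) (x : ℂ) :
    PP (cc i k) x = PP i x + (gg i k.succ x) • vv i := by
  fin_cases k
  · obtain ⟨h1, h2, h3, h4⟩ := tch0 i
    show PP (ch0 i) x = PP i x + lin (cg10 i) (cg11 i) x • vv i
    rw [PP_apply, PP_apply, lin_apply, h1, h2, h3, h4]
    apply Complex.ext
    · simp only [Complex.add_re, Complex.smul_re, smul_eq_mul, vv]; ring
    · simp only [Complex.add_im, Complex.smul_im, smul_eq_mul, vv]; ring
  · obtain ⟨h1, h2, h3, h4⟩ := tch1 i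
    show PP (ch1 i) x = PP i x + lin (cg20 i) (cg21 i) x • vv i
    rw [PP_apply, PP_apply, lin_apply, h1, h2, h3, h4]
    apply Complex.ext
    · simp only [Complex.add_re, Complex.smul_re, smul_eq_mul, vv]; ring
    · simp only [Complex.add_im, Complex.smul_im, smul_eq_mul, vv]; ring

/-- Linear maps with a diagonal or antidiagonal matrix. -/
def KK : Set (ℂ →L[ℝ] ℂ) := {A | ((A 1).im = 0 ∧ (A Complex.I).re = 0) ∨
  ((A 1).re = 0 ∧ (A Complex.I).im = 0)}

lemma hK (i : Ty) : ∃ A ∈ KK, ∀ x, A x = PP i x + (gg i 0 x) • vv i := by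
  refine ⟨(PP i : ℂ →L[ℝ] ℂ) + (gg i 0).smulRight (vv i), ?_, fun x => rfl⟩
  have h1 : ((PP i : ℂ →L[ℝ] ℂ) + (gg i 0).smulRight (vv i)) 1 =
      ⟨cp i + cg00 i * ca i, cr i + cg00 i * cb i⟩ := by
    show PP i 1 + lin (cg00 i) (cg01 i) 1 • vv i = _
    rw [PP_apply, lin_apply]
    apply Complex.ext
    · simp [vv]
    · simp [vv]
  have h2 : ((PP i : ℂ →L[ℝ] ℂ) + (gg i 0).smulRight (vv i)) Complex.I =
      ⟨cq i + cg01 i * ca i, cs i + cg01 i * cb i⟩ := by
    show PP i Complex.I + lin (cg00 i) (cg01 i) Complex.I • vv i = _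
    rw [PP_apply, lin_apply]
    apply Complex.ext
    · simp [vv]
    · simp [vv]
  unfold KK
  rw [mem_ofPred_eq, h1, h2]
  rcases tK i with h | h
  · left; exact h
  · right; exact h

lemma tpos0 (i : Ty) : 0 < 1 + (cg00 i * ((cs i * ca i - cq i * cb i) / (cp i * cs i - cq i * cr i))
    + cg01 i * ((cp i * cb i - cr i * ca i) / (cp i * cs i - cq i * cr i))) := by
  cases i <;> norm_num [cp, cq, cr, cs, ca, cb, cg00, cg01]

lemma tpos1 (i : Ty) : 0 < 1 + (cg10 i * ((cs i * ca i - cq i * cb i) / (cp i * cs i - cq i * cr i))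
    + cg11 i * ((cp i * cb i - cr i * ca i) / (cp i * cs i - cq i * cr i))) := by
  cases i <;> norm_num [cp, cq, cr, cs, ca, cb, cg10, cg11]

lemma tpos2 (i : Ty) : 0 < 1 + (cg20 i * ((cs i * ca i - cq i * cb i) / (cp i * cs i - cq i * cr i))
    + cg21 i * ((cp i * cb i - cr i * ca i) / (cp i * cs i - cq i * cr i))) := by
  cases i <;> norm_num [cp, cq, cr, cs, ca, cb, cg20, cg21]

lemma hpos (i : Ty) (k : Fin 3) : 0 < 1 + gg i k ((PP i).symm (vv i)) := by
  have h : (PP i).symm (vv i) = ⟨(cs i * ca i - cq i * cb i) / (cp i * cs i - cq i * cr i),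
        (cp i * cb i - cr i * ca i) / (cp i * cs i - cq i * cr i)⟩ := rfl
  rw [h]
  fin_cases k
  · show 0 < 1 + lin (cg00 i) (cg01 i) _
    rw [lin_apply]; exact tpos0 i
  · show 0 < 1 + lin (cg10 i) (cg11 i) _
    rw [lin_apply]; exact tpos1 i
  · show 0 < 1 + lin (cg20 i) (cg21 i) _
    rw [lin_apply]; exact tpos2 i

lemma tbd (i : Ty) (x y : ℝ) (h0 : -1 ≤ cg00 i * x + cg01 i * y)
    (h1 : -1 ≤ cg10 i * x + cg11 i * y) (h2 : -1 ≤ cg20 i * x + cg21 i * y) :
    (-500 ≤ x ∧ x ≤ 500) ∧ (-500 ≤ y ∧ y ≤ 500) := by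
  cases i <;> norm_num [cg00, cg01, cg10, cg11, cg20, cg21] at h0 h1 h2 <;>
    refine ⟨⟨?_, ?_⟩, ?_, ?_⟩ <;> linarith

lemma hR (i : Ty) : ∃ R, ∀ x, 0 ≤ tau (gg i) x → ‖x‖ ≤ R := by
  refine ⟨1000, fun x hx => ?_⟩
  have h0 : 0 ≤ 1 + lin (cg00 i) (cg01 i) x := hx.trans (tau_le (gg i) x 0)
  have h1 : 0 ≤ 1 + lin (cg10 i) (cg11 i) x := hx.trans (tau_le (gg i) x 1)
  have h2 : 0 ≤ 1 + lin (cg20 i) (cg21 i) x := hx.trans (tau_le (gg i) x 2)
  rw [lin_apply] at h0 h1 h2
  obtain ⟨⟨h3, h4⟩, h5, h6⟩ := tbd i x.re x.im (by linarith) (by linarith) (by linarith)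
  refine (Complex.norm_le_abs_re_add_abs_im x).trans ?_
  have := abs_le.mpr ⟨h3, h4⟩
  have := abs_le.mpr ⟨h5, h6⟩
  linarith

lemma lin_ne {a b c d : ℝ} (h : a ≠ c ∨ b ≠ d) : lin a b ≠ lin c d := by
  intro hcon
  rcases h with h | h
  · apply h
    have := congrArg (fun f : ℂ →L[ℝ] ℝ => f 1) hcon
    simpa [lin_apply] using this
  · apply h
    have := congrArg (fun f : ℂ →L[ℝ] ℝ => f Complex.I) hcon
    simpa [lin_apply] using this

lemma lin_zero : lin 0 0 = 0 := by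
  ext x; simp [lin_apply]

lemma tg0 (i : Ty) : cg01 i ≠ 0 ∧ cg10 i ≠ 0 ∧ cg20 i ≠ 0 := by
  cases i <;> norm_num [cg01, cg10, cg20]

lemma hg0 (i : Ty) (k : Fin 3) : gg i k ≠ 0 := by
  obtain ⟨h0, h1, h2⟩ := tg0 i
  rw [← lin_zero]
  fin_cases k
  · exact lin_ne (Or.inr h0)
  · exact lin_ne (Or.inl h1)
  · exact lin_ne (Or.inl h2)

lemma tinj (i : Ty) : cg00 i ≠ cg10 i ∧ cg00 i ≠ cg20 i ∧ cg10 i ≠ cg20 i := by
  cases i <;> norm_num [cg00, cg10, cg20]

lemma hinj (i : Ty) (k k' : Fin 3) (h : k ≠ k') : gg i k ≠ gg i k' := by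
  obtain ⟨h0, h1, h2⟩ := tinj i
  fin_cases k <;> fin_cases k'
  · exact absurd rfl h
  · exact lin_ne (Or.inl h0)
  · exact lin_ne (Or.inl h1)
  · exact lin_ne (Or.inl h0.symm)
  · exact absurd rfl h
  · exact lin_ne (Or.inl h2)
  · exact lin_ne (Or.inl h1.symm)
  · exact lin_ne (Or.inl h2.symm)
  · exact absurd rfl h

lemma tgood (i : Ty) : cg00 i * cx i + cg01 i * cy i < cg10 i * cx i + cg11 i * cy i ∧
    cg00 i * cx i + cg01 i * cy i < cg20 i * cx i + cg21 i * cy i := by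
  cases i <;> norm_num [cg00, cg01, cg10, cg11, cg20, cg21, cx, cy]

lemma hgood (i : Ty) : ∃ x, gg i 0 x < gg i 1 x ∧ gg i 0 x < gg i 2 x := by
  refine ⟨⟨cx i, cy i⟩, ?_, ?_⟩
  · show lin (cg00 i) (cg01 i) _ < lin (cg10 i) (cg11 i) _
    rw [lin_apply, lin_apply]; exact (tgood i).1
  · show lin (cg00 i) (cg01 i) _ < lin (cg20 i) (cg21 i) _
    rw [lin_apply, lin_apply]; exact (tgood i).2

end Pool.Agent.Helper842
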